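import Pool.Agent.Lib.MP_2cea29_lc.Red
import Pool.Agent.Lib.PolyTime.Converse
import Pool.Agent.Lib.PolyTime.Finite
import Pool.Agent.Lib.PolyTime.Arith
import Pool.Agent.Lib.PolyTime.More
import Pool.Agent.Lib.PolyTime.Codes

/-!
# The algorithm is polynomial time (MP_2cea29_lc, module ALG)
-/

namespace Pool.Agent.MP2cea29

open Pool.Agent.PolyTime

variable {X β γ : Type} [Enc X] [Enc β] [Enc γ]

/-! ### General closure properties -/

theorem PT_powLen {b : X → ℕ} {l : X → List β} (hb : PTime b) (hl : PTime l) :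
    PTime (fun x => b x ^ (l x).length) := by
  obtain ⟨Tb, hTb, hTbm, hTb2⟩ := hb.size_le
  obtain ⟨Tl, hTl, hTlm, hTl2⟩ := hl.size_le
  have hfold : ∀ (m : ℕ) (l : List β) (acc : ℕ),
      l.foldl (fun acc _ => acc * m) acc = acc * m ^ l.length := by
    intro m l
    induction l with
    | nil => intro acc; simp
    | cons y l ih => intro acc; rw [List.foldl_cons, ih, List.length_cons]; ring
  have h : PTime (fun x => (l x).foldl (fun acc _ => acc * b x) 1) := by
    refine PTime.foldl (h := fun x acc _ => acc * b x) (g := fun _ => 1) hl (PTime.const 1)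
      (B := fun n => 4 * (Tb n * Tl n + 1) + 1) ?_ ?_ ?_
    · exact PTime.mul (PTime.fst.comp PTime.snd) (hb.comp PTime.fst)
    · exact ((PBd.const 4).mul ((hTb.mul hTl).add (PBd.const 1))).add (PBd.const 1)
    · intro x l₁ l₂ hx
      rw [hfold, one_mul]
      have h1 : l₁.length ≤ Tl (size (enc x)) := by
        have h2 := length_le_size (l x)
        have h3 := hTl2 x
        rw [hx, List.length_append] at h2
        rw [hx] at h3
        omega
      have h2 : b x < 2 ^ Tb (size (enc x)) :=
        (lt_two_pow_size (b x)).trans_le (Nat.pow_le_pow_right (by norm_num) (hTb2 x))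
      refine size_nat_le_of_lt ?_
      calc b x ^ l₁.length ≤ (2 ^ Tb (size (enc x))) ^ l₁.length := Nat.pow_le_pow_left h2.le _
        _ = 2 ^ (Tb (size (enc x)) * l₁.length) := by rw [pow_mul]
        _ ≤ 2 ^ (Tb (size (enc x)) * Tl (size (enc x))) :=
          Nat.pow_le_pow_right (by norm_num) (Nat.mul_le_mul_left _ h1)
        _ < 2 ^ (Tb (size (enc x)) * Tl (size (enc x)) + 1) :=
          Nat.pow_lt_pow_right (by norm_num) (Nat.lt_succ_self _)
  refine h.of_eq fun x => ?_
  rw [hfold, one_mul]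

theorem PT_min {f g : X → ℕ} (hf : PTime f) (hg : PTime g) : PTime (fun x => min (f x) (g x)) := by
  refine (PTime.iteP (PTime.le hf hg) hf hg).of_eq fun x => ?_
  rw [Nat.min_def]

theorem PT_zipIdx {f : X → List β} (hf : PTime f) : PTime (fun x => (f x).zipIdx) := by
  refine (PTime.zipIdx hf).of_eq fun x => ?_
  rw [List.zipIdx_eq_zip_range']
  simp [List.range_eq_range']

theorem PT_single {f : X → β} (hf : PTime f) : PTime (fun x => [f x]) :=
  hf.cons (PTime.const [])

/-! ### Formulas -/

theorem PT_occ {φ : X → CNF} (hφ : PTime φ) : PTime (fun x => occ (φ x)) := by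
  refine PTime.flatMap (g := fun _ (c : Clause) => [c.1.1, c.2.1.1, c.2.2.1]) hφ ?_
  have hc : PTime (fun p : X × Clause => p.2) := PTime.snd
  exact hc.fst'.fst'.cons (hc.snd'.fst'.fst'.cons (hc.snd'.snd'.fst'.cons (PTime.const [])))

theorem nub_size (l : List ℕ) : ∀ acc : List ℕ,
    size (enc (l.foldl (fun acc x => if x ∈ acc then acc else x :: acc) acc)) ≤
      size (enc l) + size (enc acc) := by
  induction l with
  | nil => intro acc; simp
  | cons y l ih =>
    intro acc
    rw [List.foldl_cons]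
    refine (ih _).trans ?_
    rw [size_lcons]
    split_ifs
    · omega
    · rw [size_lcons]; omega

theorem PT_nub {f : X → List ℕ} (hf : PTime f) : PTime (fun x => nub (f x)) := by
  obtain ⟨T, hT, hTm, hT2⟩ := hf.size_le
  refine PTime.foldl (h := fun _ acc x => if x ∈ acc then acc else x :: acc) (g := fun _ => [])
    hf (PTime.const []) (B := fun n => T n + 1) ?_ (hT.add (PBd.const 1)) ?_
  · have h1 : PTime (fun p : X × (List ℕ × ℕ) => p.2.1) := PTime.snd.fst'
    have h2 : PTime (fun p : X × (List ℕ × ℕ) => p.2.2) := PTime.snd.snd'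
    exact PTime.iteP (PTime.mem h2 h1) h1 (h2.cons h1)
  · intro x l₁ l₂ hx
    refine (nub_size l₁ []).trans ?_
    have h1 := hT2 x
    have h2 : size (enc l₁) ≤ size (enc (f x)) := by
      rw [hx]; exact size_sublist (List.sublist_append_left _ _)
    have h3 : size (enc ([] : List ℕ)) = 1 := rfl
    rw [h3]
    omega

theorem PT_vars {φ : X → CNF} (hφ : PTime φ) : PTime (fun x => vars (φ x)) := PT_nub (PT_occ hφ)

theorem PT_occIn {y : X → ℕ} {c : X → Clause} (hy : PTime y) (hc : PTime c) :
    PTime (fun x => occIn (y x) (c x)) :=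
  PTime.or (PTime.or (PTime.eq hy hc.fst'.fst') (PTime.eq hy hc.snd'.fst'.fst'))
    (PTime.eq hy hc.snd'.snd'.fst')

theorem PT_deg {φ : X → CNF} {y : X → ℕ} (hφ : PTime φ) (hy : PTime y) :
    PTime (fun x => deg (φ x) (y x)) :=
  PTime.length (PTime.filter (g := fun x c => occIn (y x) c) hφ
    (PT_occIn (hy.comp PTime.fst) PTime.snd))

theorem PT_isHigh {B : X → ℕ} {φ : X → CNF} {y : X → ℕ} (hB : PTime B) (hφ : PTime φ)
    (hy : PTime y) : PTime (fun x => isHigh (B x) (φ x) (y x)) :=
  PTime.lt (PTime.mul hB (PTime.length hφ)) (PTime.mul (PT_deg hφ hy) (PTime.length (PT_vars hφ)))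

theorem PT_high {B : X → ℕ} {φ : X → CNF} (hB : PTime B) (hφ : PTime φ) :
    PTime (fun x => high (B x) (φ x)) :=
  PTime.filter (g := fun x y => isHigh (B x) (φ x) y) (PT_vars hφ)
    (PT_isHigh (hB.comp PTime.fst) (hφ.comp PTime.fst) PTime.snd)

theorem PT_low {B : X → ℕ} {φ : X → CNF} (hB : PTime B) (hφ : PTime φ) :
    PTime (fun x => low (B x) (φ x)) :=
  PTime.filter (g := fun x y => !isHigh (B x) (φ x) y) (PT_vars hφ)
    (PTime.not (PT_isHigh (hB.comp PTime.fst) (hφ.comp PTime.fst) PTime.snd))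

/-! ### Samples -/

theorem PT_sym {l : X → List Unit} {w : X → List Bool} {i : X → ℕ} (hl : PTime l) (hw : PTime w)
    (hi : PTime i) : PTime (fun x => sym (l x).length (w x) (i x)) := by
  have h1 : PTime (fun x => (List.range (l x).length).all fun t =>
      decide (t = 0) || !((w x).getD (i x * (l x).length + t) false)) := by
    refine PTime.all (g := fun x t =>
      decide (t = 0) || !((w x).getD (i x * (l x).length + t) false)) (PTime.rangeLength hl) ?_
    refine PTime.or (PTime.eq PTime.snd (PTime.const 0)) (PTime.not ?_)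
    exact PTime.listGetD (hw.comp PTime.fst)
      (PTime.add (PTime.mul (hi.comp PTime.fst) (PTime.length (hl.comp PTime.fst))) PTime.snd)
      (PTime.const false)
  exact PTime.ite h1 (PTime.some (PTime.listGetD hw (PTime.mul hi (PTime.length hl))
    (PTime.const false))) (PTime.const none)

theorem PT_litsLow {B : X → ℕ} {l : X → List Unit} {φ : X → CNF} {w : X → List Bool} {a : X → ℕ}
    (hB : PTime B) (hl : PTime l) (hφ : PTime φ) (hw : PTime w) (ha : PTime a) :
    PTime (fun x => litsLow (B x) (l x).length (φ x) (w x) (a x)) := by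
  refine PTime.flatMap (g := fun x (p : ℕ × ℕ) =>
    match sym (l x).length (w x) (a x * (low (B x) (φ x)).length + p.2) with
    | none => []
    | some b => [(p.1, b)]) (PT_zipIdx (PT_low hB hφ)) ?_
  refine (PTime.option_cases (f := fun p : X × (ℕ × ℕ) =>
    sym (l p.1).length (w p.1) (a p.1 * (low (B p.1) (φ p.1)).length + p.2.2))
    (g := fun _ => []) (h := fun q : (X × (ℕ × ℕ)) × Bool => [(q.1.2.1, q.2)]) ?_
    (PTime.const []) ?_).of_eq fun p => ?_
  rotate_left 2
  · dsimp only
    cases sym (l p.1).length (w p.1) (a p.1 * (low (B p.1) (φ p.1)).length + p.2.2) <;> rfl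
  · exact PT_sym (hl.comp PTime.fst) (hw.comp PTime.fst)
      (PTime.add (PTime.mul (ha.comp PTime.fst)
        (PTime.length (PT_low (hB.comp PTime.fst) (hφ.comp PTime.fst)))) PTime.snd.snd')
  · exact PT_single (PTime.pair PTime.fst.snd'.fst' PTime.snd)

theorem PT_litsHigh {B : X → ℕ} {φ : X → CNF} {i : X → ℕ}
    (hB : PTime B) (hφ : PTime φ) (hi : PTime i) :
    PTime (fun x => litsHigh (B x) (φ x) (i x)) := by
  refine PTime.map (g := fun x (p : ℕ × ℕ) => (p.1, (i x).bits.getD p.2 false))
    (PT_zipIdx (PT_high hB hφ)) ?_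
  exact PTime.pair PTime.snd.fst' (PTime.listGetD (PTime.natBits (hi.comp PTime.fst))
    PTime.snd.snd' (PTime.const false))

theorem PT_litMem {L : X → List Lit} {x : X → Lit} (hL : PTime L) (hx : PTime x) :
    PTime (fun z => decide (((x z).1, !(x z).2) ∈ L z)) :=
  PTime.mem (PTime.pair hx.fst' (PTime.not hx.snd')) hL

theorem PT_falsified {L : X → List Lit} {c : X → Clause} (hL : PTime L) (hc : PTime c) :
    PTime (fun x => falsified (L x) (c x)) :=
  PTime.and (PT_litMem hL hc.fst') (PTime.and (PT_litMem hL hc.snd'.fst')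
    (PT_litMem hL hc.snd'.snd'))

theorem PT_okV {B : X → ℕ} {l : X → List Unit} {φ : X → CNF} {w : X → List Bool} {i a : X → ℕ}
    (hB : PTime B) (hl : PTime l) (hφ : PTime φ) (hw : PTime w) (hi : PTime i) (ha : PTime a) :
    PTime (fun x => okV (B x) (l x).length (φ x) (w x) (i x) (a x)) := by
  refine PTime.all (g := fun x c => !falsified (litsHigh (B x) (φ x) (i x) ++
    litsLow (B x) (l x).length (φ x) (w x) (a x)) c) hφ ?_
  refine PTime.not (PT_falsified ?_ PTime.snd)
  exact PTime.comp (f := fun x => litsHigh (B x) (φ x) (i x) ++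
    litsLow (B x) (l x).length (φ x) (w x) (a x))
    (PTime.append (PT_litsHigh hB hφ hi) (PT_litsLow hB hl hφ hw ha)) PTime.fst

theorem PT_consis {L L' : X → List Lit} (hL : PTime L) (hL' : PTime L') :
    PTime (fun x => consis (L x) (L' x)) :=
  PTime.all (g := fun x (p : Lit) => !decide ((p.1, !p.2) ∈ L' x)) hL
    (PTime.not (PT_litMem (hL'.comp PTime.fst) PTime.snd))

theorem PT_nSamp {K : X → ℕ} {l : X → List Unit} {y : X → List β}
    (hK : PTime K) (hl : PTime l) (hy : PTime y) :
    PTime (fun x => nSamp (K x) (l x).length (y x).length) := by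
  have h2 : PTime (fun x => 2 ^ (l x).length) := PT_powLen (PTime.const 2) hl
  exact PTime.mul hK (PTime.add (PTime.div (PT_powLen h2 hy)
    (PT_powLen (PTime.sub h2 (PTime.const 1)) hy)) (PTime.const 1))

theorem PT_nS {B : X → ℕ} {l : X → List Unit} {K : X → ℕ} {φ : X → CNF} {w : X → List Bool}
    (hB : PTime B) (hl : PTime l) (hK : PTime K) (hφ : PTime φ) (hw : PTime w) :
    PTime (fun x => nS (B x) (l x).length (K x) (φ x) (w x)) :=
  PT_min (PT_nSamp hK hl (PT_low hB hφ)) (PTime.length hw)

theorem PT_nB {B : X → ℕ} {φ : X → CNF} {w : X → List Bool}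
    (hB : PTime B) (hφ : PTime φ) (hw : PTime w) :
    PTime (fun x => nB (B x) (φ x) (w x)) :=
  PT_min (PT_powLen (PTime.const 2) (PT_high hB hφ)) (PTime.length hw)

theorem PT_adjV {B : X → ℕ} {l : X → List Unit} {K : X → ℕ} {φ : X → CNF} {w : X → List Bool}
    {u v : X → ℕ}
    (hB : PTime B) (hl : PTime l) (hK : PTime K) (hφ : PTime φ) (hw : PTime w) (hu : PTime u)
    (hv : PTime v) :
    PTime (fun x => adjV (B x) (l x).length (K x) (φ x) (w x) (u x) (v x)) := by
  have hn := PT_nS hB hl hK hφ hw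
  have hud := PTime.div hu hn
  have hum := PTime.mod hu hn
  have hvd := PTime.div hv hn
  have hvm := PTime.mod hv hn
  exact PTime.and (PTime.eq hud hvd) (PTime.and (PT_okV hB hl hφ hw hud hum)
    (PTime.and (PT_okV hB hl hφ hw hvd hvm)
      (PT_consis (PT_litsLow hB hl hφ hw hum) (PT_litsLow hB hl hφ hw hvm))))

theorem PT_rangeN {B : X → ℕ} {l : X → List Unit} {K : X → ℕ} {φ : X → CNF} {w : X → List Bool}
    (hB : PTime B) (hl : PTime l) (hK : PTime K) (hφ : PTime φ) (hw : PTime w) :
    PTime (fun x => List.range (nB (B x) (φ x) (w x) * nS (B x) (l x).length (K x) (φ x) (w x))) := by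
  refine PTime.rangeLe (PTime.mul (PT_nB hB hφ hw) (PT_nS hB hl hK hφ hw)) (PTime.listMul hw hw) ?_
  intro x
  have h1 : nB (B x) (φ x) (w x) ≤ (w x).length := min_le_right _ _
  have h2 : nS (B x) (l x).length (K x) (φ x) (w x) ≤ (w x).length := min_le_right _ _
  refine (Nat.mul_le_mul h1 h2).trans (le_of_eq ?_)
  simp [List.length_flatMap]

theorem PT_redG {B : X → ℕ} {l : X → List Unit} {K : X → ℕ} {φ : X → CNF} {w : X → List Bool}
    (hB : PTime B) (hl : PTime l) (hK : PTime K) (hφ : PTime φ) (hw : PTime w) :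
    PTime (fun x => redG (B x) (l x).length (K x) (φ x) (w x)) := by
  refine PTime.map (g := fun x u =>
    (List.range (nB (B x) (φ x) (w x) * nS (B x) (l x).length (K x) (φ x) (w x))).filter
      fun v => adjV (B x) (l x).length (K x) (φ x) (w x) u v) (PT_rangeN hB hl hK hφ hw) ?_
  refine PTime.filter (g := fun (p : X × ℕ) v =>
    adjV (B p.1) (l p.1).length (K p.1) (φ p.1) (w p.1) p.2 v) ?_ ?_
  · exact (PT_rangeN hB hl hK hφ hw).comp PTime.fst
  · have hf : PTime (fun p : (X × ℕ) × ℕ => p.1.1) := PTime.fst.fst'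
    exact PT_adjV (hB.comp hf) (hl.comp hf) (hK.comp hf) (hφ.comp hf) (hw.comp hf)
      PTime.fst.snd' PTime.snd

/-! ### The algorithm -/

theorem enc_toListD (d : D) : enc (toListD d) = d := by
  induction d with
  | nil => rfl
  | cons a b _ ih => rw [toListD, enc_cons, ih]; rfl

theorem PT_toListD {f : X → D} (hf : PTime f) : PTime (fun x => toListD (f x)) :=
  hf.of_enc_eq (fun x => x) (fun _ => rfl) (fun x => enc_toListD (f x))

theorem PT_outS {G : X → GraphIn} {d : X → D} (hG : PTime G) (hd : PTime d) :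
    PTime (fun x => outS (G x) (d x)) := by
  refine PTime.filter (g := fun x (u : ℕ) => decide (enc u ∈ toListD (d x)))
    (PTime.rangeLength hG) ?_
  exact PTime.mem (PTime.toD.comp PTime.snd) (PT_toListD (hd.comp PTime.fst))

theorem PT_edgesL {G : X → GraphIn} {S : X → List ℕ} (hG : PTime G) (hS : PTime S) :
    PTime (fun x => edgesL (G x) (S x)) := by
  refine PTime.length (PTime.filter (g := fun x (p : ℕ × ℕ) =>
    decide (p.1 < p.2) && (decide (p.2 ∈ (G x).getD p.1 []) || decide (p.1 ∈ (G x).getD p.2 [])))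
    ?_ ?_)
  · refine PTime.flatMap (g := fun x u => (S x).map fun v => (u, v)) hS ?_
    refine PTime.map (g := fun (p : X × ℕ) v => (p.2, v)) (hS.comp PTime.fst) ?_
    exact PTime.pair PTime.fst.snd' PTime.snd
  · have h1 : PTime (fun p : X × (ℕ × ℕ) => p.2.1) := PTime.snd.fst'
    have h2 : PTime (fun p : X × (ℕ × ℕ) => p.2.2) := PTime.snd.snd'
    have h3 : PTime (fun p : X × (ℕ × ℕ) => G p.1) := hG.comp PTime.fst
    exact PTime.and (PTime.lt h1 h2) (PTime.or
      (PTime.mem h2 (PTime.listGetD h3 h1 (PTime.const [])))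
      (PTime.mem h1 (PTime.listGetD h3 h2 (PTime.const []))))

theorem PT_litsAll {φ : X → CNF} {i : X → ℕ} (hφ : PTime φ) (hi : PTime i) :
    PTime (fun x => litsAll (φ x) (i x)) := by
  refine PTime.map (g := fun x (p : ℕ × ℕ) => (p.1, (i x).bits.getD p.2 false))
    (PT_zipIdx (PT_vars hφ)) ?_
  exact PTime.pair PTime.snd.fst' (PTime.listGetD (PTime.natBits (hi.comp PTime.fst))
    PTime.snd.snd' (PTime.const false))

theorem PT_brute {φ : X → CNF} {M : X → List β} (hφ : PTime φ) (hM : PTime M) :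
    PTime (fun x => brute (φ x) (M x).length) := by
  refine PTime.any (g := fun x i => (φ x).all fun c => !falsified (litsAll (φ x) i) c)
    (PTime.rangeLength hM) ?_
  refine PTime.all (g := fun (p : X × ℕ) c => !falsified (litsAll (φ p.1) p.2) c)
    (hφ.comp PTime.fst) ?_
  refine PTime.not (PT_falsified ?_ PTime.snd)
  exact PTime.comp (f := fun p : X × ℕ => litsAll (φ p.1) p.2)
    (PT_litsAll (hφ.comp PTime.fst) PTime.snd) PTime.fst

/-- MODULE ALG -/
theorem algo_ptime (clk : (GraphIn × ℕ) × List Bool → D) (h : PTime clk) :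
    PTime (algo clk) := by
  have hpar : PTime (fun q : Par × (CNF × List Bool) => q.1) := PTime.fst
  have hφ : PTime (fun q : Par × (CNF × List Bool) => q.2.1) := PTime.snd.fst'
  have hw : PTime (fun q : Par × (CNF × List Bool) => q.2.2) := PTime.snd.snd'
  have hl : PTime (fun q : Par × (CNF × List Bool) => q.1.1) := hpar.fst'
  have hB : PTime (fun q : Par × (CNF × List Bool) => q.1.2.1) := hpar.snd'.fst'
  have hk : PTime (fun q : Par × (CNF × List Bool) => q.1.2.2.1) := hpar.snd'.snd'.fst'
  have hK : PTime (fun q : Par × (CNF × List Bool) => q.1.2.2.2.1) := hpar.snd'.snd'.snd'.fst'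
  have hg : PTime (fun q : Par × (CNF × List Bool) => q.1.2.2.2.2.1) :=
    hpar.snd'.snd'.snd'.snd'.fst'
  have hM : PTime (fun q : Par × (CNF × List Bool) => q.1.2.2.2.2.2) :=
    hpar.snd'.snd'.snd'.snd'.snd'
  have hG := PT_redG hB hl hK hφ hw
  have hclk : PTime (fun q : Par × (CNF × List Bool) =>
      clk ((redG q.1.2.1 q.1.1.length q.1.2.2.2.1 q.2.1 q.2.2, q.1.2.2.1), q.2.2)) :=
    h.comp (PTime.pair (PTime.pair hG hk) hw)
  exact PTime.iteP (PTime.le (PT_powLen (PTime.const 2) (PT_vars hφ)) (PTime.length hM))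
    (PT_brute hφ hM) (PTime.lt (PTime.mul hg hk) (PT_edgesL hG (PT_outS hG hclk)))

end Pool.Agent.MP2cea29
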