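import Pool.Agent.Lib.MP_2cea29_lc.Red2
import Pool.Agent.Lib.PolyTime.Converse
import Pool.Agent.Lib.MP_2cea29_lc.Alg

/-!
# The choice of the parameters is polynomial time (MP_2cea29_lc, module ALG2)
-/

namespace Pool.Agent.MP2cea29

open Pool.Agent.PolyTime

section

variable {X β : Type} [Enc X] [Enc β]

/-! ### Arithmetic with a given value of `r` -/

/-- `d` in terms of `r`. -/
def ddR (e r : ℕ) : ℕ := 81 * r ^ 4 * e

/-- `C` in terms of `r`. -/
def ccR (e r : ℕ) : ℕ := 72 * r ^ 3 * e

/-- `g` in terms of `r`. -/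
def ggR (e r : ℕ) : ℕ := (6 * ccR e r + 7) * ddR e r

/-- `E` in terms of `r`. -/
def eeR (t r : ℕ) : ℕ := r / (15 * (t + 1))

/-- The condition in terms of `r`. -/
def condR (e t n r k av fv : ℕ) : Bool :=
  decide (1 ≤ eeR t r) && (decide (2 ≤ k) && (decide (2 * av * ggR e r + 1 < k) &&
    decide (bigN r (k * (k + 3)) k (ddR e r) (ccR e r) fv ≤ n)))

/-- The test in terms of `r`. -/
def testR (ga gf : ℕ × List Bool → Option D) (e t : ℕ) (u : List Unit) (r k : ℕ) : Bool :=
  match ga (k, u.map fun _ => true) with
  | none => false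
  | some x =>
    match gf (k, u.map fun _ => true) with
    | none => false
    | some y => condR e t u.length r k (natOfD x) (natOfD y)

/-- `rr` with a truncated exponent. -/
def rrB (n i : ℕ) : ℕ := 2 ^ min (i + 2) (n + 2) - 1

theorem rrB_eq {n i : ℕ} (h : i ≤ n) : rrB n i = rr i := by
  unfold rrB rr
  rw [min_eq_left (by omega)]

theorem PT_powC {f : X → ℕ} (hf : PTime f) (n : ℕ) : PTime (fun x => f x ^ n) := by
  induction n with
  | zero => exact (PTime.const 1).of_eq fun x => (pow_zero _).symm
  | succ n ih => exact (PTime.mul ih hf).of_eq fun x => (pow_succ _ _).symm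

theorem PT_rrB {u : X → List β} {i : X → ℕ} (hu : PTime u) (hi : PTime i) :
    PTime (fun x => rrB (u x).length (i x)) := by
  have h1 : PTime (fun x => List.range (min (i x + 2) ((u x).length + 2))) := by
    refine PTime.rangeLe (PT_min (PTime.add hi (PTime.const 2))
      (PTime.add (PTime.length hu) (PTime.const 2)))
      (g := fun x => () :: () :: (u x).map fun _ => ()) ?_ ?_
    · exact (PTime.const ()).cons ((PTime.const ()).cons
        (PTime.map (g := fun _ _ => ()) hu (PTime.const ())))
    · intro x
      refine (min_le_right _ _).trans (le_of_eq ?_)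
      simp
  refine (PTime.sub (PT_powLen (PTime.const 2) h1) (PTime.const 1)).of_eq fun x => ?_
  rw [List.length_range]
  rfl

theorem PT_ddR {r : X → ℕ} (hr : PTime r) (e : ℕ) : PTime (fun x => ddR e (r x)) :=
  PTime.mul (PTime.mul (PTime.const 81) (PT_powC hr 4)) (PTime.const e)

theorem PT_ccR {r : X → ℕ} (hr : PTime r) (e : ℕ) : PTime (fun x => ccR e (r x)) :=
  PTime.mul (PTime.mul (PTime.const 72) (PT_powC hr 3)) (PTime.const e)

theorem PT_ggR {r : X → ℕ} (hr : PTime r) (e : ℕ) : PTime (fun x => ggR e (r x)) :=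
  PTime.mul (PTime.add (PTime.mul (PTime.const 6) (PT_ccR hr e)) (PTime.const 7)) (PT_ddR hr e)

theorem PT_eeR {r : X → ℕ} (hr : PTime r) (t : ℕ) : PTime (fun x => eeR t (r x)) :=
  PTime.div hr (PTime.const (15 * (t + 1)))

theorem PT_bigN {r K k d C F : X → ℕ} (hr : PTime r) (hK : PTime K) (hk : PTime k) (hd : PTime d)
    (hC : PTime C) (hF : PTime F) :
    PTime (fun x => bigN (r x) (K x) (k x) (d x) (C x) (F x)) := by
  have c1 : PTime (fun _ : X => 1) := PTime.const 1
  refine PTime.mul hr (PTime.add (PTime.add (PTime.add (PTime.add (PTime.add (PTime.add hF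
    (PTime.mul (PTime.const 3) hK)) (PTime.mul (PTime.const 2) hr))
    (PTime.mul (PTime.add hK c1) (PTime.add hd c1)))
    (PTime.mul (PTime.add (PTime.add hK hk) c1) (PTime.add hC c1))) hk) (PTime.const 20))

theorem PT_condR {n r k av fv : X → ℕ} (hn : PTime n) (hr : PTime r) (hk : PTime k)
    (hav : PTime av) (hfv : PTime fv) (e t : ℕ) :
    PTime (fun x => condR e t (n x) (r x) (k x) (av x) (fv x)) := by
  refine PTime.and (PTime.le (PTime.const 1) (PT_eeR hr t)) (PTime.and
    (PTime.le (PTime.const 2) hk) (PTime.and (PTime.lt (PTime.add (PTime.mul (PTime.mul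
      (PTime.const 2) hav) (PT_ggR hr e)) (PTime.const 1)) hk) (PTime.le ?_ hn)))
  exact PT_bigN hr (PTime.mul hk (PTime.add hk (PTime.const 3))) hk (PT_ddR hr e) (PT_ccR hr e) hfv

theorem PT_natOfD {d : X → D} (hd : PTime d) : PTime (fun x => natOfD (d x)) := by
  refine PTime.natOfBits (PTime.map (g := fun _ (y : D) => decide (y ≠ D.nil)) (PT_toListD hd) ?_)
  exact PTime.notP (PTime.eq PTime.snd (PTime.const D.nil))

/-! ### The test -/

theorem PT_testR (ga gf : ℕ × List Bool → Option D) (hga : PTime ga) (hgf : PTime gf)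
    (e t : ℕ) {u : X → List Unit} {r k : X → ℕ} (hu : PTime u) (hr : PTime r) (hk : PTime k) :
    PTime (fun x => testR ga gf e t (u x) (r x) (k x)) := by
  have harg : PTime (fun x => (k x, (u x).map fun _ => true)) :=
    PTime.pair hk (PTime.map (g := fun _ _ => true) hu (PTime.const true))
  have h2 : PTime (fun p : X × D => match gf (k p.1, (u p.1).map fun _ => true) with
      | none => false
      | some y => condR e t (u p.1).length (r p.1) (k p.1) (natOfD p.2) (natOfD y)) := by
    refine (PTime.option_cases (f := fun p : X × D => gf (k p.1, (u p.1).map fun _ => true))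
      (g := fun _ => false) (h := fun q : (X × D) × D =>
        condR e t (u q.1.1).length (r q.1.1) (k q.1.1) (natOfD q.1.2) (natOfD q.2))
      (hgf.comp (harg.comp PTime.fst)) (PTime.const false) ?_).of_eq fun p => ?_
    · have hf : PTime (fun q : (X × D) × D => q.1.1) := PTime.fst.fst'
      exact PT_condR (PTime.length (hu.comp hf)) (hr.comp hf) (hk.comp hf)
        (PT_natOfD PTime.fst.snd') (PT_natOfD PTime.snd) e t
    · dsimp only
      cases gf (k p.1, (u p.1).map fun _ => true) <;> rfl
  refine (PTime.option_cases (f := fun x => ga (k x, (u x).map fun _ => true))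
    (g := fun _ => false) (hga.comp harg) (PTime.const false) h2).of_eq fun x => ?_
  unfold testR
  cases ga (k x, (u x).map fun _ => true) <;> rfl

/-- The list of pairs that are searched. -/
def candListA (u : List Unit) : List (ℕ × ℕ) :=
  (List.range u.length).reverse.flatMap fun i => (List.range u.length).map fun k => (i, k)

theorem mem_candListA {u : List Unit} {q : ℕ × ℕ} (h : q ∈ candListA u) : q.1 < u.length := by
  unfold candListA at h
  obtain ⟨i, hi, h⟩ := List.mem_flatMap.1 h
  obtain ⟨k, _, rfl⟩ := List.mem_map.1 h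
  rw [List.mem_reverse, List.mem_range] at hi
  exact hi

theorem find?_congr_memA {α : Type} {p p' : α → Bool} : ∀ {l : List α},
    (∀ a ∈ l, p a = p' a) → l.find? p = l.find? p'
  | [], _ => rfl
  | a :: l, h => by
    rw [List.find?_cons, List.find?_cons, h a List.mem_cons_self,
      find?_congr_memA fun b hb => h b (List.mem_cons_of_mem a hb)]

theorem PT_candListA {u : X → List Unit} (hu : PTime u) : PTime (fun x => candListA (u x)) := by
  refine PTime.flatMap (g := fun x i => (List.range (u x).length).map fun k => (i, k))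
    (PTime.reverse (PTime.rangeLength hu)) ?_
  refine PTime.map (g := fun (p : X × ℕ) k => (p.2, k)) ((PTime.rangeLength hu).comp PTime.fst) ?_
  exact PTime.pair PTime.fst.snd' PTime.snd

theorem PT_cand (ga gf : ℕ × List Bool → Option D) (hga : PTime ga) (hgf : PTime gf)
    (e t : ℕ) {u : X → List Unit} (hu : PTime u) : PTime (fun x => cand ga gf e t (u x)) := by
  refine (PTime.find? (g := fun x (q : ℕ × ℕ) =>
    testR ga gf e t (u x) (rrB (u x).length q.1) q.2) (PT_candListA hu) ?_).of_eq fun x => ?_
  · exact PT_testR ga gf hga hgf e t (hu.comp PTime.fst)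
      (PT_rrB (hu.comp PTime.fst) PTime.snd.fst') PTime.snd.snd'
  · refine find?_congr_memA fun q hq => ?_
    rw [rrB_eq (mem_candListA hq).le]
    rfl

theorem cand_ltA {ga gf : ℕ × List Bool → Option D} {e t : ℕ} {u : List Unit} {q : ℕ × ℕ}
    (h : cand ga gf e t u = some q) : q.1 < u.length :=
  mem_candListA (List.mem_of_find?_eq_some h)

end

/-- MODULE ALG2 -/
theorem sList_ptime (ga gf : ℕ × List Bool → Option D) (hga : PTime ga) (hgf : PTime gf)
    (e t : ℕ) : PTime (sList ga gf e t) := by
  refine (PTime.option_cases (f := fun u : List Unit => cand ga gf e t u) (g := fun _ => [])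
    (h := fun p : List Unit × (ℕ × ℕ) =>
      (List.range (min (p.1.length / eeR t (rrB p.1.length p.2.1)) p.1.length)).map fun _ => ())
    (PT_cand ga gf hga hgf e t PTime.id) (PTime.const []) ?_).of_eq fun u => ?_
  · refine PTime.map (g := fun _ _ => ()) ?_ (PTime.const ())
    have hu : PTime (fun p : List Unit × (ℕ × ℕ) => p.1) := PTime.fst
    refine PTime.rangeLe (PT_min (PTime.div (PTime.length hu)
      (PT_eeR (PT_rrB hu PTime.snd.fst') t)) (PTime.length hu)) hu fun p => min_le_right _ _
  · unfold sList
    cases h : cand ga gf e t u with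
    | none => rfl
    | some q =>
      dsimp only
      rw [rrB_eq (cand_ltA h).le]
      rfl

theorem parOf_ptime (ga gf : ℕ × List Bool → Option D) (hga : PTime ga) (hgf : PTime gf)
    (e t : ℕ) (pad : List Unit) : PTime (parOf ga gf e t pad) := by
  have hφ : PTime (fun φ : CNF => φ) := PTime.id
  have hu : PTime (fun φ : CNF => (vars φ).map fun _ => ()) :=
    PTime.map (g := fun _ _ => ()) (PT_vars hφ) (PTime.const ())
  refine (PTime.option_cases (f := fun φ : CNF => cand ga gf e t ((vars φ).map fun _ => ()))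
    (g := fun _ => (([], 0, 0, 0, 0, pad) : Par))
    (h := fun p : CNF × (ℕ × ℕ) =>
      (((List.range (min (p.2.1 + 2) ((vars p.1).length + 2))).map (fun _ => ()),
      3 * rrB ((vars p.1).map fun _ => ()).length p.2.1, p.2.2, p.2.2 * (p.2.2 + 3),
      ggR e (rrB ((vars p.1).map fun _ => ()).length p.2.1), []) : Par))
    (PT_cand ga gf hga hgf e t hu) (PTime.const _) ?_).of_eq fun φ => ?_
  · have hv : PTime (fun p : CNF × (ℕ × ℕ) => (vars p.1).map fun _ => ()) := hu.comp PTime.fst
    have hi : PTime (fun p : CNF × (ℕ × ℕ) => p.2.1) := PTime.snd.fst'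
    have hk : PTime (fun p : CNF × (ℕ × ℕ) => p.2.2) := PTime.snd.snd'
    have hr := PT_rrB hv hi
    refine PTime.pair ?_ (PTime.pair (PTime.mul (PTime.const 3) hr) (PTime.pair hk (PTime.pair
      (PTime.mul hk (PTime.add hk (PTime.const 3))) (PTime.pair (PT_ggR hr e)
        (PTime.const [])))))
    refine PTime.map (g := fun _ _ => ()) ?_ (PTime.const ())
    refine PTime.rangeLe (g := fun p : CNF × (ℕ × ℕ) => () :: () :: ((vars p.1).map fun _ => ()))
      (PT_min (PTime.add hi (PTime.const 2)) (PTime.add (PTime.length (PT_vars PTime.fst))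
        (PTime.const 2))) ((PTime.const ()).cons ((PTime.const ()).cons hv)) fun p => ?_
    refine (min_le_right _ _).trans (le_of_eq ?_)
    simp
  · unfold parOf
    cases h : cand ga gf e t ((vars φ).map fun _ => ()) with
    | none => rfl
    | some q =>
      dsimp only
      rw [rrB_eq (cand_ltA h).le]
      rfl

end Pool.Agent.MP2cea29
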