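import Pool.Agent.Lib.MP_2cea29_lc.Red

/-!
# MP_2cea29_lc, module ASYM1: sizes for large `n`
-/

namespace Pool.Agent.MP2cea29

open Pool.Agent.PolyTime Finset Classical

theorem asym1_floor (n E : ℕ) (hE : 0 < E) :
    (2 : ℝ) ^ ((n : ℝ) / E) ≤ 2 * 2 ^ (n / E) := by
  have h1 : (n : ℝ) / E ≤ ((n / E : ℕ) : ℝ) + 1 := by
    rw [div_le_iff₀ (by exact_mod_cast hE)]
    have h2 : n ≤ (n / E + 1) * E := by
      have h3 := Nat.div_add_mod n E
      have h4 := Nat.mod_lt n hE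
      nlinarith
    exact_mod_cast h2
  calc (2 : ℝ) ^ ((n : ℝ) / E) ≤ 2 ^ (((n / E : ℕ) : ℝ) + 1) :=
        Real.rpow_le_rpow_of_exponent_le one_le_two h1
    _ = 2 * 2 ^ (n / E) := by
        rw [Real.rpow_add_one two_ne_zero, Real.rpow_natCast, mul_comm]

theorem asym1_large (E : ℕ) (hE : 0 < E) (C : ℝ) : ∃ n0 : ℕ, ∀ n ≥ n0,
    C * n * (2 : ℝ) ^ ((3 / 5 : ℝ) * ((n : ℝ) / E)) ≤ 2 ^ (n / E) := by
  have hE' : (0 : ℝ) < E := by exact_mod_cast hE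
  set c : ℝ := (2 : ℝ) ^ (-(2 / (5 * (E : ℝ)))) with hc
  have hc0 : 0 < c := by positivity
  have hc1 : c < 1 := Real.rpow_lt_one_of_one_lt_of_neg one_lt_two (by
    rw [neg_lt_zero]; positivity)
  have h1 := (tendsto_self_mul_const_pow_of_lt_one hc0.le hc1).const_mul C
  rw [mul_zero] at h1
  have h2 := h1.eventually (gt_mem_nhds (show (0 : ℝ) < 1 / 2 by norm_num))
  rw [Filter.eventually_atTop] at h2
  obtain ⟨n0, hn0⟩ := h2
  refine ⟨n0, fun n hn => ?_⟩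
  have h3 := hn0 n hn
  have h4 : (2 : ℝ) ^ ((3 / 5 : ℝ) * ((n : ℝ) / E)) = c ^ n * 2 ^ ((n : ℝ) / E) := by
    rw [hc, ← Real.rpow_natCast, ← Real.rpow_mul two_pos.le, ← Real.rpow_add two_pos]
    congr 1
    field_simp
    ring
  have h5 := asym1_floor n E hE
  have h6 : (0 : ℝ) < 2 ^ ((n : ℝ) / E) := by positivity
  rw [h4]
  calc C * n * (c ^ n * 2 ^ ((n : ℝ) / E)) = (C * (n * c ^ n)) * 2 ^ ((n : ℝ) / E) := by ring
    _ ≤ 1 / 2 * 2 ^ ((n : ℝ) / E) := mul_le_mul_of_nonneg_right h3.le h6.le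
    _ ≤ 2 ^ (n / E) := by linarith

theorem asym1_nSamp (K l nL : ℕ) (hl : 2 ≤ l) (y : ℝ) (hy : (nL : ℝ) / ((2 : ℝ) ^ l - 1) ≤ y) :
    (nSamp K l nL : ℝ) ≤ 2 * K * 4 ^ y := by
  have hr : (0 : ℝ) < (2 : ℝ) ^ l - 1 := by
    have : (2 : ℝ) ^ 2 ≤ 2 ^ l := pow_le_pow_right₀ one_le_two hl
    linarith
  have hy0 : 0 ≤ y := le_trans (by positivity) hy
  have h1 : (((2 ^ l) ^ nL / (2 ^ l - 1) ^ nL : ℕ) : ℝ) ≤ 4 ^ y := by
    have h2 : (((2 ^ l - 1 : ℕ)) : ℝ) = (2 : ℝ) ^ l - 1 := by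
      rw [Nat.cast_sub Nat.one_le_two_pow]
      push_cast
      rfl
    calc (((2 ^ l) ^ nL / (2 ^ l - 1) ^ nL : ℕ) : ℝ)
        ≤ (((2 ^ l) ^ nL : ℕ) : ℝ) / (((2 ^ l - 1) ^ nL : ℕ) : ℝ) := Nat.cast_div_le
      _ = (1 + 1 / ((2 : ℝ) ^ l - 1)) ^ nL := by
          rw [Nat.cast_pow ((2 ^ l : ℕ)), Nat.cast_pow ((2 ^ l - 1 : ℕ)), h2, ← div_pow,
            Nat.cast_pow]
          congr 1
          push_cast
          field_simp
          ring
      _ ≤ (Real.exp (1 / ((2 : ℝ) ^ l - 1))) ^ nL := by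
          apply pow_le_pow_left₀ (by positivity)
          have := Real.add_one_le_exp (1 / ((2 : ℝ) ^ l - 1))
          linarith
      _ = Real.exp ((nL : ℝ) / ((2 : ℝ) ^ l - 1)) := by
          rw [← Real.exp_nat_mul]
          congr 1
          ring
      _ ≤ Real.exp y := Real.exp_le_exp.2 hy
      _ = Real.exp 1 ^ y := (Real.exp_one_rpow y).symm
      _ ≤ 4 ^ y := Real.rpow_le_rpow (Real.exp_pos 1).le
          (by have := Real.exp_one_lt_d9; linarith) hy0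
  have h3 : (1 : ℝ) ≤ 4 ^ y := Real.one_le_rpow (by norm_num) hy0
  rw [nSamp]
  have h4 : ((K : ℝ)) * ((((2 ^ l) ^ nL / (2 ^ l - 1) ^ nL : ℕ) : ℝ) + 1) ≤ K * (4 ^ y + 4 ^ y) :=
    mul_le_mul_of_nonneg_left (by linarith) (Nat.cast_nonneg K)
  push_cast at h4 ⊢
  linarith

theorem asym1 (l E K F t : ℕ) (hl : 2 ≤ l) (hE : 0 < E) (h : 15 * (t + 1) * E ≤ 2 ^ l - 1) :
    ∃ n0, ∀ n ≥ n0, ∀ nL nH : ℕ, nL + nH = n → nH * (2 ^ l - 1) ≤ n →
      nSamp K l nL * nL * l ≤ 2 ^ (n / E) ∧ 2 ^ nH * nSamp K l nL ≤ 2 ^ (n / E) ∧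
      F * (8 * (2 ^ nH * nSamp K l nL + 1) ^ 3 + 1) ^ t ≤ 2 ^ (n / E) := by
  have hE' : (0 : ℝ) < E := by exact_mod_cast hE
  set C : ℝ := 2 * K * l + 2 * K + F * (8 * (2 * K + 1) ^ 3 + 1) ^ t with hC
  have hC0 : 0 ≤ C := by positivity
  obtain ⟨n0, hn0⟩ := asym1_large E hE C
  refine ⟨max n0 1, fun n hn nL nH hsum hnH => ?_⟩
  have hn1 : n0 ≤ n := le_trans (le_max_left _ _) hn
  have hn2 : 1 ≤ n := le_trans (le_max_right _ _) hn
  have hn2' : (1 : ℝ) ≤ n := by exact_mod_cast hn2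
  have hmain := hn0 n hn1
  have hT : (0 : ℝ) < 15 * ((t : ℝ) + 1) * E := by positivity
  set y : ℝ := (n : ℝ) / (15 * ((t : ℝ) + 1) * E) with hy
  have hy0 : 0 ≤ y := by positivity
  have hr' : 15 * ((t : ℝ) + 1) * E ≤ (2 : ℝ) ^ l - 1 := by
    have h1 : (((15 * (t + 1) * E : ℕ)) : ℝ) ≤ ((2 ^ l - 1 : ℕ) : ℝ) := by exact_mod_cast h
    rw [Nat.cast_sub Nat.one_le_two_pow] at h1
    push_cast at h1
    exact h1
  have hyH : (nH : ℝ) ≤ y := by
    rw [hy, le_div_iff₀ hT]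
    have h1 : nH * (15 * (t + 1) * E) ≤ n := (Nat.mul_le_mul_left _ h).trans hnH
    exact_mod_cast h1
  have hyL : (nL : ℝ) / ((2 : ℝ) ^ l - 1) ≤ y := by
    rw [hy]
    have h1 : (nL : ℝ) ≤ n := by exact_mod_cast (by omega : nL ≤ n)
    exact div_le_div₀ (Nat.cast_nonneg _) h1 hT hr'
  have hS := asym1_nSamp K l nL hl y hyL
  have hS0 : (0 : ℝ) ≤ (nSamp K l nL : ℝ) := Nat.cast_nonneg _
  -- powers
  have h8 : (2 : ℝ) ^ nH * 4 ^ y ≤ 8 ^ y := by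
    have h1 : (2 : ℝ) ^ nH ≤ 2 ^ y := by
      rw [← Real.rpow_natCast]
      exact Real.rpow_le_rpow_of_exponent_le one_le_two hyH
    calc (2 : ℝ) ^ nH * 4 ^ y ≤ 2 ^ y * 4 ^ y :=
          mul_le_mul_of_nonneg_right h1 (by positivity)
      _ = 8 ^ y := by
          rw [← Real.mul_rpow (by norm_num) (by norm_num)]
          norm_num
  have h81 : (1 : ℝ) ≤ 8 ^ y := Real.one_le_rpow (by norm_num) hy0
  have h48 : (4 : ℝ) ^ y ≤ 8 ^ y := Real.rpow_le_rpow (by norm_num) (by norm_num) hy0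
  have h8y : (8 : ℝ) ^ y ≤ 2 ^ ((3 / 5 : ℝ) * ((n : ℝ) / E)) := by
    have h1 : (8 : ℝ) ^ y = 2 ^ (3 * y) := by
      rw [Real.rpow_mul two_pos.le]
      norm_num
    rw [h1]
    apply Real.rpow_le_rpow_of_exponent_le one_le_two
    rw [hy]
    have h2 : (n : ℝ) / (15 * ((t : ℝ) + 1) * E) ≤ (n : ℝ) / (15 * E) := by
      apply div_le_div_of_nonneg_left (Nat.cast_nonneg _) (by positivity)
      have : (0 : ℝ) ≤ t := Nat.cast_nonneg _
      nlinarith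
    have h3 : (n : ℝ) / (15 * E) = (1 / 15) * (n / E) := by
      field_simp
    have h4 : (0 : ℝ) ≤ (n : ℝ) / E := by positivity
    linarith
  have h8t : ((8 : ℝ) ^ y) ^ (3 * t) ≤ 2 ^ ((3 / 5 : ℝ) * ((n : ℝ) / E)) := by
    have h1 : ((8 : ℝ) ^ y) ^ (3 * t) = 2 ^ (9 * t * y) := by
      have : (8 : ℝ) ^ y = 2 ^ (3 * y) := by
        rw [Real.rpow_mul two_pos.le]
        norm_num
      rw [this, ← Real.rpow_natCast, ← Real.rpow_mul two_pos.le]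
      congr 1
      push_cast
      ring
    rw [h1]
    apply Real.rpow_le_rpow_of_exponent_le one_le_two
    rw [hy]
    have h2 : 9 * (t : ℝ) * ((n : ℝ) / (15 * ((t : ℝ) + 1) * E)) =
        ((t : ℝ) / (t + 1)) * ((3 / 5) * (n / E)) := by
      field_simp
      ring
    rw [h2]
    have h3 : (t : ℝ) / (t + 1) ≤ 1 := by
      rw [div_le_one (by positivity)]
      linarith
    exact mul_le_of_le_one_left (by positivity) h3
  set G : ℝ := (2 : ℝ) ^ ((3 / 5 : ℝ) * ((n : ℝ) / E)) with hG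
  have hG1 : 1 ≤ G := h81.trans h8y
  have hA : (2 : ℝ) ^ nH * nSamp K l nL ≤ 2 * K * 8 ^ y := by
    calc (2 : ℝ) ^ nH * nSamp K l nL ≤ 2 ^ nH * (2 * K * 4 ^ y) :=
          mul_le_mul_of_nonneg_left hS (by positivity)
      _ = 2 * K * (2 ^ nH * 4 ^ y) := by ring
      _ ≤ 2 * K * 8 ^ y := mul_le_mul_of_nonneg_left h8 (by positivity)
  have hfin : ∀ c : ℝ, 0 ≤ c → c ≤ C → c * n * G ≤ 2 ^ (n / E) := fun c hc0 hcC =>
    (mul_le_mul_of_nonneg_right (mul_le_mul_of_nonneg_right hcC (by positivity))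
      (by positivity)).trans hmain
  have hK : (0 : ℝ) ≤ K := Nat.cast_nonneg _
  have hl0 : (0 : ℝ) ≤ l := Nat.cast_nonneg _
  have hF0 : (0 : ℝ) ≤ F * (8 * (2 * K + 1) ^ 3 + 1) ^ t := by positivity
  refine ⟨?_, ?_, ?_⟩
  · have h1 : ((nSamp K l nL * nL * l : ℕ) : ℝ) ≤ ((2 ^ (n / E) : ℕ) : ℝ) := by
      push_cast
      have h2 : (nL : ℝ) ≤ n := by exact_mod_cast (by omega : nL ≤ n)
      calc (nSamp K l nL : ℝ) * nL * l ≤ (2 * K * G) * n * l := by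
            apply mul_le_mul_of_nonneg_right _ hl0
            apply mul_le_mul _ h2 (Nat.cast_nonneg _) (by positivity)
            exact hS.trans (mul_le_mul_of_nonneg_left (h48.trans h8y) (by positivity))
        _ = (2 * K * l) * n * G := by ring
        _ ≤ 2 ^ (n / E) := hfin _ (by positivity) (by
            rw [hC]
            nlinarith)
    exact_mod_cast h1
  · have h1 : ((2 ^ nH * nSamp K l nL : ℕ) : ℝ) ≤ ((2 ^ (n / E) : ℕ) : ℝ) := by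
      push_cast
      calc (2 : ℝ) ^ nH * nSamp K l nL ≤ 2 * K * 8 ^ y := hA
        _ ≤ 2 * K * G := mul_le_mul_of_nonneg_left h8y (by positivity)
        _ ≤ (2 * K) * n * G := by
            apply mul_le_mul_of_nonneg_right _ (by positivity)
            exact le_mul_of_one_le_right (by positivity) hn2'
        _ ≤ 2 ^ (n / E) := hfin _ (by positivity) (by
            rw [hC]
            have : (0 : ℝ) ≤ 2 * K * l := by positivity
            linarith)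
    exact_mod_cast h1
  · have h1 : ((F * (8 * (2 ^ nH * nSamp K l nL + 1) ^ 3 + 1) ^ t : ℕ) : ℝ) ≤
        ((2 ^ (n / E) : ℕ) : ℝ) := by
      push_cast
      have h2 : (2 : ℝ) ^ nH * nSamp K l nL + 1 ≤ (2 * K + 1) * 8 ^ y := by linarith
      have h3 : 8 * ((2 : ℝ) ^ nH * nSamp K l nL + 1) ^ 3 + 1 ≤
          (8 * (2 * K + 1) ^ 3 + 1) * (8 ^ y) ^ 3 := by
        have h4 : ((2 : ℝ) ^ nH * nSamp K l nL + 1) ^ 3 ≤ ((2 * K + 1) * 8 ^ y) ^ 3 :=
          pow_le_pow_left₀ (by positivity) h2 3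
        have h5 : (1 : ℝ) ≤ (8 ^ y) ^ 3 := one_le_pow₀ h81
        rw [mul_pow] at h4
        linarith
      have h4 : (8 * ((2 : ℝ) ^ nH * nSamp K l nL + 1) ^ 3 + 1) ^ t ≤
          (8 * (2 * K + 1) ^ 3 + 1) ^ t * G := by
        calc (8 * ((2 : ℝ) ^ nH * nSamp K l nL + 1) ^ 3 + 1) ^ t
            ≤ ((8 * (2 * K + 1) ^ 3 + 1) * (8 ^ y) ^ 3) ^ t :=
              pow_le_pow_left₀ (by positivity) h3 t
          _ = (8 * (2 * K + 1) ^ 3 + 1) ^ t * (8 ^ y) ^ (3 * t) := by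
              rw [mul_pow, ← pow_mul]
          _ ≤ (8 * (2 * K + 1) ^ 3 + 1) ^ t * G :=
              mul_le_mul_of_nonneg_left h8t (by positivity)
      calc (F : ℝ) * (8 * ((2 : ℝ) ^ nH * nSamp K l nL + 1) ^ 3 + 1) ^ t
          ≤ F * ((8 * (2 * K + 1) ^ 3 + 1) ^ t * G) :=
            mul_le_mul_of_nonneg_left h4 (Nat.cast_nonneg _)
        _ = (F * (8 * (2 * K + 1) ^ 3 + 1) ^ t) * G := by ring
        _ ≤ (F * (8 * (2 * K + 1) ^ 3 + 1) ^ t) * n * G := by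
            apply mul_le_mul_of_nonneg_right _ (by positivity)
            exact le_mul_of_one_le_right hF0 hn2'
        _ ≤ 2 ^ (n / E) := hfin _ hF0 (by
            rw [hC]
            have : (0 : ℝ) ≤ 2 * K * l := by positivity
            linarith)
    exact_mod_cast h1

end Pool.Agent.MP2cea29
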