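import Pool.Agent.Lib.MP_2cea29_lc.Red2

/-!
# MP_2cea29_lc, module ASYM1X: explicit sizes
-/

namespace Pool.Agent.MP2cea29

open Pool.Agent.PolyTime

theorem asym1x_pow (r m x : ℕ) (hr : 0 < r) (hm : m ≤ r * (x + 1)) :
    (r + 1) ^ m / r ^ m ≤ 4 ^ (x + 1) := by
  have hr' : (0 : ℝ) < r := by exact_mod_cast hr
  apply Nat.div_le_of_le_mul
  have h1 : ((r : ℝ) + 1) ^ m ≤ (r : ℝ) ^ m * 4 ^ (x + 1) := by
    have h2 : (r : ℝ) + 1 ≤ r * Real.exp (1 / r) := by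
      have h3 := Real.add_one_le_exp (1 / (r : ℝ))
      calc (r : ℝ) + 1 = r * (1 / r + 1) := by field_simp; ring
        _ ≤ r * Real.exp (1 / r) := mul_le_mul_of_nonneg_left h3 hr'.le
    calc ((r : ℝ) + 1) ^ m ≤ (r * Real.exp (1 / r)) ^ m :=
          pow_le_pow_left₀ (by positivity) h2 m
      _ = (r : ℝ) ^ m * Real.exp (m * (1 / r)) := by rw [mul_pow, ← Real.exp_nat_mul]
      _ ≤ (r : ℝ) ^ m * Real.exp ((x + 1 : ℕ) * 1) := by
          apply mul_le_mul_of_nonneg_left _ (by positivity)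
          apply Real.exp_le_exp.2
          rw [mul_one, mul_one_div, div_le_iff₀ hr']
          have : (m : ℝ) ≤ ((r * (x + 1) : ℕ) : ℝ) := by exact_mod_cast hm
          push_cast at this ⊢
          linarith
      _ = (r : ℝ) ^ m * (Real.exp 1) ^ (x + 1) := by rw [Real.exp_nat_mul]
      _ ≤ (r : ℝ) ^ m * 4 ^ (x + 1) := by
          apply mul_le_mul_of_nonneg_left _ (by positivity)
          apply pow_le_pow_left₀ (Real.exp_pos 1).le
          have := Real.exp_one_lt_d9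
          linarith
  exact_mod_cast h1

theorem asym1x_nSamp (K l nL x : ℕ) (hl : 2 ≤ l) (hm : nL ≤ (2 ^ l - 1) * (x + 1)) :
    nSamp K l nL ≤ 2 ^ (2 * x + K + 3) := by
  have h4 : 4 ≤ 2 ^ l := by
    calc 4 = 2 ^ 2 := by norm_num
      _ ≤ 2 ^ l := Nat.pow_le_pow_right (by norm_num) hl
  have h1 := asym1x_pow (2 ^ l - 1) nL x (by omega) hm
  have h2 : 2 ^ l - 1 + 1 = 2 ^ l := by omega
  rw [h2] at h1
  have h3 : K ≤ 2 ^ K := Nat.lt_two_pow_self.le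
  have h5 : (4 : ℕ) ^ (x + 1) = 2 ^ (2 * x + 2) := by
    rw [show (4 : ℕ) = 2 ^ 2 by norm_num, ← pow_mul]
    congr 1
  have h6 : 1 ≤ 2 ^ (2 * x + 2) := Nat.one_le_two_pow
  calc nSamp K l nL ≤ 2 ^ K * (2 ^ (2 * x + 2) + 2 ^ (2 * x + 2)) := by
        unfold nSamp
        exact Nat.mul_le_mul h3 (by omega)
    _ = 2 ^ (2 * x + K + 3) := by ring

/-- MODULE ASYM1X -/
theorem asym1x (l E K k d C F t n nL nH : ℕ) (hl : 2 ≤ l) (hE : 0 < E)
    (h : 15 * (t + 1) * E ≤ 2 ^ l - 1) (hn : bigN (2 ^ l - 1) K k d C F ≤ n)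
    (hs : nL + nH = n) (hh : nH * (2 ^ l - 1) ≤ n) :
    nSamp K l nL * nL * l ≤ 2 ^ (n / E) ∧ 2 ^ nH * nSamp K l nL ≤ 2 ^ (n / E) ∧
      F * (8 * (2 ^ nH * nSamp K l nL + 1) ^ 3 + 1) ^ t ≤ 2 ^ (n / E) := by
  have h4 : 4 ≤ 2 ^ l := by
    calc 4 = 2 ^ 2 := by norm_num
      _ ≤ 2 ^ l := Nat.pow_le_pow_right (by norm_num) hl
  have hlr : l ≤ 2 ^ l - 1 := by
    have : l < 2 ^ l := Nat.lt_two_pow_self
    omega
  set r : ℕ := 2 ^ l - 1 with hr
  have hr3 : 3 ≤ r := by omega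
  have hr0 : 0 < r := by omega
  set x : ℕ := n / r with hx
  have hxM : F + 3 * K + 2 * r + (K + 1) * (d + 1) + (K + k + 1) * (C + 1) + k + 20 ≤ x := by
    rw [hx, Nat.le_div_iff_mul_le hr0, mul_comm]
    exact hn
  have hrx : r * x ≤ n := Nat.mul_div_le n r
  have hnx : n < r * (x + 1) := by
    have := Nat.lt_mul_div_succ n hr0
    exact this
  have hnHx : nH ≤ x := by
    rw [hx, Nat.le_div_iff_mul_le hr0]
    exact hh
  have hS : nSamp K l nL ≤ 2 ^ (2 * x + K + 3) := asym1x_nSamp K l nL x hl (by rw [← hr]; omega)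
  have hxd : 15 * (t + 1) * x ≤ n / E := by
    rw [Nat.le_div_iff_mul_le hE]
    calc 15 * (t + 1) * x * E = (15 * (t + 1) * E) * x := by ring
      _ ≤ r * x := Nat.mul_le_mul_right _ h
      _ ≤ n := hrx
  have hF : F ≤ x := by omega
  have hK : 3 * K + 16 ≤ x := by omega
  have h4x : 4 * x ≤ n / E := le_trans (by nlinarith) hxd
  have hpow : 2 ^ (4 * x) ≤ 2 ^ (n / E) := Nat.pow_le_pow_right (by norm_num) h4x
  have hA : 2 ^ nH * nSamp K l nL ≤ 2 ^ (3 * x + K + 3) := by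
    calc 2 ^ nH * nSamp K l nL ≤ 2 ^ x * 2 ^ (2 * x + K + 3) :=
          Nat.mul_le_mul (Nat.pow_le_pow_right (by norm_num) hnHx) hS
      _ = 2 ^ (3 * x + K + 3) := by rw [← pow_add]; congr 1; ring
  refine ⟨?_, ?_, ?_⟩
  · refine le_trans ?_ hpow
    have h1 : nL * l ≤ 2 ^ (2 * r + x) := by
      have h2 : nL * l ≤ (r * (x + 1)) * r := Nat.mul_le_mul (by omega) hlr
      have h3 : r ≤ 2 ^ r := Nat.lt_two_pow_self.le
      have h5 : x + 1 ≤ 2 ^ x := Nat.lt_two_pow_self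
      calc nL * l ≤ (r * (x + 1)) * r := h2
        _ ≤ (2 ^ r * 2 ^ x) * 2 ^ r := Nat.mul_le_mul (Nat.mul_le_mul h3 h5) h3
        _ = 2 ^ (2 * r + x) := by rw [← pow_add, ← pow_add]; congr 1; ring
    calc nSamp K l nL * nL * l = nSamp K l nL * (nL * l) := by ring
      _ ≤ 2 ^ (2 * x + K + 3) * 2 ^ (2 * r + x) := Nat.mul_le_mul hS h1
      _ = 2 ^ (3 * x + K + 3 + 2 * r) := by rw [← pow_add]; congr 1; ring
      _ ≤ 2 ^ (4 * x) := Nat.pow_le_pow_right (by norm_num) (by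
          have : K + 3 + 2 * r ≤ x := by
            have : 0 ≤ (K + 1) * (d + 1) + (K + k + 1) * (C + 1) := Nat.zero_le _
            omega
          omega)
  · refine le_trans hA (le_trans ?_ hpow)
    exact Nat.pow_le_pow_right (by norm_num) (by omega)
  · have h1 : 1 ≤ 2 ^ (3 * x + K + 3) := Nat.one_le_two_pow
    have h2 : 2 ^ nH * nSamp K l nL + 1 ≤ 2 ^ (3 * x + K + 4) := by
      have : 2 ^ (3 * x + K + 4) = 2 ^ (3 * x + K + 3) + 2 ^ (3 * x + K + 3) := by ring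
      omega
    have h3 : 8 * (2 ^ nH * nSamp K l nL + 1) ^ 3 + 1 ≤ 2 ^ (9 * x + 3 * K + 16) := by
      have h5 : (2 ^ nH * nSamp K l nL + 1) ^ 3 ≤ (2 ^ (3 * x + K + 4)) ^ 3 :=
        Nat.pow_le_pow_left h2 3
      have h6 : 8 * (2 ^ (3 * x + K + 4)) ^ 3 = 2 ^ (9 * x + 3 * K + 15) := by
        rw [show (8 : ℕ) = 2 ^ 3 by norm_num, ← pow_mul, ← pow_add]
        congr 1
        ring
      have h7 : 1 ≤ 2 ^ (9 * x + 3 * K + 15) := Nat.one_le_two_pow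
      have h8 : 2 ^ (9 * x + 3 * K + 16) = 2 ^ (9 * x + 3 * K + 15) + 2 ^ (9 * x + 3 * K + 15) := by
        ring
      omega
    calc F * (8 * (2 ^ nH * nSamp K l nL + 1) ^ 3 + 1) ^ t
        ≤ 2 ^ F * (2 ^ (9 * x + 3 * K + 16)) ^ t :=
          Nat.mul_le_mul Nat.lt_two_pow_self.le (Nat.pow_le_pow_left h3 t)
      _ = 2 ^ (F + (9 * x + 3 * K + 16) * t) := by rw [← pow_mul, ← pow_add]
      _ ≤ 2 ^ (15 * (t + 1) * x) := Nat.pow_le_pow_right (by norm_num) (by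
          have h5 : (9 * x + 3 * K + 16) * t ≤ (10 * x) * t := Nat.mul_le_mul_right _ (by omega)
          nlinarith)
      _ ≤ 2 ^ (n / E) := Nat.pow_le_pow_right (by norm_num) hxd

end Pool.Agent.MP2cea29
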