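import Pool.Agent.Lib.MP_2cea29_lc.Red

/-!
# Probabilities for large `n` (MP_2cea29_lc, module ASYM2)
-/

namespace Pool.Agent.MP2cea29

open Pool.Agent.PolyTime Finset Classical

/-- MODULE ASYM2 -/
theorem asym2 (l K k d C : ℕ) (c : ℝ) (hl : 2 ≤ l) (hc : 0 < c)
    (hC : 4 / ((2 : ℝ) ^ l - 1) ≤ c * C) :
    ∃ n0, ∀ n ≥ n0, ∀ nL nH : ℕ, nL + nH = n → nH * (2 ^ l - 1) ≤ n →
      (2 : ℝ) ^ nH * ((2 * (K : ℝ)) ^ d * (1 / 2) ^ nL +
        ∑ j ∈ Icc 1 k, (2 * (K : ℝ) * ((2 : ℝ) ^ l / (2 ^ l - 1)) ^ nL *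
          (2 * (K : ℝ) * 2 ^ k * Real.exp (-(c * nL))) ^ C) ^ j) ≤ 1 / 3 := by
  have h2l : 4 ≤ 2 ^ l := by
    calc 4 = 2 ^ 2 := by norm_num
      _ ≤ 2 ^ l := Nat.pow_le_pow_right (by norm_num) hl
  set r : ℝ := (2 : ℝ) ^ l - 1 with hr
  have hr3 : 3 ≤ r := by
    have : (4 : ℝ) ≤ 2 ^ l := by exact_mod_cast h2l
    linarith
  have hr0 : 0 < r := by linarith
  set Z : ℝ := 2 * (K : ℝ) * (2 * (K : ℝ) * 2 ^ k) ^ C with hZ
  have hZ0 : 0 ≤ Z := by positivity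
  -- limits
  have hlim1 : Filter.Tendsto (fun n : ℕ => (2 * (K : ℝ)) ^ d * (1 / 2 : ℝ) ^ (n / 3)) Filter.atTop
      (nhds ((2 * (K : ℝ)) ^ d * 0)) := by
    refine Filter.Tendsto.const_mul _ ?_
    exact (tendsto_pow_atTop_nhds_zero_of_lt_one (by norm_num) (by norm_num)).comp
      (Nat.tendsto_div_const_atTop (by norm_num))
  have hexp : ∀ s : ℝ, 0 < s → Filter.Tendsto (fun n : ℕ => Real.exp (-(s * n))) Filter.atTop
      (nhds 0) := by
    intro s hs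
    have h1 : Filter.Tendsto (fun n : ℕ => s * (n : ℝ)) Filter.atTop Filter.atTop :=
      Filter.Tendsto.const_mul_atTop hs tendsto_natCast_atTop_atTop
    exact Real.tendsto_exp_neg_atTop_nhds_zero.comp h1
  have hlim2 : Filter.Tendsto (fun n : ℕ => Z * Real.exp (-(2 / r * n))) Filter.atTop
      (nhds (Z * 0)) := (hexp (2 / r) (by positivity)).const_mul _
  have hlim3 : Filter.Tendsto (fun n : ℕ => (k : ℝ) * Z * Real.exp (-(1 / r * n))) Filter.atTop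
      (nhds ((k : ℝ) * Z * 0)) := (hexp (1 / r) (by positivity)).const_mul _
  rw [mul_zero] at hlim1 hlim2 hlim3
  have hev := ((hlim1.eventually (gt_mem_nhds (show (0 : ℝ) < 1 / 6 by norm_num))).and
    (hlim2.eventually (gt_mem_nhds (show (0 : ℝ) < 1 by norm_num)))).and
    (hlim3.eventually (gt_mem_nhds (show (0 : ℝ) < 1 / 6 by norm_num)))
  obtain ⟨n0, hn0⟩ := Filter.eventually_atTop.1 hev
  refine ⟨n0, fun n hn nL nH hsum hnH => ?_⟩
  obtain ⟨⟨hA, hB⟩, hD⟩ := hn0 n hn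
  have hnHr : (nH : ℝ) * r ≤ n := by
    have h1 : ((nH * (2 ^ l - 1) : ℕ) : ℝ) ≤ n := by exact_mod_cast hnH
    rw [Nat.cast_mul, Nat.cast_sub (by omega)] at h1
    push_cast at h1
    exact h1
  have hnH3 : 3 * nH ≤ n := by
    have h1 : nH * 3 ≤ nH * (2 ^ l - 1) := Nat.mul_le_mul_left _ (by omega)
    omega
  have hnLr : (2 : ℝ) / 3 * n ≤ nL := by
    have h1 : 2 * n ≤ 3 * nL := by omega
    have h2 : (2 : ℝ) * n ≤ 3 * nL := by exact_mod_cast h1
    linarith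
  have hnH0 : (nH : ℝ) ≤ n / r := by
    rw [le_div_iff₀ hr0]
    exact hnHr
  -- first term
  have hT1 : (2 : ℝ) ^ nH * ((2 * (K : ℝ)) ^ d * (1 / 2) ^ nL) ≤ 1 / 6 := by
    have h1 : (2 : ℝ) ^ nH * (1 / 2) ^ nL = (1 / 2 : ℝ) ^ (nL - nH) := by
      have h2 : nL = nH + (nL - nH) := by omega
      conv_lhs => rw [h2]
      rw [pow_add, ← mul_assoc, ← mul_pow]
      norm_num
    have h2 : (1 / 2 : ℝ) ^ (nL - nH) ≤ (1 / 2 : ℝ) ^ (n / 3) :=
      pow_le_pow_of_le_one (by norm_num) (by norm_num) (by omega)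
    calc (2 : ℝ) ^ nH * ((2 * (K : ℝ)) ^ d * (1 / 2) ^ nL)
        = (2 * (K : ℝ)) ^ d * ((2 : ℝ) ^ nH * (1 / 2) ^ nL) := by ring
      _ ≤ (2 * (K : ℝ)) ^ d * (1 / 2 : ℝ) ^ (n / 3) := by
          rw [h1]
          exact mul_le_mul_of_nonneg_left h2 (by positivity)
      _ ≤ 1 / 6 := hA.le
  -- the base of the second term
  set b : ℝ := 2 * (K : ℝ) * ((2 : ℝ) ^ l / (2 ^ l - 1)) ^ nL *
    (2 * (K : ℝ) * 2 ^ k * Real.exp (-(c * nL))) ^ C with hb
  have hb0 : 0 ≤ b := by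
    rw [hb, ← hr]
    positivity
  have hbZ : b ≤ Z * Real.exp (-(2 / r * n)) := by
    have h1 : ((2 : ℝ) ^ l / (2 ^ l - 1)) ^ nL ≤ Real.exp (1 / r * nL) := by
      have h2 : (2 : ℝ) ^ l / (2 ^ l - 1) ≤ Real.exp (1 / r) := by
        have h3 : (2 : ℝ) ^ l / (2 ^ l - 1) = 1 / r + 1 := by
          rw [← hr]
          field_simp
          rw [hr]
          ring
        rw [h3]
        exact Real.add_one_le_exp _
      calc ((2 : ℝ) ^ l / (2 ^ l - 1)) ^ nL ≤ (Real.exp (1 / r)) ^ nL :=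
            pow_le_pow_left₀ (by rw [← hr]; positivity) h2 nL
        _ = Real.exp (1 / r * nL) := by rw [← Real.exp_nat_mul, mul_comm]
    have h2 : (2 * (K : ℝ) * 2 ^ k * Real.exp (-(c * nL))) ^ C =
        (2 * (K : ℝ) * 2 ^ k) ^ C * Real.exp (-(c * C * nL)) := by
      rw [mul_pow, ← Real.exp_nat_mul]
      congr 2
      ring
    have h3 : Real.exp (-(c * C * nL)) ≤ Real.exp (-(4 / r * nL)) := by
      refine Real.exp_le_exp.2 ?_
      have : 4 / r * (nL : ℝ) ≤ c * C * nL := mul_le_mul_of_nonneg_right hC (Nat.cast_nonneg _)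
      linarith
    have h4 : Real.exp (1 / r * nL) * Real.exp (-(4 / r * nL)) ≤ Real.exp (-(2 / r * n)) := by
      rw [← Real.exp_add]
      refine Real.exp_le_exp.2 ?_
      have h5 : 1 / r * (nL : ℝ) + -(4 / r * nL) = -(3 / r * nL) := by ring
      have h6 : 2 / r * (n : ℝ) = 3 / r * (2 / 3 * n) := by ring
      have h7 : 3 / r * (2 / 3 * (n : ℝ)) ≤ 3 / r * nL :=
        mul_le_mul_of_nonneg_left hnLr (by positivity)
      rw [h5, h6]
      linarith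
    calc b = 2 * (K : ℝ) * ((2 : ℝ) ^ l / (2 ^ l - 1)) ^ nL *
          ((2 * (K : ℝ) * 2 ^ k) ^ C * Real.exp (-(c * C * nL))) := by rw [hb, h2]
      _ ≤ 2 * (K : ℝ) * Real.exp (1 / r * nL) *
          ((2 * (K : ℝ) * 2 ^ k) ^ C * Real.exp (-(4 / r * nL))) := by gcongr
      _ = Z * (Real.exp (1 / r * nL) * Real.exp (-(4 / r * nL))) := by rw [hZ]; ring
      _ ≤ Z * Real.exp (-(2 / r * n)) := mul_le_mul_of_nonneg_left h4 hZ0
  have hb1 : b ≤ 1 := hbZ.trans hB.le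
  have hsumle : ∑ j ∈ Icc 1 k, b ^ j ≤ k * b := by
    calc ∑ j ∈ Icc 1 k, b ^ j ≤ ∑ _j ∈ Icc 1 k, b := by
          refine Finset.sum_le_sum fun j hj => ?_
          have h1 : 1 ≤ j := (Finset.mem_Icc.1 hj).1
          calc b ^ j ≤ b ^ 1 := pow_le_pow_of_le_one hb0 hb1 h1
            _ = b := pow_one b
      _ = k * b := by
          rw [Finset.sum_const, Nat.card_Icc, nsmul_eq_mul]
          simp
  have hT2 : (2 : ℝ) ^ nH * ∑ j ∈ Icc 1 k, b ^ j ≤ 1 / 6 := by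
    have h1 : (2 : ℝ) ^ nH ≤ Real.exp (1 / r * n) := by
      have h2 : (2 : ℝ) ≤ Real.exp 1 := by
        have := Real.add_one_le_exp (1 : ℝ)
        linarith
      calc (2 : ℝ) ^ nH ≤ (Real.exp 1) ^ nH := pow_le_pow_left₀ (by norm_num) h2 nH
        _ = Real.exp nH := by rw [← Real.exp_nat_mul, mul_one]
        _ ≤ Real.exp (1 / r * n) := by
            refine Real.exp_le_exp.2 ?_
            rw [one_div, inv_mul_eq_div]
            exact hnH0
    calc (2 : ℝ) ^ nH * ∑ j ∈ Icc 1 k, b ^ j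
        ≤ Real.exp (1 / r * n) * (k * (Z * Real.exp (-(2 / r * n)))) := by
          refine mul_le_mul h1 (hsumle.trans ?_) ?_ (Real.exp_pos _).le
          · exact mul_le_mul_of_nonneg_left hbZ (Nat.cast_nonneg _)
          · exact Finset.sum_nonneg fun j _ => pow_nonneg hb0 j
      _ = k * Z * (Real.exp (1 / r * n) * Real.exp (-(2 / r * n))) := by ring
      _ = k * Z * Real.exp (-(1 / r * n)) := by
          rw [← Real.exp_add]
          congr 2
          ring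
      _ ≤ 1 / 6 := hD.le
  have hfin : (2 : ℝ) ^ nH * ((2 * (K : ℝ)) ^ d * (1 / 2) ^ nL + ∑ j ∈ Icc 1 k, b ^ j) ≤ 1 / 3 := by
    rw [mul_add]
    linarith
  exact hfin

end Pool.Agent.MP2cea29
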