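import Pool.Agent.Lib.MP_2cea29_lc.Red2

/-!
# MP_2cea29_lc, module ASYM2X: explicit probabilities
-/

namespace Pool.Agent.MP2cea29

open Pool.Agent.PolyTime

/-- MODULE ASYM2X -/
theorem asym2x (l K k d C F n nL nH : ℕ) (c : ℝ) (hl : 2 ≤ l) (hc : 0 < c)
    (hC : 4 / ((2 : ℝ) ^ l - 1) ≤ c * C) (hn : bigN (2 ^ l - 1) K k d C F ≤ n)
    (hs : nL + nH = n) (hh : nH * (2 ^ l - 1) ≤ n) :
    (2 : ℝ) ^ nH * ((2 * (K : ℝ)) ^ d * (1 / 2) ^ nL +
      ∑ j ∈ Finset.Icc 1 k, (2 * (K : ℝ) * ((2 : ℝ) ^ l / (2 ^ l - 1)) ^ nL *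
        (2 * (K : ℝ) * 2 ^ k * Real.exp (-(c * nL))) ^ C) ^ j) ≤ 1 / 3 := by
  have h2l : 4 ≤ 2 ^ l := by
    calc 4 = 2 ^ 2 := by norm_num
      _ ≤ 2 ^ l := Nat.pow_le_pow_right (by norm_num) hl
  obtain ⟨R, hR⟩ : ∃ R : ℕ, R = 2 ^ l - 1 := ⟨_, rfl⟩
  have hRr : (R : ℝ) = (2 : ℝ) ^ l - 1 := by
    rw [hR, Nat.cast_sub (by omega)]
    push_cast
    rfl
  rw [← hR] at hn hh
  rw [← hRr] at hC ⊢
  have hR3 : 3 ≤ R := by omega
  have hR0 : 0 < R := by omega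
  have hr0 : (0 : ℝ) < R := by exact_mod_cast hR0
  obtain ⟨x, hx⟩ : ∃ x : ℕ, x = n / R := ⟨_, rfl⟩
  have hxM : F + 3 * K + 2 * R + (K + 1) * (d + 1) + (K + k + 1) * (C + 1) + k + 20 ≤ x := by
    rw [hx, Nat.le_div_iff_mul_le hR0, mul_comm]
    exact hn
  have hrx : R * x ≤ n := by
    rw [hx]
    exact Nat.mul_div_le n R
  have hnHx : nH ≤ x := by
    rw [hx, Nat.le_div_iff_mul_le hR0]
    exact hh
  have h3x : 3 * x ≤ n := le_trans (Nat.mul_le_mul_right _ hR3) hrx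
  have h2K : 2 * (K : ℝ) ≤ 2 ^ (K + 1) := by
    have : (K : ℝ) ≤ 2 ^ K := by exact_mod_cast Nat.lt_two_pow_self.le
    rw [pow_succ]
    linarith
  -- first term
  have hT1 : (2 : ℝ) ^ nH * ((2 * (K : ℝ)) ^ d * (1 / 2) ^ nL) ≤ 1 / 6 := by
    have h1 : (2 * (K : ℝ)) ^ d ≤ 2 ^ ((K + 1) * d) := by
      rw [pow_mul]
      exact pow_le_pow_left₀ (by positivity) h2K d
    have h2 : (K + 1) * d + 3 + nH ≤ nL := by
      have : (K + 1) * d ≤ (K + 1) * (d + 1) := Nat.mul_le_mul_left _ (by omega)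
      have h4 : 0 ≤ (K + k + 1) * (C + 1) := Nat.zero_le _
      omega
    have h3 : (2 : ℝ) ^ ((K + 1) * d + 3 + nH) ≤ 2 ^ nL := pow_le_pow_right₀ one_le_two h2
    rw [one_div, inv_pow, ← div_eq_mul_inv, ← mul_div_assoc, div_le_iff₀ (by positivity)]
    calc (2 : ℝ) ^ nH * (2 * (K : ℝ)) ^ d ≤ 2 ^ nH * 2 ^ ((K + 1) * d) :=
          mul_le_mul_of_nonneg_left h1 (by positivity)
      _ = 1 / 8 * 2 ^ ((K + 1) * d + 3 + nH) := by rw [pow_add, pow_add]; ring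
      _ ≤ 1 / 6 * 2 ^ nL := by
          have : (0 : ℝ) < 2 ^ nL := by positivity
          linarith
  -- the base of the second term
  obtain ⟨b, hb⟩ : ∃ b : ℝ, b = 2 * (K : ℝ) * ((2 : ℝ) ^ l / R) ^ nL *
    (2 * (K : ℝ) * 2 ^ k * Real.exp (-(c * nL))) ^ C := ⟨_, rfl⟩
  have hb0 : 0 ≤ b := by
    rw [hb]
    positivity
  have hnLr : 2 * (R : ℝ) * x ≤ 3 * nL := by
    have h1 : 2 * (R * x) ≤ 3 * nL := by omega
    have h2 : ((2 * (R * x) : ℕ) : ℝ) ≤ ((3 * nL : ℕ) : ℝ) := by exact_mod_cast h1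
    push_cast at h2
    linarith
  have hbM : b ≤ 2 ^ ((K + k + 1) * (C + 1)) * Real.exp (-(2 * x)) := by
    have h1 : ((2 : ℝ) ^ l / R) ^ nL ≤ Real.exp (1 / R * nL) := by
      have h2 : (2 : ℝ) ^ l / R ≤ Real.exp (1 / R) := by
        have h3 : (2 : ℝ) ^ l / R = 1 / R + 1 := by
          have : (2 : ℝ) ^ l = R + 1 := by rw [hRr]; ring
          rw [this]
          field_simp
          ring
        rw [h3]
        exact Real.add_one_le_exp _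
      calc ((2 : ℝ) ^ l / R) ^ nL ≤ (Real.exp (1 / R)) ^ nL :=
            pow_le_pow_left₀ (by positivity) h2 nL
        _ = Real.exp (1 / R * nL) := by rw [← Real.exp_nat_mul, mul_comm]
    have h2 : (2 * (K : ℝ) * 2 ^ k * Real.exp (-(c * nL))) ^ C =
        (2 * (K : ℝ) * 2 ^ k) ^ C * Real.exp (-(c * C * nL)) := by
      rw [mul_pow, ← Real.exp_nat_mul]
      congr 2
      ring
    have h3 : Real.exp (-(c * C * nL)) ≤ Real.exp (-(4 / R * nL)) := by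
      refine Real.exp_le_exp.2 ?_
      have : 4 / R * (nL : ℝ) ≤ c * C * nL := mul_le_mul_of_nonneg_right hC (Nat.cast_nonneg _)
      linarith
    have h4 : Real.exp (1 / R * nL) * Real.exp (-(4 / R * nL)) ≤ Real.exp (-(2 * x)) := by
      rw [← Real.exp_add]
      refine Real.exp_le_exp.2 ?_
      have h5 : 1 / R * (nL : ℝ) + -(4 / R * nL) = -(3 * nL / R) := by ring
      rw [h5, neg_le_neg_iff, le_div_iff₀ hr0]
      linarith
    have h5 : (2 * (K : ℝ) * 2 ^ k) ^ C ≤ 2 ^ ((K + k + 1) * C) := by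
      rw [pow_mul]
      apply pow_le_pow_left₀ (by positivity)
      calc 2 * (K : ℝ) * 2 ^ k ≤ 2 ^ (K + 1) * 2 ^ k :=
            mul_le_mul_of_nonneg_right h2K (by positivity)
        _ = 2 ^ (K + k + 1) := by rw [← pow_add]; congr 1; ring
    have h6 : 2 * (K : ℝ) ≤ 2 ^ (K + k + 1) :=
      h2K.trans (pow_le_pow_right₀ one_le_two (by omega))
    calc b = 2 * (K : ℝ) * ((2 : ℝ) ^ l / R) ^ nL *
          ((2 * (K : ℝ) * 2 ^ k) ^ C * Real.exp (-(c * C * nL))) := by rw [hb, h2]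
      _ ≤ 2 ^ (K + k + 1) * Real.exp (1 / R * nL) *
          (2 ^ ((K + k + 1) * C) * Real.exp (-(4 / R * nL))) := by gcongr
      _ = 2 ^ ((K + k + 1) * (C + 1)) * (Real.exp (1 / R * nL) * Real.exp (-(4 / R * nL))) := by
          rw [mul_add, mul_one, pow_add]
          ring
      _ ≤ 2 ^ ((K + k + 1) * (C + 1)) * Real.exp (-(2 * x)) :=
          mul_le_mul_of_nonneg_left h4 (by positivity)
  have hM : (K + k + 1) * (C + 1) + k + 20 ≤ x := by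
    have : 0 ≤ (K + 1) * (d + 1) := Nat.zero_le _
    omega
  have hexp : (2 : ℝ) ^ x * 2 ^ x * Real.exp (-(2 * x)) ≤ 1 := by
    have h1 : (2 : ℝ) ^ x ≤ Real.exp x := by
      have h2 : (2 : ℝ) ≤ Real.exp 1 := by
        have := Real.add_one_le_exp (1 : ℝ)
        linarith
      calc (2 : ℝ) ^ x ≤ (Real.exp 1) ^ x := pow_le_pow_left₀ (by norm_num) h2 x
        _ = Real.exp x := by rw [← Real.exp_nat_mul, mul_one]
    calc (2 : ℝ) ^ x * 2 ^ x * Real.exp (-(2 * x))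
        ≤ Real.exp x * Real.exp x * Real.exp (-(2 * x)) := by gcongr
      _ = 1 := by
          rw [← Real.exp_add, ← Real.exp_add, Real.exp_eq_one_iff]
          ring
  have hkb : (2 : ℝ) ^ x * 2 ^ k * b ≤ 1 / 8 := by
    have h1 : (2 : ℝ) ^ ((K + k + 1) * (C + 1)) * 2 ^ k * 8 ≤ 2 ^ x := by
      calc (2 : ℝ) ^ ((K + k + 1) * (C + 1)) * 2 ^ k * 8
          = 2 ^ ((K + k + 1) * (C + 1) + k + 3) := by rw [pow_add, pow_add]; norm_num
        _ ≤ 2 ^ x := pow_le_pow_right₀ one_le_two (by omega)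
    rw [le_div_iff₀ (by norm_num)]
    calc (2 : ℝ) ^ x * 2 ^ k * b * 8
        ≤ 2 ^ x * 2 ^ k * (2 ^ ((K + k + 1) * (C + 1)) * Real.exp (-(2 * x))) * 8 := by gcongr
      _ = 2 ^ x * (2 ^ ((K + k + 1) * (C + 1)) * 2 ^ k * 8) * Real.exp (-(2 * x)) := by ring
      _ ≤ 2 ^ x * 2 ^ x * Real.exp (-(2 * x)) := by gcongr
      _ ≤ 1 := hexp
  have h1x : (1 : ℝ) ≤ 2 ^ x := one_le_pow₀ one_le_two
  have h1k : (1 : ℝ) ≤ 2 ^ k := one_le_pow₀ one_le_two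
  have hb1 : b ≤ 1 := by
    have h1 : b ≤ 2 ^ x * 2 ^ k * b := le_mul_of_one_le_left hb0 (one_le_mul_of_one_le_of_one_le h1x h1k)
    linarith
  have hsumle : ∑ j ∈ Finset.Icc 1 k, b ^ j ≤ k * b := by
    calc ∑ j ∈ Finset.Icc 1 k, b ^ j ≤ ∑ _j ∈ Finset.Icc 1 k, b := by
          refine Finset.sum_le_sum fun j hj => ?_
          have h1 : 1 ≤ j := (Finset.mem_Icc.1 hj).1
          calc b ^ j ≤ b ^ 1 := pow_le_pow_of_le_one hb0 hb1 h1
            _ = b := pow_one b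
      _ = k * b := by
          rw [Finset.sum_const, Nat.card_Icc, nsmul_eq_mul]
          simp
  have hT2 : (2 : ℝ) ^ nH * ∑ j ∈ Finset.Icc 1 k, b ^ j ≤ 1 / 6 := by
    have hk2 : (k : ℝ) ≤ 2 ^ k := by exact_mod_cast Nat.lt_two_pow_self.le
    have hnx : (2 : ℝ) ^ nH ≤ 2 ^ x := pow_le_pow_right₀ one_le_two hnHx
    calc (2 : ℝ) ^ nH * ∑ j ∈ Finset.Icc 1 k, b ^ j
        ≤ 2 ^ nH * (k * b) := mul_le_mul_of_nonneg_left hsumle (by positivity)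
      _ ≤ 2 ^ x * (2 ^ k * b) := by gcongr
      _ = 2 ^ x * 2 ^ k * b := by ring
      _ ≤ 1 / 6 := by linarith
  have hfin : (2 : ℝ) ^ nH * ((2 * (K : ℝ)) ^ d * (1 / 2) ^ nL +
      ∑ j ∈ Finset.Icc 1 k, b ^ j) ≤ 1 / 3 := by
    rw [mul_add]
    linarith
  rw [hb] at hfin
  exact hfin

end Pool.Agent.MP2cea29
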