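import Pool.Agent.Lib.MP_2cea29_lc.Core

/-!
# Functions avoiding patterns on disjoint sets (MP_2cea29_lc, module AVOID)
-/

namespace Pool.Agent.MP2cea29

open Finset Classical

/-- MODULE AVOID -/
theorem avoid_count {X S : Type} [Fintype X] (A : X → Finset S) (z : X → S)
    (F : Finset (Finset X)) (hdis : (F : Set (Finset X)).PairwiseDisjoint id)
    (hz : ∀ T ∈ F, ∀ x ∈ T, z x ∈ A x) :
    (((Fintype.piFinset A).filter fun y => ∀ T ∈ F, ∃ x ∈ T, y x ≠ z x).card : ℝ) =
      (∏ x, ((A x).card : ℝ)) * ∏ T ∈ F, (1 - ∏ x ∈ T, ((A x).card : ℝ)⁻¹) := by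
  induction F using Finset.induction_on generalizing A with
  | empty =>
    have h1 : (Fintype.piFinset A).filter (fun y => ∀ T ∈ (∅ : Finset (Finset X)),
        ∃ x ∈ T, y x ≠ z x) = Fintype.piFinset A := by
      refine Finset.filter_true_of_mem fun y _ T hT => absurd hT (Finset.notMem_empty T)
    rw [h1, Finset.prod_empty, mul_one, Fintype.card_piFinset, Nat.cast_prod]
  | insert T F hT ih =>
    have hdisF : (F : Set (Finset X)).PairwiseDisjoint id :=
      hdis.subset (by rw [Finset.coe_insert]; exact Set.subset_insert _ _)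
    have hzF : ∀ T' ∈ F, ∀ x ∈ T', z x ∈ A x := fun T' hT' =>
      hz T' (Finset.mem_insert_of_mem hT')
    have hzT : ∀ x ∈ T, z x ∈ A x := hz T (Finset.mem_insert_self _ _)
    have hdT : ∀ T' ∈ F, ∀ x ∈ T', x ∉ T := by
      intro T' hT' x hx hxT
      have hne : T' ≠ T := fun h => hT (h ▸ hT')
      have := hdis (Finset.mem_coe.2 (Finset.mem_insert_of_mem hT'))
        (Finset.mem_coe.2 (Finset.mem_insert_self T F)) hne
      exact Finset.disjoint_left.1 this hx hxT
    set A' : X → Finset S := fun x => if x ∈ T then {z x} else A x with hA'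
    have hA'1 : ∀ x ∈ T, A' x = {z x} := fun x hx => by rw [hA']; simp [hx]
    have hA'2 : ∀ x, x ∉ T → A' x = A x := fun x hx => by rw [hA']; simp [hx]
    have hzF' : ∀ T' ∈ F, ∀ x ∈ T', z x ∈ A' x := by
      intro T' hT' x hx
      rw [hA'2 x (hdT T' hT' x hx)]
      exact hzF T' hT' x hx
    have ih1 := ih A hdisF hzF
    have ih2 := ih A' hdisF hzF'
    -- splitting
    set W : Finset (X → S) := (Fintype.piFinset A).filter fun y => ∀ T' ∈ F, ∃ x ∈ T', y x ≠ z x
      with hW
    have hs1 : (Fintype.piFinset A).filter (fun y => ∀ T' ∈ insert T F, ∃ x ∈ T', y x ≠ z x) =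
        W.filter fun y => ∃ x ∈ T, y x ≠ z x := by
      ext y
      simp only [hW, Finset.mem_filter, Finset.mem_insert, forall_eq_or_imp]
      tauto
    have hs2 : W.filter (fun y => ¬ ∃ x ∈ T, y x ≠ z x) =
        (Fintype.piFinset A').filter fun y => ∀ T' ∈ F, ∃ x ∈ T', y x ≠ z x := by
      ext y
      simp only [hW, Finset.mem_filter, Fintype.mem_piFinset]
      constructor
      · rintro ⟨⟨h1, h2⟩, h3⟩
        refine ⟨fun x => ?_, h2⟩
        by_cases hx : x ∈ T
        · rw [hA'1 x hx, Finset.mem_singleton]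
          by_contra hne
          exact h3 ⟨x, hx, hne⟩
        · rw [hA'2 x hx]
          exact h1 x
      · rintro ⟨h1, h2⟩
        refine ⟨⟨fun x => ?_, h2⟩, ?_⟩
        · by_cases hx : x ∈ T
          · have h3 := h1 x
            rw [hA'1 x hx, Finset.mem_singleton] at h3
            rw [h3]
            exact hzT x hx
          · have h3 := h1 x
            rwa [hA'2 x hx] at h3
        · rintro ⟨x, hx, hne⟩
          have h3 := h1 x
          rw [hA'1 x hx, Finset.mem_singleton] at h3
          exact hne h3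
    have hcard : (W.filter fun y => ∃ x ∈ T, y x ≠ z x).card +
        (W.filter fun y => ¬ ∃ x ∈ T, y x ≠ z x).card = W.card :=
      Finset.card_filter_add_card_filter_not _
    have hcard' : ((W.filter fun y => ∃ x ∈ T, y x ≠ z x).card : ℝ) =
        (W.card : ℝ) - ((W.filter fun y => ¬ ∃ x ∈ T, y x ≠ z x).card : ℝ) := by
      rw [← hcard]
      push_cast
      ring
    have hprod1 : ∏ x, ((A' x).card : ℝ) =
        (∏ x, ((A x).card : ℝ)) * ∏ x ∈ T, ((A x).card : ℝ)⁻¹ := by
      have h1 : ∏ x ∈ T, ((A x).card : ℝ)⁻¹ = ∏ x, if x ∈ T then ((A x).card : ℝ)⁻¹ else 1 := by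
        rw [Finset.prod_ite_mem, Finset.univ_inter]
      rw [h1, ← Finset.prod_mul_distrib]
      refine Finset.prod_congr rfl fun x _ => ?_
      by_cases hx : x ∈ T
      · rw [if_pos hx, hA'1 x hx, Finset.card_singleton, Nat.cast_one]
        have h2 : ((A x).card : ℝ) ≠ 0 := by
          have := Finset.card_pos.2 ⟨z x, hzT x hx⟩
          exact_mod_cast this.ne'
        rw [mul_inv_cancel₀ h2]
      · rw [if_neg hx, hA'2 x hx, mul_one]
    have hprod2 : ∏ T' ∈ F, (1 - ∏ x ∈ T', ((A' x).card : ℝ)⁻¹) =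
        ∏ T' ∈ F, (1 - ∏ x ∈ T', ((A x).card : ℝ)⁻¹) := by
      refine Finset.prod_congr rfl fun T' hT' => ?_
      congr 1
      refine Finset.prod_congr rfl fun x hx => ?_
      rw [hA'2 x (hdT T' hT' x hx)]
    rw [hs1, hcard', hs2, ih1, ih2, hprod1, hprod2, Finset.prod_insert hT]
    ring

end Pool.Agent.MP2cea29
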