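import Pool.Agent.Lib.MP_2cea29_lc.Core

/-!
# Union bound over labelings (MP_2cea29_lc, module BAD1)
-/

namespace Pool.Agent.MP2cea29

open Finset Classical

namespace Bad1

/-- Symbols allowed by a label (`none`: conflict, `some none`: absent, `some (some b)`: value). -/
noncomputable def al {S : Type} [Fintype S] (val : S → Option Bool) : Option (Option Bool) → Finset S
  | none => univ
  | some none => univ.filter fun s => val s = none
  | some (some b) => univ.filter fun s => val s ≠ some (!b)

/-- Weight of a label. -/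
noncomputable def om (r : ℕ) : Option (Option Bool) → ℝ
  | none => 1 + 1 / (r : ℝ)
  | some none => 1 - 1 / (r : ℝ)
  | some (some _) => 1

theorem card_al {S : Type} [Fintype S] (val : S → Option Bool) (r : ℕ)
    (hr : 2 ≤ r) (hval : ValOK val (r + 1)) (l : Option (Option Bool)) :
    ((al val l).card : ℝ) = r * om r l := by
  have hr0 : (0 : ℝ) < r := by exact_mod_cast (by omega : 0 < r)
  have hcard1 : (univ.filter fun s => val s = none).card = r - 1 := by
    have h1 := Finset.card_eq_sum_card_fiberwise (s := (univ : Finset S))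
      (t := (univ : Finset (Option Bool))) (f := val) (fun r _ => Finset.mem_coe.2 (Finset.mem_univ _))
    rw [Finset.card_univ, hval.card_eq, Fintype.sum_option, Fintype.sum_bool, hval.one, hval.one]
      at h1
    omega
  have hcard2 : ∀ b : Bool, (univ.filter fun s => val s ≠ some b).card = r := by
    intro b
    have h1 := Finset.card_filter_add_card_filter_not (s := (univ : Finset S))
      (fun s => val s = some b)
    rw [Finset.card_univ, hval.card_eq, hval.one] at h1
    have h2 : (univ.filter fun s => val s ≠ some b) = univ.filter fun s => ¬ val s = some b := rfl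
    rw [h2]
    omega
  match l with
  | none =>
    simp only [al, om]
    rw [Finset.card_univ, hval.card_eq]
    field_simp
    push_cast
    ring
  | some none =>
    simp only [al, om]
    rw [hcard1, Nat.cast_sub (by omega)]
    field_simp
    push_cast
    ring
  | some (some b) =>
    simp only [al, om]
    rw [hcard2, mul_one]

/-- The label of a variable. -/
noncomputable def lab {ι X : Type} [Fintype X] (P : ι → X → Option Bool) (e : Finset ι) (x : X) :
    Option (Option Bool) :=
  if x ∈ absentSet P e then some none else if x ∈ confSet P e then none else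
    some (some (decide (∃ a ∈ e, P a x = some true)))

theorem prod_om {ι X : Type} [Fintype X] (r : ℕ) (P : ι → X → Option Bool) (e : Finset ι) :
    ∏ x, om r (lab P e x) = wgt r P e := by
  unfold wgt
  have hdis : ∀ x, x ∈ absentSet P e → x ∉ confSet P e := by
    intro x hx hx'
    obtain ⟨⟨a, ha, ha'⟩, -⟩ := (Finset.mem_filter.1 hx').2
    have := (Finset.mem_filter.1 hx).2 a ha
    rw [this] at ha'
    exact absurd ha' (by simp)
  have e1 : (1 - 1 / (r : ℝ)) ^ (absentSet P e).card =
      ∏ x, if x ∈ absentSet P e then (1 - 1 / (r : ℝ)) else 1 := by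
    rw [Finset.prod_ite_mem, Finset.univ_inter, Finset.prod_const]
  have e2 : (1 + 1 / (r : ℝ)) ^ (confSet P e).card =
      ∏ x, if x ∈ confSet P e then (1 + 1 / (r : ℝ)) else 1 := by
    rw [Finset.prod_ite_mem, Finset.univ_inter, Finset.prod_const]
  rw [e1, e2, ← Finset.prod_mul_distrib]
  refine Finset.prod_congr rfl fun x _ => ?_
  unfold lab
  by_cases h1 : x ∈ absentSet P e
  · have h2 := hdis x h1
    simp only [h1, h2, if_true, if_false, om, mul_one]
  · by_cases h2 : x ∈ confSet P e
    · simp only [h1, h2, if_true, if_false, om, one_mul]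
    · simp only [h1, h2, if_false, om, mul_one]

theorem mem_al {ι X S : Type} [Fintype X] [Fintype S] (val : S → Option Bool) (U : ι → X → S)
    (e : Finset ι) (a : ι) (ha : a ∈ e) (x : X) :
    U a x ∈ al val (lab (fun a x => val (U a x)) e x) := by
  unfold lab
  by_cases h1 : x ∈ absentSet (fun a x => val (U a x)) e
  · simp only [h1, if_true, al, Finset.mem_filter, Finset.mem_univ, true_and]
    exact (Finset.mem_filter.1 h1).2 a ha
  · by_cases h2 : x ∈ confSet (fun a x => val (U a x)) e
    · simp only [h1, h2, if_true, if_false, al, Finset.mem_univ]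
    · simp only [h1, h2, if_false, al, Finset.mem_filter, Finset.mem_univ, true_and]
      intro h3
      by_cases h4 : ∃ a ∈ e, val (U a x) = some true
      · simp only [h4, decide_true, Bool.not_true] at h3
        exact h2 (Finset.mem_filter.2 ⟨Finset.mem_univ _, h4, ⟨a, ha, h3⟩⟩)
      · simp only [h4, decide_false, Bool.not_false] at h3
        exact h4 ⟨a, ha, h3⟩

end Bad1

open Bad1 in
/-- MODULE BAD1 -/
theorem bad1_count {X S : Type} [Fintype X] [Fintype S] (val : S → Option Bool) (r : ℕ)
    (hr : 2 ≤ r) (hval : ValOK val (r + 1)) (N d : ℕ) (K : ℝ) (hK : 0 ≤ K)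
    (hN : (N : ℝ) ≤ K * (((r : ℝ) + 1) / r) ^ Fintype.card X) :
    ((univ.filter fun U : Fin N → X → S => ∃ e : Finset (Fin N), e.card = d ∧
        ¬ Good r d (fun a x => val (U a x)) e).card : ℝ) ≤
      K ^ d * (1 / 2) ^ Fintype.card X * Fintype.card (Fin N → X → S) := by
  have hr0 : (0 : ℝ) < r := by exact_mod_cast (by omega : 0 < r)
  have hr1 : (1 : ℝ) ≤ r := by exact_mod_cast (by omega : 1 ≤ r)
  set n : ℕ := Fintype.card X with hn
  set Y : ℝ := ((r : ℝ) + 1) ^ n with hY
  have hY0 : 0 < Y := by positivity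
  have hYcard : (Fintype.card (X → S) : ℝ) = Y := by
    rw [Fintype.card_fun, hval.card_eq, hY]
    push_cast
    rfl
  set w : (X → Option (Option Bool)) → ℝ := fun L => ∏ x, om r (L x) with hw
  have hom0 : ∀ l, 0 ≤ om r l := by
    intro l
    match l with
    | none => simp only [om]; positivity
    | some none =>
      simp only [om]
      rw [sub_nonneg, div_le_one hr0]
      exact hr1
    | some (some b) => simp only [om]; exact zero_le_one
  have hw0 : ∀ L, 0 ≤ w L := fun L => Finset.prod_nonneg fun x _ => hom0 _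
  set fit : (X → Option (Option Bool)) → Finset (X → S) :=
    fun L => Fintype.piFinset fun x => al val (L x) with hfit
  have hfitcard : ∀ L, ((fit L).card : ℝ) = (r : ℝ) ^ n * w L := by
    intro L
    rw [hfit]
    simp only
    rw [Fintype.card_piFinset, Nat.cast_prod]
    simp_rw [card_al val r hr hval]
    rw [Finset.prod_mul_distrib, Finset.prod_const, Finset.card_univ]
  set bad : Finset (X → Option (Option Bool)) :=
    univ.filter fun L => (8 : ℝ) ^ n * w L ^ d < 1 with hbad
  -- the inclusion
  have hsub : (univ.filter fun U : Fin N → X → S => ∃ e : Finset (Fin N), e.card = d ∧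
      ¬ Good r d (fun a x => val (U a x)) e) ⊆
      ((univ.powersetCard d : Finset (Finset (Fin N))) ×ˢ bad).biUnion fun p =>
        Fintype.piFinset fun a => if a ∈ p.1 then fit p.2 else univ := by
    intro U hU
    obtain ⟨e, he, hgood⟩ := (Finset.mem_filter.1 hU).2
    rw [Finset.mem_biUnion]
    refine ⟨(e, lab (fun a x => val (U a x)) e), Finset.mem_product.2 ⟨?_, ?_⟩, ?_⟩
    · rw [Finset.mem_powersetCard]
      exact ⟨Finset.subset_univ _, he⟩
    · rw [hbad, Finset.mem_filter]
      refine ⟨Finset.mem_univ _, ?_⟩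
      rw [hw]
      simp only
      rw [prod_om]
      unfold Good at hgood
      push Not at hgood
      exact hgood
    · rw [Fintype.mem_piFinset]
      intro a
      simp only
      by_cases ha : a ∈ e
      · rw [if_pos ha, hfit]
        simp only
        rw [Fintype.mem_piFinset]
        intro x
        exact mem_al val U e a ha x
      · rw [if_neg ha]
        exact Finset.mem_univ _
  have hone : ∀ p ∈ ((univ.powersetCard d : Finset (Finset (Fin N))) ×ˢ bad),
      (((Fintype.piFinset fun a => if a ∈ p.1 then fit p.2 else univ).card : ℕ) : ℝ) =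
        (((r : ℝ) ^ n * w p.2) / Y) ^ d * Y ^ N := by
    intro p hp
    have hpd : p.1.card = d := (Finset.mem_powersetCard.1 (Finset.mem_product.1 hp).1).2
    rw [Fintype.card_piFinset, Nat.cast_prod]
    have h1 : ∀ a : Fin N, (((if a ∈ p.1 then fit p.2 else univ : Finset (X → S)).card : ℕ) : ℝ) =
        (if a ∈ p.1 then ((r : ℝ) ^ n * w p.2) / Y else 1) * Y := by
      intro a
      split_ifs with h
      · rw [hfitcard, div_mul_cancel₀ _ hY0.ne']
      · rw [Finset.card_univ, hYcard, one_mul]
    simp_rw [h1]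
    rw [Finset.prod_mul_distrib, Finset.prod_ite_mem, Finset.univ_inter, Finset.prod_const, hpd,
      Finset.prod_const, Finset.card_univ, Fintype.card_fin]
  have hle : ((univ.filter fun U : Fin N → X → S => ∃ e : Finset (Fin N), e.card = d ∧
      ¬ Good r d (fun a x => val (U a x)) e).card : ℝ) ≤
      ∑ p ∈ ((univ.powersetCard d : Finset (Finset (Fin N))) ×ˢ bad),
        (((r : ℝ) ^ n * w p.2) / Y) ^ d * Y ^ N := by
    refine (Nat.cast_le.2 (Finset.card_le_card hsub)).trans ?_
    refine (Nat.cast_le.2 Finset.card_biUnion_le).trans ?_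
    rw [Nat.cast_sum]
    exact (Finset.sum_congr rfl hone).le
  have hchoose : ((N.choose d : ℕ) : ℝ) ≤ (N : ℝ) ^ d := by
    have h1 := Nat.choose_le_pow_div (α := ℝ) d N
    refine h1.trans (div_le_self (by positivity) ?_)
    exact_mod_cast Nat.one_le_iff_ne_zero.2 (Nat.factorial_ne_zero d)
  have hcardU : (Fintype.card (Fin N → X → S) : ℝ) = Y ^ N := by
    rw [Fintype.card_fun, Fintype.card_fin]
    push_cast
    rw [hYcard]
  rw [hcardU]
  refine hle.trans ?_
  rw [Finset.sum_product]
  simp only
  rw [Finset.sum_const, Finset.card_powersetCard, Finset.card_univ, Fintype.card_fin,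
    nsmul_eq_mul]
  have hterm : ∀ L ∈ bad, (N : ℝ) ^ d * ((((r : ℝ) ^ n * w L) / Y) ^ d * Y ^ N) ≤
      K ^ d * (1 / 8) ^ n * Y ^ N := by
    intro L hL
    have h1 : (8 : ℝ) ^ n * w L ^ d < 1 := (Finset.mem_filter.1 hL).2
    have h2 : (N : ℝ) * (((r : ℝ) ^ n * w L) / Y) ≤ K * w L := by
      calc (N : ℝ) * (((r : ℝ) ^ n * w L) / Y)
          ≤ (K * (((r : ℝ) + 1) / r) ^ n) * (((r : ℝ) ^ n * w L) / Y) := by
            refine mul_le_mul_of_nonneg_right hN ?_
            exact div_nonneg (mul_nonneg (by positivity) (hw0 L)) hY0.le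
        _ = K * w L := by
            rw [hY, div_pow]
            field_simp
    have h3 : 0 ≤ (N : ℝ) * (((r : ℝ) ^ n * w L) / Y) :=
      mul_nonneg (Nat.cast_nonneg _) (div_nonneg (mul_nonneg (by positivity) (hw0 L)) hY0.le)
    have h4 : w L ^ d ≤ (1 / 8) ^ n := by
      rw [one_div, inv_pow, ← one_div, le_div_iff₀ (by positivity)]
      linarith
    calc (N : ℝ) ^ d * ((((r : ℝ) ^ n * w L) / Y) ^ d * Y ^ N)
        = ((N : ℝ) * (((r : ℝ) ^ n * w L) / Y)) ^ d * Y ^ N := by rw [mul_pow]; ring
      _ ≤ (K * w L) ^ d * Y ^ N := by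
          refine mul_le_mul_of_nonneg_right (pow_le_pow_left₀ h3 h2 d) (by positivity)
      _ = K ^ d * w L ^ d * Y ^ N := by rw [mul_pow]
      _ ≤ K ^ d * (1 / 8) ^ n * Y ^ N := by
          refine mul_le_mul_of_nonneg_right ?_ (by positivity)
          exact mul_le_mul_of_nonneg_left h4 (by positivity)
  have hsum0 : 0 ≤ ∑ L ∈ bad, (((r : ℝ) ^ n * w L) / Y) ^ d * Y ^ N := by
    refine Finset.sum_nonneg fun L _ => ?_
    exact mul_nonneg (pow_nonneg (div_nonneg (mul_nonneg (by positivity) (hw0 L)) hY0.le) d)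
      (by positivity)
  calc ((N.choose d : ℕ) : ℝ) * ∑ L ∈ bad, (((r : ℝ) ^ n * w L) / Y) ^ d * Y ^ N
      ≤ (N : ℝ) ^ d * ∑ L ∈ bad, (((r : ℝ) ^ n * w L) / Y) ^ d * Y ^ N :=
        mul_le_mul_of_nonneg_right hchoose hsum0
    _ = ∑ L ∈ bad, (N : ℝ) ^ d * ((((r : ℝ) ^ n * w L) / Y) ^ d * Y ^ N) := Finset.mul_sum _ _ _
    _ ≤ ∑ _L ∈ bad, K ^ d * (1 / 8) ^ n * Y ^ N := Finset.sum_le_sum hterm
    _ = (bad.card : ℝ) * (K ^ d * (1 / 8) ^ n * Y ^ N) := by
        rw [Finset.sum_const, nsmul_eq_mul]
    _ ≤ (4 : ℝ) ^ n * (K ^ d * (1 / 8) ^ n * Y ^ N) := by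
        refine mul_le_mul_of_nonneg_right ?_ (by positivity)
        have h1 : bad.card ≤ 4 ^ n := by
          refine (Finset.card_filter_le _ _).trans ?_
          rw [Finset.card_univ, Fintype.card_fun]
          simp [hn]
        exact_mod_cast h1
    _ = K ^ d * (1 / 2) ^ n * Y ^ N := by
        have h1 : (4 : ℝ) ^ n * (1 / 8) ^ n = (1 / 2) ^ n := by
          rw [← mul_pow]
          norm_num
        calc (4 : ℝ) ^ n * (K ^ d * (1 / 8) ^ n * Y ^ N)
            = K ^ d * ((4 : ℝ) ^ n * (1 / 8) ^ n) * Y ^ N := by ring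
          _ = K ^ d * (1 / 2) ^ n * Y ^ N := by rw [h1]

end Pool.Agent.MP2cea29
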