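import Pool.Agent.Lib.MP_2cea29_lc.Core

/-!
# Densest k-subgraph: counting with independent coordinates
-/

namespace Pool.Agent.MP2cea29

open Finset Classical

/-- MODULE INDEP -/
theorem count_indep {ι Y : Type} [Fintype ι] [Fintype Y]
    (I : Finset ι) (F : (ι → Y) → ι → Finset Y) (M : ℝ) (hM0 : 0 ≤ M)
    (hF : ∀ U U' : ι → Y, (∀ a, a ∉ I → U a = U' a) → ∀ i ∈ I, F U i = F U' i)
    (hM : ∀ U, ∀ i ∈ I, ((F U i).card : ℝ) ≤ M) :
    ((univ.filter fun U : ι → Y => ∀ i ∈ I, U i ∈ F U i).card : ℝ) * (Fintype.card Y : ℝ) ^ I.card ≤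
      M ^ I.card * (Fintype.card Y : ℝ) ^ Fintype.card ι := by
  set A : Finset (ι → Y) := univ.filter fun U : ι → Y => ∀ i ∈ I, U i ∈ F U i with hA
  have hfib : ∀ V : {a // a ∉ I} → Y,
      ((A.filter fun U => (fun a : {a // a ∉ I} => U a.1) = V).card : ℝ) ≤ M ^ I.card := by
    intro V
    rcases (A.filter fun U => (fun a : {a // a ∉ I} => U a.1) = V).eq_empty_or_nonempty with h | h
    · rw [h, card_empty, Nat.cast_zero]
      exact pow_nonneg hM0 _
    · obtain ⟨U0, hU0⟩ := h
      have hU0' := (mem_filter.1 hU0).2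
      have hsub : (A.filter fun U => (fun a : {a // a ∉ I} => U a.1) = V) ⊆
          Fintype.piFinset (fun a => if a ∈ I then F U0 a else {U0 a}) := by
        intro U hU
        obtain ⟨hUA, hUV⟩ := mem_filter.1 hU
        have hag : ∀ a, a ∉ I → U a = U0 a := by
          intro a ha
          have h1 := congrFun hUV ⟨a, ha⟩
          have h2 := congrFun hU0' ⟨a, ha⟩
          exact h1.trans h2.symm
        rw [Fintype.mem_piFinset]
        intro a
        by_cases ha : a ∈ I
        · rw [if_pos ha, ← hF U U0 hag a ha]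
          exact (mem_filter.1 hUA).2 a ha
        · rw [if_neg ha, mem_singleton]
          exact hag a ha
      have hcard : ((Fintype.piFinset
          (fun a => if a ∈ I then F U0 a else {U0 a})).card : ℝ) ≤ M ^ I.card := by
        rw [Fintype.card_piFinset, Nat.cast_prod]
        have h1 : ∏ a : ι, (((if a ∈ I then F U0 a else {U0 a} : Finset Y).card : ℕ) : ℝ) =
            ∏ a ∈ I, ((F U0 a).card : ℝ) := by
          rw [← Finset.prod_subset (Finset.subset_univ I)]
          · exact Finset.prod_congr rfl fun a ha => by rw [if_pos ha]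
          · intro a _ ha
            rw [if_neg ha, card_singleton, Nat.cast_one]
        rw [h1]
        calc ∏ a ∈ I, ((F U0 a).card : ℝ) ≤ ∏ _a ∈ I, M :=
              Finset.prod_le_prod (fun a _ => Nat.cast_nonneg _) fun a ha => hM U0 a ha
          _ = M ^ I.card := by rw [Finset.prod_const]
      refine le_trans ?_ hcard
      exact_mod_cast Finset.card_le_card hsub
  have hsum : (A.card : ℝ) ≤ (Fintype.card Y : ℝ) ^ (Fintype.card ι - I.card) * M ^ I.card := by
    have h1 : A.card = ∑ V : {a // a ∉ I} → Y,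
        (A.filter fun U => (fun a : {a // a ∉ I} => U a.1) = V).card :=
      Finset.card_eq_sum_card_fiberwise fun U _ => Finset.mem_univ _
    rw [h1, Nat.cast_sum]
    calc ∑ V : {a // a ∉ I} → Y,
          ((A.filter fun U => (fun a : {a // a ∉ I} => U a.1) = V).card : ℝ)
        ≤ ∑ _V : {a // a ∉ I} → Y, M ^ I.card := Finset.sum_le_sum fun V _ => hfib V
      _ = (Fintype.card Y : ℝ) ^ (Fintype.card ι - I.card) * M ^ I.card := by
          rw [Finset.sum_const, Finset.card_univ, nsmul_eq_mul, Fintype.card_fun,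
            Fintype.card_subtype_compl, Fintype.card_coe, Nat.cast_pow]
  have hle : I.card ≤ Fintype.card ι := Finset.card_le_univ I
  calc (A.card : ℝ) * (Fintype.card Y : ℝ) ^ I.card
      ≤ ((Fintype.card Y : ℝ) ^ (Fintype.card ι - I.card) * M ^ I.card) *
        (Fintype.card Y : ℝ) ^ I.card :=
        mul_le_mul_of_nonneg_right hsum (pow_nonneg (Nat.cast_nonneg _) _)
    _ = M ^ I.card * ((Fintype.card Y : ℝ) ^ (Fintype.card ι - I.card) *
        (Fintype.card Y : ℝ) ^ I.card) := by ring
    _ = M ^ I.card * (Fintype.card Y : ℝ) ^ Fintype.card ι := by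
        rw [← pow_add, Nat.sub_add_cancel hle]

end Pool.Agent.MP2cea29
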