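import Pool.Agent.Lib.MP_2cea29_lc.Core
import Pool.Agent.Lib.MP_2cea29_lc.Indep

/-!
# MP_2cea29_lc module BAD2: union bound over J, I, e
-/

namespace Pool.Agent.MP2cea29

open Finset Classical

/-- union bound with a real bound for every member -/
theorem bad2_union {α β : Type} (S : Finset β) (s : Finset α) (f : α → Finset β) (B : ℝ)
    (h : ∀ x ∈ S, ∃ a ∈ s, x ∈ f a) (hB : ∀ a ∈ s, ((f a).card : ℝ) ≤ B) :
    (S.card : ℝ) ≤ s.card * B := by
  have h1 : S ⊆ s.biUnion f := by
    intro x hx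
    obtain ⟨a, ha, hxa⟩ := h x hx
    exact mem_biUnion.2 ⟨a, ha, hxa⟩
  calc (S.card : ℝ) ≤ ((s.biUnion f).card : ℝ) := by exact_mod_cast card_le_card h1
    _ ≤ ((∑ a ∈ s, (f a).card : ℕ) : ℝ) := by exact_mod_cast card_biUnion_le
    _ = ∑ a ∈ s, ((f a).card : ℝ) := by push_cast; rfl
    _ ≤ ∑ a ∈ s, B := sum_le_sum hB
    _ = s.card * B := by rw [sum_const, nsmul_eq_mul]

/-- the range of the selections `e` -/
noncomputable def bad2E (N : ℕ) (J I : Finset (Fin N)) : Finset (Fin N → Finset (Fin N)) :=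
  Fintype.piFinset fun i => if i ∈ I then J.powerset else {∅}

theorem bad2E_card (N : ℕ) (J I : Finset (Fin N)) : (bad2E N J I).card = (2 ^ J.card) ^ I.card := by
  unfold bad2E
  rw [Fintype.card_piFinset]
  have : ∀ i : Fin N, (if i ∈ I then J.powerset else {∅} : Finset (Finset (Fin N))).card =
      if i ∈ I then 2 ^ J.card else 1 := by
    intro i
    split_ifs
    · exact card_powerset J
    · rfl
  simp only [this]
  rw [prod_ite_mem, univ_inter, prod_const]

/-- MODULE BAD2 -/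
theorem bad2_count {Y : Type} [Fintype Y] (N k C : ℕ)
    (F : (Fin N → Y) → Finset (Fin N) → Finset Y) (M : ℝ) (hM0 : 0 ≤ M)
    (hF : ∀ (U U' : Fin N → Y) (e : Finset (Fin N)), (∀ a ∈ e, U a = U' a) → F U e = F U' e)
    (hM : ∀ U e, ((F U e).card : ℝ) ≤ M * Fintype.card Y) :
    ((univ.filter fun U : Fin N → Y => ∃ (J I : Finset (Fin N)) (e : Fin N → Finset (Fin N)),
        Disjoint J I ∧ J.Nonempty ∧ J.card ≤ k ∧ I.card = C * J.card ∧
        ∀ i ∈ I, e i ⊆ J ∧ U i ∈ F U (e i)).card : ℝ) ≤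
      (∑ j ∈ Icc 1 k, ((N : ℝ) * ((N : ℝ) * 2 ^ k * M) ^ C) ^ j) *
        Fintype.card (Fin N → Y) := by
  have hcard : (Fintype.card (Fin N → Y) : ℝ) = (Fintype.card Y : ℝ) ^ N := by
    rw [Fintype.card_fun, Fintype.card_fin]
    push_cast
    rfl
  have hrhs : 0 ≤ (∑ j ∈ Icc 1 k, ((N : ℝ) * ((N : ℝ) * 2 ^ k * M) ^ C) ^ j) *
      Fintype.card (Fin N → Y) := by positivity
  -- the trivial case
  rcases Nat.eq_zero_or_pos (Fintype.card Y) with hy | hy
  · have hYe : IsEmpty Y := Fintype.card_eq_zero_iff.1 hy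
    have h0 : (univ.filter fun U : Fin N → Y => ∃ (J I : Finset (Fin N)) (e : Fin N → Finset (Fin N)),
        Disjoint J I ∧ J.Nonempty ∧ J.card ≤ k ∧ I.card = C * J.card ∧
        ∀ i ∈ I, e i ⊆ J ∧ U i ∈ F U (e i)) = ∅ := by
      rw [eq_empty_iff_forall_notMem]
      intro U hU
      obtain ⟨J, I, e, -, ⟨i, -⟩, -⟩ := (mem_filter.1 hU).2
      exact hYe.elim (U i)
    rw [h0]
    simpa using hrhs
  have hy0 : (0 : ℝ) < Fintype.card Y := by exact_mod_cast hy
  -- the bound for fixed J, I, e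
  have key : ∀ (J I : Finset (Fin N)) (e : Fin N → Finset (Fin N)),
      ((univ.filter fun U : Fin N → Y => Disjoint J I ∧ ∀ i ∈ I, e i ⊆ J ∧ U i ∈ F U (e i)).card : ℝ) ≤
        M ^ I.card * (Fintype.card Y : ℝ) ^ N := by
    intro J I e
    by_cases hJI : Disjoint J I ∧ ∀ i ∈ I, e i ⊆ J
    · obtain ⟨hJI, he⟩ := hJI
      have h1 := count_indep I (fun U i => F U (e i)) (M * Fintype.card Y) (by positivity)
        (fun U U' hUU' i hi => hF U U' (e i) fun a ha => hUU' a fun haI =>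
          disjoint_left.1 hJI (he i hi ha) haI)
        (fun U i _ => hM U (e i))
      rw [Fintype.card_fin, mul_pow] at h1
      have h1' : ((univ.filter fun U : Fin N → Y => ∀ i ∈ I, U i ∈ F U (e i)).card : ℝ) *
          (Fintype.card Y : ℝ) ^ I.card ≤
          M ^ I.card * (Fintype.card Y : ℝ) ^ I.card * (Fintype.card Y : ℝ) ^ N := by
        refine le_trans (le_of_eq ?_) h1
        congr 3
        ext U
        simp only [mem_filter, mem_univ, true_and]
      have h2 : (univ.filter fun U : Fin N → Y => Disjoint J I ∧ ∀ i ∈ I, e i ⊆ J ∧ U i ∈ F U (e i)) =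
          univ.filter fun U : Fin N → Y => ∀ i ∈ I, U i ∈ F U (e i) := by
        apply filter_congr
        intro U _
        exact ⟨fun h i hi => (h.2 i hi).2, fun h => ⟨hJI, fun i hi => ⟨he i hi, h i hi⟩⟩⟩
      rw [h2]
      have h3 : (0 : ℝ) < (Fintype.card Y : ℝ) ^ I.card := by positivity
      refine le_of_mul_le_mul_right (le_trans h1' (le_of_eq ?_)) h3
      ring
    · have h2 : (univ.filter fun U : Fin N → Y => Disjoint J I ∧ ∀ i ∈ I, e i ⊆ J ∧ U i ∈ F U (e i)) = ∅ := by
        rw [eq_empty_iff_forall_notMem]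
        intro U hU
        have h := (mem_filter.1 hU).2
        exact hJI ⟨h.1, fun i hi => (h.2 i hi).1⟩
      rw [h2, card_empty, Nat.cast_zero]
      positivity
  -- the bound for fixed sizes
  have keyj : ∀ j ∈ Icc 1 k, ((univ.filter fun U : Fin N → Y =>
      ∃ (J I : Finset (Fin N)) (e : Fin N → Finset (Fin N)),
        Disjoint J I ∧ J.card = j ∧ I.card = C * j ∧
        ∀ i ∈ I, e i ⊆ J ∧ U i ∈ F U (e i)).card : ℝ) ≤
      ((N : ℝ) * ((N : ℝ) * 2 ^ k * M) ^ C) ^ j * (Fintype.card Y : ℝ) ^ N := by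
    intro j hj
    have hjk : j ≤ k := (mem_Icc.1 hj).2
    let s : Finset (Σ _ : Finset (Fin N) × Finset (Fin N), Fin N → Finset (Fin N)) :=
      (powersetCard j univ ×ˢ powersetCard (C * j) univ).sigma fun p => bad2E N p.1 p.2
    have hs : (s.card : ℝ) ≤ (N : ℝ) ^ j * (N : ℝ) ^ (C * j) * ((2 : ℝ) ^ k) ^ (C * j) := by
      have h1 : s.card ≤ (N ^ j * N ^ (C * j)) * (2 ^ k) ^ (C * j) := by
        rw [card_sigma]
        calc ∑ p ∈ powersetCard j univ ×ˢ powersetCard (C * j) univ, (bad2E N p.1 p.2).card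
            ≤ ∑ p ∈ (powersetCard j univ ×ˢ powersetCard (C * j) univ :
                Finset (Finset (Fin N) × Finset (Fin N))), (2 ^ k) ^ (C * j) := by
              apply sum_le_sum
              intro p hp
              obtain ⟨hp1, hp2⟩ := mem_product.1 hp
              rw [bad2E_card, (mem_powersetCard.1 hp1).2, (mem_powersetCard.1 hp2).2]
              exact Nat.pow_le_pow_left (Nat.pow_le_pow_right (by norm_num) hjk) _
          _ = (N.choose j * N.choose (C * j)) * (2 ^ k) ^ (C * j) := by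
              rw [sum_const, smul_eq_mul, card_product, card_powersetCard, card_powersetCard,
                card_univ, Fintype.card_fin]
          _ ≤ (N ^ j * N ^ (C * j)) * (2 ^ k) ^ (C * j) :=
              Nat.mul_le_mul_right _ (Nat.mul_le_mul (Nat.choose_le_pow _ _) (Nat.choose_le_pow _ _))
      exact_mod_cast h1
    have h2 := bad2_union (univ.filter fun U : Fin N → Y =>
      ∃ (J I : Finset (Fin N)) (e : Fin N → Finset (Fin N)),
        Disjoint J I ∧ J.card = j ∧ I.card = C * j ∧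
        ∀ i ∈ I, e i ⊆ J ∧ U i ∈ F U (e i)) s
      (fun q => univ.filter fun U : Fin N → Y => Disjoint q.1.1 q.1.2 ∧
        ∀ i ∈ q.1.2, q.2 i ⊆ q.1.1 ∧ U i ∈ F U (q.2 i))
      (M ^ (C * j) * (Fintype.card Y : ℝ) ^ N)
      (by
        intro U hU
        obtain ⟨J, I, e, hJI, hJ, hI, he⟩ := (mem_filter.1 hU).2
        refine ⟨⟨(J, I), fun i => if i ∈ I then e i else ∅⟩, ?_, ?_⟩
        · refine mem_sigma.2 ⟨mem_product.2 ⟨mem_powersetCard.2 ⟨subset_univ _, hJ⟩,
            mem_powersetCard.2 ⟨subset_univ _, hI⟩⟩, ?_⟩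
          refine Fintype.mem_piFinset.2 fun i => ?_
          dsimp only
          split_ifs with hi
          · exact mem_powerset.2 (he i hi).1
          · exact mem_singleton.2 rfl
        · refine mem_filter.2 ⟨mem_univ _, hJI, fun i hi => ?_⟩
          dsimp only
          rw [if_pos hi]
          exact he i hi)
      (by
        intro q hq
        have h := (mem_sigma.1 hq).1
        have hI : q.1.2.card = C * j := (mem_powersetCard.1 (mem_product.1 h).2).2
        rw [← hI]
        exact key q.1.1 q.1.2 q.2)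
    refine le_trans h2 ?_
    have h3 : 0 ≤ M ^ (C * j) * (Fintype.card Y : ℝ) ^ N := by positivity
    refine le_trans (mul_le_mul_of_nonneg_right hs h3) (le_of_eq ?_)
    rw [mul_pow (N : ℝ), ← pow_mul, mul_pow, mul_pow]
    ring
  -- union over j
  have hsub : (univ.filter fun U : Fin N → Y => ∃ (J I : Finset (Fin N)) (e : Fin N → Finset (Fin N)),
        Disjoint J I ∧ J.Nonempty ∧ J.card ≤ k ∧ I.card = C * J.card ∧
        ∀ i ∈ I, e i ⊆ J ∧ U i ∈ F U (e i)) ⊆
      (Icc 1 k).biUnion fun j => univ.filter fun U : Fin N → Y =>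
      ∃ (J I : Finset (Fin N)) (e : Fin N → Finset (Fin N)),
        Disjoint J I ∧ J.card = j ∧ I.card = C * j ∧
        ∀ i ∈ I, e i ⊆ J ∧ U i ∈ F U (e i) := by
    intro U hU
    obtain ⟨J, I, e, hJI, hJ, hJk, hI, he⟩ := (mem_filter.1 hU).2
    exact mem_biUnion.2 ⟨J.card, mem_Icc.2 ⟨hJ.card_pos, hJk⟩,
      mem_filter.2 ⟨mem_univ _, J, I, e, hJI, rfl, hI, he⟩⟩
  rw [hcard, sum_mul]
  refine le_trans ?_ (sum_le_sum keyj)
  refine le_trans (Nat.cast_le.2 (card_le_card hsub)) ?_
  refine le_trans (Nat.cast_le.2 card_biUnion_le) ?_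
  push_cast
  exact le_rfl

end Pool.Agent.MP2cea29
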