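import Pool.Agent.Lib.MP_2cea29_lc.Core

/-!
# Multi-domination in graphs of large minimum degree (MP_2cea29_lc, module DOM)
-/

namespace Pool.Agent.MP2cea29

open Finset Classical

/-- MODULE DOM -/
theorem exists_multidom {V : Type} (r : V → V → Prop) (hr : ∀ u v, r u v → r v u)
    (S : Finset V) (hS : S.Nonempty) (C d : ℕ) (hd : 1 ≤ d)
    (hdeg : ∀ v ∈ S, (6 * C + 7) * d ≤ (S.filter (r v)).card) :
    ∃ J I : Finset V, J ⊆ S ∧ I ⊆ S ∧ Disjoint J I ∧ J.Nonempty ∧ I.card = C * J.card ∧
      ∀ i ∈ I, d ≤ (J.filter (r i)).card := by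
  set h : ℕ := S.card with hh
  have hh0 : 0 < h := Finset.card_pos.2 hS
  set Φ : Finset V → ℕ := fun J => ∑ v ∈ S, (d - (J.filter (r v)).card) with hΦ
  set Fam : Finset (Finset V) :=
    S.powerset.filter fun J => 2 * Φ J + 3 * (C + 1) * d * J.card ≤ 2 * h * d with hFam
  have hne : Fam.Nonempty := by
    refine ⟨∅, Finset.mem_filter.2 ⟨Finset.empty_mem_powerset S, ?_⟩⟩
    have : Φ ∅ = h * d := by
      rw [hΦ]
      simp [hh]
    rw [this, Finset.card_empty]
    linarith
  obtain ⟨J, hJ, hmax⟩ := Finset.exists_max_image Fam Finset.card hne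
  obtain ⟨hJS, hinv⟩ := Finset.mem_filter.1 hJ
  rw [Finset.mem_powerset] at hJS
  set U : Finset V := S.filter fun v => (J.filter (r v)).card < d with hU
  have hUS : U ⊆ S := Finset.filter_subset _ _
  -- few unsatisfied vertices
  have hUcard : 4 * U.card < h := by
    by_contra hcon
    push Not at hcon
    have hUpos : 0 < U.card := by omega
    -- double counting
    have hdc : ∑ w ∈ S \ J, (U.filter fun v => r v w).card =
        ∑ v ∈ U, ((S \ J).filter fun w => r v w).card := by
      simp only [Finset.card_filter]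
      rw [Finset.sum_comm]
    have hlow : ∀ v ∈ U, (6 * C + 6) * d ≤ ((S \ J).filter fun w => r v w).card := by
      intro v hv
      have h1 := hdeg v (hUS hv)
      have h2 : (J.filter (r v)).card < d := (Finset.mem_filter.1 hv).2
      have h3 : (S.filter (r v)).card ≤ ((S \ J).filter fun w => r v w).card +
          (J.filter (r v)).card := by
        rw [← Finset.card_union_of_disjoint]
        · refine Finset.card_le_card ?_
          intro w hw
          obtain ⟨hw1, hw2⟩ := Finset.mem_filter.1 hw
          by_cases hwJ : w ∈ J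
          · exact Finset.mem_union_right _ (Finset.mem_filter.2 ⟨hwJ, hw2⟩)
          · exact Finset.mem_union_left _
              (Finset.mem_filter.2 ⟨Finset.mem_sdiff.2 ⟨hw1, hwJ⟩, hw2⟩)
        · rw [Finset.disjoint_left]
          intro w hw hw'
          exact (Finset.mem_sdiff.1 (Finset.mem_filter.1 hw).1).2 (Finset.mem_filter.1 hw').1
      have h4 : (6 * C + 7) * d = (6 * C + 6) * d + d := by ring
      omega
    have hsum : U.card * ((6 * C + 6) * d) ≤ ∑ w ∈ S \ J, (U.filter fun v => r v w).card := by
      rw [hdc, ← smul_eq_mul, ← Finset.sum_const]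
      exact Finset.sum_le_sum hlow
    have hex : ∃ w ∈ S \ J, U.card * ((6 * C + 6) * d) ≤ (U.filter fun v => r v w).card * h := by
      by_contra hno
      push Not at hno
      have hpos : 0 < U.card * ((6 * C + 6) * d) := by positivity
      have hne' : (S \ J).Nonempty := by
        rw [Finset.nonempty_iff_ne_empty]
        intro h0
        rw [h0, Finset.sum_empty] at hsum
        omega
      have h1 : ∑ w ∈ S \ J, (U.filter fun v => r v w).card * h <
          ∑ _w ∈ S \ J, U.card * ((6 * C + 6) * d) :=
        Finset.sum_lt_sum_of_nonempty hne' hno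
      rw [← Finset.sum_mul, Finset.sum_const, smul_eq_mul] at h1
      have h2 : (S \ J).card ≤ h := Finset.card_le_card Finset.sdiff_subset
      have h3 : (S \ J).card * (U.card * ((6 * C + 6) * d)) ≤
          h * (U.card * ((6 * C + 6) * d)) := Nat.mul_le_mul_right _ h2
      have h4 : U.card * ((6 * C + 6) * d) * h ≤
          (∑ w ∈ S \ J, (U.filter fun v => r v w).card) * h := Nat.mul_le_mul_right _ hsum
      have h5 : U.card * ((6 * C + 6) * d) * h = h * (U.card * ((6 * C + 6) * d)) := by ring
      omega
    obtain ⟨w, hw, hwδ⟩ := hex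
    obtain ⟨hwS, hwJ⟩ := Finset.mem_sdiff.1 hw
    set δ : ℕ := (U.filter fun v => r v w).card with hδ
    have hδ2 : 3 * (C + 1) * d ≤ 2 * δ := by
      have h1 : h * ((6 * C + 6) * d) ≤ 4 * U.card * ((6 * C + 6) * d) :=
        Nat.mul_le_mul_right _ hcon
      have h2 : h * ((6 * C + 6) * d) ≤ h * (4 * δ) := by
        calc h * ((6 * C + 6) * d) ≤ 4 * U.card * ((6 * C + 6) * d) := h1
          _ = 4 * (U.card * ((6 * C + 6) * d)) := by ring
          _ ≤ 4 * (δ * h) := Nat.mul_le_mul_left _ hwδ
          _ = h * (4 * δ) := by ring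
      have h3 : (6 * C + 6) * d ≤ 4 * δ := Nat.le_of_mul_le_mul_left h2 hh0
      have h4 : (6 * C + 6) * d = 2 * (3 * (C + 1) * d) := by ring
      omega
    have hΦ' : Φ (insert w J) + δ ≤ Φ J := by
      have hδsum : δ = ∑ v ∈ S, if (J.filter (r v)).card < d ∧ r v w then 1 else 0 := by
        rw [hδ, hU, Finset.filter_filter, Finset.card_filter]
      rw [hδsum, hΦ]
      simp only
      rw [← Finset.sum_add_distrib]
      refine Finset.sum_le_sum fun v _ => ?_
      by_cases hvw : r v w
      · have h1 : ((insert w J).filter (r v)).card = (J.filter (r v)).card + 1 := by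
          rw [Finset.filter_insert, if_pos hvw, Finset.card_insert_of_notMem]
          intro h2
          exact hwJ (Finset.mem_filter.1 h2).1
        rw [h1]
        by_cases h3 : (J.filter (r v)).card < d
        · rw [if_pos ⟨h3, hvw⟩]
          omega
        · rw [if_neg (fun h4 => h3 h4.1)]
          omega
      · rw [if_neg (fun h4 => hvw h4.2), Finset.filter_insert, if_neg hvw]
        omega
    have hins : insert w J ∈ Fam := by
      refine Finset.mem_filter.2 ⟨?_, ?_⟩
      · rw [Finset.mem_powerset]
        exact Finset.insert_subset hwS hJS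
      · rw [Finset.card_insert_of_notMem hwJ]
        have h1 : 3 * (C + 1) * d * (J.card + 1) = 3 * (C + 1) * d * J.card + 3 * (C + 1) * d := by
          ring
        rw [h1]
        omega
    have h1 := hmax _ hins
    rw [Finset.card_insert_of_notMem hwJ] at h1
    omega
  have hJne : J.Nonempty := by
    rw [Finset.nonempty_iff_ne_empty]
    intro h0
    have h1 : U = S := by
      rw [hU, h0]
      refine Finset.filter_true_of_mem fun v _ => ?_
      simp only [Finset.filter_empty, Finset.card_empty]
      omega
    rw [h1] at hUcard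
    omega
  have hJcard : 3 * ((C + 1) * J.card) ≤ 2 * h := by
    have h1 : d * (3 * ((C + 1) * J.card)) ≤ d * (2 * h) := by
      have h2 : 3 * (C + 1) * d * J.card = d * (3 * ((C + 1) * J.card)) := by ring
      have h3 : 2 * h * d = d * (2 * h) := by ring
      omega
    exact Nat.le_of_mul_le_mul_left h1 hd
  set I₀ : Finset V := (S \ J) \ U with hI₀
  have hI₀card : C * J.card ≤ I₀.card := by
    have h1 : (S \ J).card ≤ I₀.card + U.card := by
      have := Finset.card_le_card_sdiff_add_card (s := S \ J) (t := U)
      omega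
    have h2 : S.card ≤ (S \ J).card + J.card := by
      have := Finset.card_le_card_sdiff_add_card (s := S) (t := J)
      omega
    have h3 : (C + 1) * J.card = C * J.card + J.card := by ring
    omega
  obtain ⟨I, hI, hIcard⟩ := Finset.exists_subset_card_eq hI₀card
  refine ⟨J, I, hJS, ?_, ?_, hJne, hIcard, ?_⟩
  · intro v hv
    exact (Finset.mem_sdiff.1 (Finset.mem_sdiff.1 (hI hv)).1).1
  · rw [Finset.disjoint_left]
    intro v hv hv'
    exact (Finset.mem_sdiff.1 (Finset.mem_sdiff.1 (hI hv')).1).2 hv
  · intro v hv
    have h1 := Finset.mem_sdiff.1 (hI hv)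
    have h2 := (Finset.mem_sdiff.1 h1.1).1
    by_contra hcon
    push Not at hcon
    exact h1.2 (Finset.mem_filter.2 ⟨h2, hcon⟩)

end Pool.Agent.MP2cea29
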