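import Pool.Agent.Lib.MP_2cea29_lc.Core
import Pool.Agent.Lib.MP_2cea29_lc.Avoid

/-!
# Number of partial assignments which fit (MP_2cea29_lc, module FIT)
-/

namespace Pool.Agent.MP2cea29

open Finset Classical

/-- MODULE FIT -/
theorem fit_count {X S : Type} [Fintype X] [Fintype S] (val : S → Option Bool) (r : ℕ)
    (hr : 2 ≤ r) (hval : ValOK val (r + 1)) (A K : Finset X) (hAK : Disjoint A K) (G : X → Bool)
    (F : Finset (Finset X)) (hdis : (F : Set (Finset X)).PairwiseDisjoint id)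
    (hT : ∀ T ∈ F, T.card ≤ 3 ∧ Disjoint T (A ∪ K)) :
    ((univ.filter fun y : X → S => (∀ x ∈ K, val (y x) = none) ∧
        (∀ x, x ∉ A → x ∉ K → val (y x) ≠ some (!G x)) ∧
        ∀ T ∈ F, ∃ x ∈ T, val (y x) ≠ some (G x)).card : ℝ) ≤
      ((r : ℝ) / (r + 1)) ^ Fintype.card X * ((1 + 1 / (r : ℝ)) ^ A.card *
        (1 - 1 / (r : ℝ)) ^ K.card * (1 - 1 / (r : ℝ) ^ 3) ^ F.card) *
        Fintype.card (X → S) := by
  have hr0 : (0 : ℝ) < r := by exact_mod_cast (by omega : 0 < r)
  have hr1 : (1 : ℝ) ≤ r := by exact_mod_cast (by omega : 1 ≤ r)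
  -- the unique symbols
  have hsym : ∀ b : Bool, ∃ s, val s = some b := by
    intro b
    obtain ⟨s, hs⟩ := Finset.card_eq_one.1 (hval.one b)
    refine ⟨s, ?_⟩
    have : s ∈ univ.filter fun s => val s = some b := by rw [hs]; exact Finset.mem_singleton_self s
    exact (Finset.mem_filter.1 this).2
  choose sym hsym using hsym
  -- cardinalities
  have hcard1 : (univ.filter fun s => val s = none).card = r - 1 := by
    have h1 := Finset.card_eq_sum_card_fiberwise (s := (univ : Finset S))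
      (t := (univ : Finset (Option Bool))) (f := val) (fun r _ => Finset.mem_coe.2 (Finset.mem_univ _))
    rw [Finset.card_univ, hval.card_eq, Fintype.sum_option, Fintype.sum_bool, hval.one, hval.one]
      at h1
    omega
  have hcard2 : ∀ b : Bool, (univ.filter fun s => val s ≠ some b).card = r := by
    intro b
    have h1 := Finset.card_filter_add_card_filter_not (s := (univ : Finset S))
      (fun s => val s = some b)
    rw [Finset.card_univ, hval.card_eq, hval.one] at h1
    have h2 : (univ.filter fun s => val s ≠ some b) = univ.filter fun s => ¬ val s = some b := rfl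
    rw [h2]
    omega
  set B : X → Finset S := fun x => if x ∈ K then univ.filter fun s => val s = none else
    if x ∈ A then univ else univ.filter fun s => val s ≠ some (!G x) with hB
  set z : X → S := fun x => sym (G x) with hz
  have hBK : ∀ x ∈ K, (B x).card = r - 1 := by
    intro x hx
    rw [hB]
    simp only [hx, if_true]
    exact hcard1
  have hBA : ∀ x ∈ A, (B x).card = r + 1 := by
    intro x hx
    have hxK : x ∉ K := Finset.disjoint_left.1 hAK hx
    rw [hB]
    simp only [hx, hxK, if_true, if_false]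
    rw [Finset.card_univ, hval.card_eq]
  have hB0 : ∀ x, x ∉ A → x ∉ K → (B x).card = r := by
    intro x hxA hxK
    rw [hB]
    simp only [hxA, hxK, if_false]
    exact hcard2 _
  have hTAK : ∀ T ∈ F, ∀ x ∈ T, x ∉ A ∧ x ∉ K := by
    intro T hTF x hx
    have h1 := Finset.disjoint_left.1 (hT T hTF).2 hx
    rw [Finset.mem_union, not_or] at h1
    exact h1
  have hzB : ∀ T ∈ F, ∀ x ∈ T, z x ∈ B x := by
    intro T hTF x hx
    obtain ⟨h1, h2⟩ := hTAK T hTF x hx
    rw [hB]
    simp only [h1, h2, if_false, Finset.mem_filter, Finset.mem_univ, true_and]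
    rw [hz]
    simp only [hsym]
    intro h3
    have h4 : G x = !G x := Option.some.inj h3
    cases hG : G x <;> rw [hG] at h4 <;> simp at h4
  have hcount := avoid_count B z F hdis hzB
  -- the inclusion
  have hsub : (univ.filter fun y : X → S => (∀ x ∈ K, val (y x) = none) ∧
        (∀ x, x ∉ A → x ∉ K → val (y x) ≠ some (!G x)) ∧
        ∀ T ∈ F, ∃ x ∈ T, val (y x) ≠ some (G x)) ⊆
      (Fintype.piFinset B).filter fun y => ∀ T ∈ F, ∃ x ∈ T, y x ≠ z x := by
    intro y hy
    obtain ⟨h1, h2, h3⟩ := (Finset.mem_filter.1 hy).2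
    rw [Finset.mem_filter, Fintype.mem_piFinset]
    refine ⟨fun x => ?_, fun T hTF => ?_⟩
    · rw [hB]
      by_cases hxK : x ∈ K
      · simp only [hxK, if_true, Finset.mem_filter, Finset.mem_univ, true_and]
        exact h1 x hxK
      · by_cases hxA : x ∈ A
        · simp only [hxK, hxA, if_true, if_false, Finset.mem_univ]
        · simp only [hxK, hxA, if_false, Finset.mem_filter, Finset.mem_univ, true_and]
          exact h2 x hxA hxK
    · obtain ⟨x, hx, hne⟩ := h3 T hTF
      refine ⟨x, hx, fun h4 => hne ?_⟩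
      rw [h4]
      exact hsym (G x)
  have hle : ((univ.filter fun y : X → S => (∀ x ∈ K, val (y x) = none) ∧
        (∀ x, x ∉ A → x ∉ K → val (y x) ≠ some (!G x)) ∧
        ∀ T ∈ F, ∃ x ∈ T, val (y x) ≠ some (G x)).card : ℝ) ≤
      (∏ x, ((B x).card : ℝ)) * ∏ T ∈ F, (1 - ∏ x ∈ T, ((B x).card : ℝ)⁻¹) := by
    rw [← hcount]
    exact_mod_cast Finset.card_le_card hsub
  refine hle.trans ?_
  -- the product of the cardinalities
  have hprod : ∏ x, ((B x).card : ℝ) = (r : ℝ) ^ Fintype.card X * ((1 + 1 / (r : ℝ)) ^ A.card *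
      (1 - 1 / (r : ℝ)) ^ K.card) := by
    have e1 : (1 + 1 / (r : ℝ)) ^ A.card = ∏ x, if x ∈ A then (1 + 1 / (r : ℝ)) else 1 := by
      rw [Finset.prod_ite_mem, Finset.univ_inter, Finset.prod_const]
    have e2 : (1 - 1 / (r : ℝ)) ^ K.card = ∏ x, if x ∈ K then (1 - 1 / (r : ℝ)) else 1 := by
      rw [Finset.prod_ite_mem, Finset.univ_inter, Finset.prod_const]
    have e3 : (r : ℝ) ^ Fintype.card X = ∏ _x : X, (r : ℝ) := by
      rw [Finset.prod_const, Finset.card_univ]
    rw [e1, e2, e3, ← Finset.prod_mul_distrib, ← Finset.prod_mul_distrib]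
    refine Finset.prod_congr rfl fun x _ => ?_
    by_cases hxK : x ∈ K
    · have hxA : x ∉ A := fun h => Finset.disjoint_left.1 hAK h hxK
      rw [hBK x hxK, if_neg hxA, if_pos hxK, Nat.cast_sub (by omega)]
      field_simp
      push_cast
      ring
    · by_cases hxA : x ∈ A
      · rw [hBA x hxA, if_pos hxA, if_neg hxK]
        field_simp
        push_cast
        ring
      · rw [hB0 x hxA hxK, if_neg hxA, if_neg hxK]
        ring
  have hfac : ∏ T ∈ F, (1 - ∏ x ∈ T, ((B x).card : ℝ)⁻¹) ≤ (1 - 1 / (r : ℝ) ^ 3) ^ F.card := by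
    rw [← Finset.prod_const]
    have hTprod : ∀ T ∈ F, ∏ x ∈ T, ((B x).card : ℝ)⁻¹ = ((r : ℝ)⁻¹) ^ T.card := by
      intro T hTF
      rw [← Finset.prod_const]
      refine Finset.prod_congr rfl fun x hx => ?_
      obtain ⟨h1, h2⟩ := hTAK T hTF x hx
      rw [hB0 x h1 h2]
    refine Finset.prod_le_prod ?_ ?_
    · intro T hTF
      rw [hTprod T hTF, sub_nonneg]
      exact pow_le_one₀ (inv_nonneg.2 hr0.le) (inv_le_one_of_one_le₀ hr1)
    · intro T hTF
      rw [hTprod T hTF]
      have h1 : ((r : ℝ)⁻¹) ^ 3 ≤ ((r : ℝ)⁻¹) ^ T.card :=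
        pow_le_pow_of_le_one (inv_nonneg.2 hr0.le) (inv_le_one_of_one_le₀ hr1) (hT T hTF).1
      have h2 : 1 / (r : ℝ) ^ 3 = ((r : ℝ)⁻¹) ^ 3 := by rw [inv_pow, one_div]
      rw [h2]
      linarith
  have h1r : 0 ≤ 1 - 1 / (r : ℝ) := by
    rw [sub_nonneg, div_le_one hr0]
    exact hr1
  have hcardfun : (Fintype.card (X → S) : ℝ) = ((r : ℝ) + 1) ^ Fintype.card X := by
    rw [Fintype.card_fun, hval.card_eq]
    push_cast
    rfl
  rw [hprod, hcardfun]
  calc (r : ℝ) ^ Fintype.card X * ((1 + 1 / (r : ℝ)) ^ A.card * (1 - 1 / (r : ℝ)) ^ K.card) *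
        ∏ T ∈ F, (1 - ∏ x ∈ T, ((B x).card : ℝ)⁻¹)
      ≤ (r : ℝ) ^ Fintype.card X * ((1 + 1 / (r : ℝ)) ^ A.card * (1 - 1 / (r : ℝ)) ^ K.card) *
        (1 - 1 / (r : ℝ) ^ 3) ^ F.card := by
        refine mul_le_mul_of_nonneg_left hfac ?_
        have := pow_nonneg h1r K.card
        positivity
    _ = ((r : ℝ) / (r + 1)) ^ Fintype.card X * ((1 + 1 / (r : ℝ)) ^ A.card *
        (1 - 1 / (r : ℝ)) ^ K.card * (1 - 1 / (r : ℝ) ^ 3) ^ F.card) *
        ((r : ℝ) + 1) ^ Fintype.card X := by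
        rw [div_pow]
        have h2 : ((r : ℝ) + 1) ^ Fintype.card X ≠ 0 := by positivity
        field_simp

end Pool.Agent.MP2cea29
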