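import Pool.Agent.Lib.MP_2cea29_lc.Core

/-! A dense set contains a subset of large minimum degree. -/

namespace Pool.Agent.MP2cea29

open Finset Classical

/-- MODULE MIN -/
theorem exists_mindeg {V : Type} [LinearOrder V] (r : V → V → Prop) (hr : ∀ u v, r u v → r v u)
    (hirr : ∀ v, ¬ r v v) (g : ℕ) (S : Finset V) (h : g * S.card < eCount r S) :
    ∃ S' ⊆ S, S'.Nonempty ∧ ∀ v ∈ S', g < (S'.filter (r v)).card := by
  induction S using Finset.strongInduction with
  | H S ih =>
    have hne : S.Nonempty := by
      rw [Finset.nonempty_iff_ne_empty]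
      rintro rfl
      simp [eCount] at h
    by_cases hall : ∀ v ∈ S, g < (S.filter (r v)).card
    · exact ⟨S, Finset.Subset.refl _, hne, hall⟩
    · push Not at hall
      obtain ⟨v, hv, hvg⟩ := hall
      have h1 : eCount r S ≤ eCount r (S.erase v) + (S.filter (r v)).card := by
        have h2 : ((S ×ˢ S).filter fun p => p.1 < p.2 ∧ r p.1 p.2) ⊆
            (((S.erase v) ×ˢ (S.erase v)).filter fun p => p.1 < p.2 ∧ r p.1 p.2) ∪
              (S.filter (r v)).image (fun u => if v < u then (v, u) else (u, v)) := by
          rintro ⟨a, b⟩ hp
          rw [Finset.mem_filter, Finset.mem_product] at hp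
          obtain ⟨⟨ha, hb⟩, hab, hrab⟩ := hp
          simp only at ha hb hab hrab
          rw [Finset.mem_union]
          by_cases hav : a = v
          · subst hav
            right
            rw [Finset.mem_image]
            exact ⟨b, Finset.mem_filter.2 ⟨hb, hrab⟩, by rw [if_pos hab]⟩
          · by_cases hbv : b = v
            · subst hbv
              right
              rw [Finset.mem_image]
              exact ⟨a, Finset.mem_filter.2 ⟨ha, hr _ _ hrab⟩, by rw [if_neg (not_lt.2 hab.le)]⟩
            · left
              rw [Finset.mem_filter, Finset.mem_product]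
              exact ⟨⟨Finset.mem_erase.2 ⟨hav, ha⟩, Finset.mem_erase.2 ⟨hbv, hb⟩⟩, hab, hrab⟩
        calc eCount r S = ((S ×ˢ S).filter fun p => p.1 < p.2 ∧ r p.1 p.2).card := rfl
          _ ≤ _ := Finset.card_le_card h2
          _ ≤ _ := Finset.card_union_le _ _
          _ ≤ eCount r (S.erase v) + (S.filter (r v)).card := by
              unfold eCount
              gcongr
              exact Finset.card_image_le
      have hcard : (S.erase v).card + 1 = S.card := Finset.card_erase_add_one hv
      have h3 : g * (S.erase v).card < eCount r (S.erase v) := by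
        have h4 : g * S.card = g * (S.erase v).card + g := by rw [← hcard]; ring
        omega
      obtain ⟨S', hS', h5⟩ := ih (S.erase v) (Finset.erase_ssubset hv) h3
      exact ⟨S', hS'.trans (Finset.erase_subset _ _), h5⟩

end Pool.Agent.MP2cea29
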