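import Pool.Agent.Lib.MP_2cea29_lc.Core

/-!
# MP_2cea29_lc module NUM: a numerical inequality
-/

namespace Pool.Agent.MP2cea29

open Finset Classical

/-- MODULE NUM -/
theorem num_bound (r : ℕ) (hr : 2 ≤ r) (ε : ℝ) (hε : 0 < ε) (d : ℕ)
    (hd : 9 * (r : ℝ) ^ 3 / ε ≤ d) (n a κ t : ℕ)
    (hgood : 1 ≤ (8 : ℝ) ^ n * ((1 - 1 / (r : ℝ)) ^ a * (1 + 1 / (r : ℝ)) ^ κ) ^ d)
    (hgap : ε * n ≤ t + (a + κ)) :
    (1 + 1 / (r : ℝ)) ^ a * (1 - 1 / (r : ℝ)) ^ κ * (1 - 1 / (r : ℝ) ^ 3) ^ t ≤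
      Real.exp (-(ε / (2 * (r : ℝ) ^ 3) * n)) := by
  have hr0 : (0 : ℝ) < r := by
    have : (0 : ℕ) < r := by omega
    exact_mod_cast this
  have hr2 : (2 : ℝ) ≤ r := by exact_mod_cast hr
  set p : ℝ := 1 / (r : ℝ) with hp
  have hp0 : 0 < p := by rw [hp]; positivity
  have hp2 : p ≤ 1 / 2 := by
    rw [hp]
    exact one_div_le_one_div_of_le two_pos hr2
  have hp3 : 1 / (r : ℝ) ^ 3 = p ^ 3 := by rw [hp, one_div_pow]
  have hp3' : ε / (2 * (r : ℝ) ^ 3) = ε * p ^ 3 / 2 := by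
    rw [← hp3]
    field_simp
  rw [hp3, hp3']
  have hpp : p ^ 2 ≤ 1 / 4 := by nlinarith
  have hppp : p ^ 3 ≤ p ^ 2 / 2 := by nlinarith [sq_nonneg p]
  have hp30 : 0 < p ^ 3 := by positivity
  set A := Real.log (1 + p) with hA
  set B := -Real.log (1 - p) with hB
  have hA0 : 0 < A := Real.log_pos (by linarith)
  have hAp : A ≤ p := by
    have := Real.log_le_sub_one_of_pos (show (0 : ℝ) < 1 + p by linarith)
    linarith
  have hBp : p ≤ B := by
    have := Real.log_le_sub_one_of_pos (show (0 : ℝ) < 1 - p by linarith)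
    linarith
  have hBA : p ^ 2 ≤ B - A := by
    have h1 : Real.log ((1 - p) * (1 + p)) = Real.log (1 - p) + Real.log (1 + p) :=
      Real.log_mul (by linarith) (by linarith)
    have h2 : (1 - p) * (1 + p) = 1 - p ^ 2 := by ring
    have h3 := Real.log_le_sub_one_of_pos (show (0 : ℝ) < 1 - p ^ 2 by linarith)
    rw [← h2, h1] at h3
    linarith
  have hB0 : 0 < B := by linarith
  -- the first inequality
  have hd0 : (0 : ℝ) < d := lt_of_lt_of_le (by positivity) hd
  have hl8 : Real.log 8 ≤ 2.08 := by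
    have h1 : (8 : ℝ) = 2 ^ 3 := by norm_num
    rw [h1, Real.log_pow]
    have := Real.log_two_lt_d9
    push_cast
    linarith
  have hl80 : 0 < Real.log 8 := Real.log_pos (by norm_num)
  have h1 : (a : ℝ) * B ≤ κ * A + Real.log 8 / d * n := by
    have h2 := Real.log_le_log one_pos hgood
    have e1 : (1 - p) ^ a ≠ 0 := pow_ne_zero _ (by linarith)
    have e2 : (1 + p) ^ κ ≠ 0 := pow_ne_zero _ (by linarith)
    rw [Real.log_one, Real.log_mul (by positivity) (pow_ne_zero _ (mul_ne_zero e1 e2)),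
      Real.log_pow, Real.log_pow, Real.log_mul e1 e2, Real.log_pow, Real.log_pow] at h2
    have h3 : 0 ≤ (n : ℝ) * Real.log 8 + d * (κ * A - a * B) := by
      have : (n : ℝ) * Real.log 8 + d * (a * Real.log (1 - p) + κ * Real.log (1 + p)) =
          (n : ℝ) * Real.log 8 + d * (κ * A - a * B) := by rw [hA, hB]; ring
      rw [← this]; exact h2
    have h4 : Real.log 8 / d * n + (κ * A - a * B) = ((n : ℝ) * Real.log 8 + d * (κ * A - a * B)) / d := by
      field_simp
    have h5 : 0 ≤ Real.log 8 / d * n + (κ * A - a * B) := by rw [h4]; positivity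
    linarith
  set η := Real.log 8 / d with hη
  have hη0 : 0 < η := div_pos hl80 hd0
  have hηle : η ≤ 2.08 * (ε * p ^ 3) / 9 := by
    rw [hη, div_le_iff₀ hd0]
    have h2 : 9 / (p ^ 3 * ε) ≤ d := by
      refine le_trans (le_of_eq ?_) hd
      rw [← hp3]
      field_simp
    have h3 : 9 ≤ d * (p ^ 3 * ε) := by
      rwa [div_le_iff₀ (by positivity)] at h2
    have h4 : 2.08 * (ε * p ^ 3) / 9 * d = 2.08 * (d * (p ^ 3 * ε)) / 9 := by ring
    rw [h4]
    linarith
  -- main estimate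
  set q := (A + p ^ 3) / B with hq
  have hq0 : 0 ≤ q := by rw [hq]; positivity
  have hqB : q * B = A + p ^ 3 := by rw [hq]; field_simp
  have hq54 : q ≤ 5 / 4 := by
    rw [hq, div_le_iff₀ hB0]
    nlinarith
  have hAq : A * q ≤ B - p ^ 3 := by
    have h2 : A * q * B ≤ (B - p ^ 3) * B := by
      rw [mul_assoc, hqB]
      nlinarith
    exact le_of_mul_le_mul_right h2 hB0
  have hE1 : (a : ℝ) * (A + p ^ 3) ≤ κ * (B - p ^ 3) + 5 / 4 * η * n := by
    have h2 : (a : ℝ) * (A + p ^ 3) = (a * B) * q := by rw [← hqB]; ring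
    rw [h2]
    have h3 : (a : ℝ) * B * q ≤ (κ * A + η * n) * q := mul_le_mul_of_nonneg_right h1 hq0
    have h4 : (κ : ℝ) * (A * q) ≤ κ * (B - p ^ 3) := mul_le_mul_of_nonneg_left hAq (by positivity)
    have h5 : η * n * q ≤ η * n * (5 / 4) := mul_le_mul_of_nonneg_left hq54 (by positivity)
    nlinarith
  have hL3 : Real.log (1 - p ^ 3) ≤ - p ^ 3 := by
    have := Real.log_le_sub_one_of_pos (show (0 : ℝ) < 1 - p ^ 3 by linarith)
    linarith
  have hE : (a : ℝ) * A - κ * B + t * Real.log (1 - p ^ 3) ≤ -(ε * p ^ 3 / 2 * n) := by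
    have h2 : (t : ℝ) * Real.log (1 - p ^ 3) ≤ t * (- p ^ 3) :=
      mul_le_mul_of_nonneg_left hL3 (by positivity)
    have h3 : (ε * n - (a + κ)) * p ^ 3 ≤ t * p ^ 3 :=
      mul_le_mul_of_nonneg_right (by linarith) hp30.le
    have h4 : 5 / 4 * η * n ≤ 5 / 4 * (2.08 * (ε * p ^ 3) / 9) * n := by
      apply mul_le_mul_of_nonneg_right _ (by positivity)
      linarith
    have h5 : 0 ≤ ε * p ^ 3 * n := by positivity
    nlinarith
  have f1 : (1 + p) ^ a = Real.exp (a * A) := by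
    rw [hA, Real.exp_nat_mul, Real.exp_log (by linarith)]
  have f2 : (1 - p) ^ κ = Real.exp (-(κ * B)) := by
    have : -((κ : ℝ) * B) = κ * Real.log (1 - p) := by rw [hB]; ring
    rw [this, Real.exp_nat_mul, Real.exp_log (by linarith)]
  have f3 : (1 - p ^ 3) ^ t = Real.exp (t * Real.log (1 - p ^ 3)) := by
    rw [Real.exp_nat_mul, Real.exp_log (by linarith)]
  rw [f1, f2, f3, ← Real.exp_add, ← Real.exp_add]
  apply Real.exp_le_exp.2
  linarith

end Pool.Agent.MP2cea29
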