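import Pool.Agent.Lib.MP_2cea29_lc.Core
import Pool.Agent.Lib.MP_2cea29_lc.Dom
import Pool.Agent.Lib.MP_2cea29_lc.Min
import Pool.Agent.Lib.MP_2cea29_lc.Fit
import Pool.Agent.Lib.MP_2cea29_lc.Num
import Pool.Agent.Lib.MP_2cea29_lc.Bad1
import Pool.Agent.Lib.MP_2cea29_lc.Bad2

/-!
# Densest k-subgraph: soundness in one branch (module BRANCH)
-/

namespace Pool.Agent.MP2cea29

open Finset Classical

theorem branch_mem_absent {ι X : Type} [Fintype X] (P : ι → X → Option Bool) (e : Finset ι)
    (x : X) : x ∈ absentSet P e ↔ ∀ a ∈ e, P a x = none := by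
  unfold absentSet; simp

theorem branch_mem_conf {ι X : Type} [Fintype X] (P : ι → X → Option Bool) (e : Finset ι)
    (x : X) : x ∈ confSet P e ↔ (∃ a ∈ e, P a x = some true) ∧ ∃ a ∈ e, P a x = some false := by
  unfold confSet; simp

theorem branch_mem {Z : Type} {s : Finset Z} {p : Z → Prop} {inst : DecidablePred p} {z : Z} :
    z ∈ @Finset.filter Z p inst s ↔ z ∈ s ∧ p z := @mem_filter Z p inst s z

/-- The values of a sample `y` which fits to the good set `e`. -/
noncomputable def branchF {X S : Type} [Fintype X] [Fintype S] (val : S → Option Bool) (r d : ℕ)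
    (ok : (X → Option Bool) → Prop) {N : ℕ} (U : Fin N → X → S) (e : Finset (Fin N)) :
    Finset (X → S) :=
  if e.card = d ∧ Good r d (fun a x => val (U a x)) e then
    univ.filter fun y => ok (fun x => val (y x)) ∧
      ∀ a ∈ e, Compat (fun x => val (y x)) (fun x => val (U a x))
  else ∅

theorem branchF_congr {X S : Type} [Fintype X] [Fintype S] (val : S → Option Bool) (r d : ℕ)
    (ok : (X → Option Bool) → Prop) {N : ℕ} (U U' : Fin N → X → S) (e : Finset (Fin N))
    (h : ∀ a ∈ e, U a = U' a) : branchF val r d ok U e = branchF val r d ok U' e := by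
  have h1 : absentSet (fun a x => val (U a x)) e = absentSet (fun a x => val (U' a x)) e := by
    ext x
    rw [branch_mem_absent, branch_mem_absent]
    exact forall₂_congr fun a ha => by rw [h a ha]
  have h2 : confSet (fun a x => val (U a x)) e = confSet (fun a x => val (U' a x)) e := by
    ext x
    rw [branch_mem_conf, branch_mem_conf]
    refine and_congr ?_ ?_ <;>
    exact exists_congr fun a => and_congr_right fun ha => by rw [h a ha]
  have h3 : Good r d (fun a x => val (U a x)) e ↔ Good r d (fun a x => val (U' a x)) e := by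
    unfold Good wgt
    rw [h1, h2]
  unfold branchF
  rw [h3]
  split_ifs
  · refine filter_congr fun y _ => ?_
    refine and_congr_right fun _ => ?_
    exact forall₂_congr fun a ha => by rw [h a ha]
  · rfl

theorem branchF_card {X S : Type} [Fintype X] [Fintype S] (val : S → Option Bool) (r : ℕ)
    (hr : 2 ≤ r) (hval : ValOK val (r + 1)) (ok : (X → Option Bool) → Prop) (ε : ℝ) (hε : 0 < ε)
    (hgap : GapProp ok ε) (N d : ℕ) (hd : 9 * (r : ℝ) ^ 3 / ε ≤ d)
    (U : Fin N → X → S) (e : Finset (Fin N)) :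
    ((branchF val r d ok U e).card : ℝ) ≤
      (((r : ℝ) / (r + 1)) ^ Fintype.card X *
        Real.exp (-(ε / (2 * (r : ℝ) ^ 3) * Fintype.card X))) * Fintype.card (X → S) := by
  unfold branchF
  split_ifs with hc
  · set P : Fin N → X → Option Bool := fun a x => val (U a x) with hP
    set A := absentSet P e with hA
    set K := confSet P e with hK
    have hAK : Disjoint A K := by
      rw [Finset.disjoint_left]
      intro x hx hx'
      rw [hA, branch_mem_absent] at hx
      rw [hK, branch_mem_conf] at hx'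
      obtain ⟨a, ha, ha'⟩ := hx'.1
      rw [hx a ha] at ha'
      exact absurd ha' (by simp)
    set G : X → Bool := fun x => decide (∃ a ∈ e, P a x = some true) with hG
    obtain ⟨Fam, hF1, hF2, hF3⟩ := hgap G (A ∪ K)
    have hsub : (univ.filter fun y : X → S => ok (fun x => val (y x)) ∧
        ∀ a ∈ e, Compat (fun x => val (y x)) (P a)) ⊆
        (univ.filter fun y : X → S => (∀ x ∈ K, val (y x) = none) ∧
          (∀ x, x ∉ A → x ∉ K → val (y x) ≠ some (!G x)) ∧
          ∀ T ∈ Fam, ∃ x ∈ T, val (y x) ≠ some (G x)) := by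
      intro y hy
      rw [mem_filter] at hy ⊢
      refine ⟨mem_univ _, ?_, ?_, ?_⟩
      · intro x hx
        rw [hK, branch_mem_conf] at hx
        obtain ⟨⟨a, ha, ha'⟩, ⟨b, hb, hb'⟩⟩ := hx
        cases hv : val (y x) with
        | none => rfl
        | some c =>
          exfalso
          cases c with
          | true => exact hy.2.2 b hb x true hv hb'
          | false => exact hy.2.2 a ha x false hv ha'
      · intro x hxA hxK hv
        have h1 : ∃ a ∈ e, P a x = some (G x) := by
          by_cases hT : ∃ a ∈ e, P a x = some true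
          · obtain ⟨a, ha, ha'⟩ := hT
            refine ⟨a, ha, ?_⟩
            rw [ha']
            have : G x = true := by rw [hG]; exact decide_eq_true ⟨a, ha, ha'⟩
            rw [this]
          · have hGx : G x = false := by rw [hG]; exact decide_eq_false hT
            rw [hGx]
            have h2 : ∃ a ∈ e, P a x ≠ none := by
              by_contra h3
              push Not at h3
              apply hxA
              rw [hA, branch_mem_absent]
              exact h3
            obtain ⟨a, ha, ha'⟩ := h2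
            refine ⟨a, ha, ?_⟩
            cases hv2 : P a x with
            | none => exact absurd hv2 ha'
            | some c =>
              cases c with
              | true => exact absurd ⟨a, ha, hv2⟩ hT
              | false => rfl
        obtain ⟨a, ha, ha'⟩ := h1
        have h4 := hy.2.2 a ha x (!G x) hv
        rw [Bool.not_not] at h4
        exact h4 ha'
      · intro T hT
        by_contra h5
        push Not at h5
        exact (hF2 T hT).2.2 (fun x => val (y x)) h5 hy.2.1
    have h6 := fit_count val r hr hval A K hAK G Fam hF1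
      (fun T hT => ⟨(hF2 T hT).1, (hF2 T hT).2.1⟩)
    have h7 := num_bound r hr ε hε d hd (Fintype.card X) A.card K.card Fam.card (by
      have := hc.2
      unfold Good wgt at this
      exact this) (by
      rw [card_union_of_disjoint hAK] at hF3
      push_cast at hF3
      exact hF3)
    calc (((univ.filter fun y : X → S => ok (fun x => val (y x)) ∧
          ∀ a ∈ e, Compat (fun x => val (y x)) (P a)).card : ℕ) : ℝ)
        ≤ ((univ.filter fun y : X → S => (∀ x ∈ K, val (y x) = none) ∧
          (∀ x, x ∉ A → x ∉ K → val (y x) ≠ some (!G x)) ∧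
          ∀ T ∈ Fam, ∃ x ∈ T, val (y x) ≠ some (G x)).card : ℝ) := by
            exact_mod_cast card_le_card hsub
      _ ≤ _ := h6
      _ ≤ _ := by gcongr
  · simp only [card_empty, Nat.cast_zero]
    positivity

/-- MODULE BRANCH -/
theorem no_branch {X S : Type} [Fintype X] [Fintype S] (val : S → Option Bool) (r : ℕ)
    (hr : 2 ≤ r) (hval : ValOK val (r + 1)) (ok : (X → Option Bool) → Prop) (ε : ℝ) (hε : 0 < ε)
    (hgap : GapProp ok ε) (N k d C : ℕ) (hd1 : 1 ≤ d) (hd : 9 * (r : ℝ) ^ 3 / ε ≤ d)
    (K : ℝ) (hK : 0 ≤ K) (hN : (N : ℝ) ≤ K * (((r : ℝ) + 1) / r) ^ Fintype.card X) :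
    ((univ.filter fun U : Fin N → X → S => ∃ W : Finset (Fin N), W.card ≤ k ∧
        (6 * C + 7) * d * W.card < eCount (SAdj ok fun a x => val (U a x)) W).card : ℝ) ≤
      (K ^ d * (1 / 2) ^ Fintype.card X +
        ∑ j ∈ Icc 1 k, (K * (((r : ℝ) + 1) / r) ^ Fintype.card X * (K * 2 ^ k *
          Real.exp (-(ε / (2 * (r : ℝ) ^ 3) * Fintype.card X))) ^ C) ^ j) *
        Fintype.card (Fin N → X → S) := by
  set M : ℝ := ((r : ℝ) / (r + 1)) ^ Fintype.card X *
    Real.exp (-(ε / (2 * (r : ℝ) ^ 3) * Fintype.card X)) with hM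
  have hM0 : 0 ≤ M := by positivity
  have hb1 := bad1_count (X := X) (S := S) val r hr hval N d K hK hN
  have hb2 := bad2_count (Y := X → S) N k C (branchF val r d ok) M hM0
    (fun U U' e h => branchF_congr val r d ok U U' e h)
    (fun U e => branchF_card val r hr hval ok ε hε hgap N d hd U e)
  have hr0 : (0 : ℝ) < r := by
    have : 0 < r := by omega
    exact_mod_cast this
  have hNM : (N : ℝ) * M ≤ K * Real.exp (-(ε / (2 * (r : ℝ) ^ 3) * Fintype.card X)) := by
    calc (N : ℝ) * M ≤ (K * (((r : ℝ) + 1) / r) ^ Fintype.card X) * M := by gcongr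
      _ = K * ((((r : ℝ) + 1) / r) ^ Fintype.card X * ((r : ℝ) / (r + 1)) ^ Fintype.card X) *
          Real.exp (-(ε / (2 * (r : ℝ) ^ 3) * Fintype.card X)) := by rw [hM]; ring
      _ = K * Real.exp (-(ε / (2 * (r : ℝ) ^ 3) * Fintype.card X)) := by
        rw [← mul_pow]
        have : ((r : ℝ) + 1) / r * (r / (r + 1)) = 1 := by field_simp
        rw [this, one_pow, mul_one]
  have hsum : (∑ j ∈ Icc 1 k, ((N : ℝ) * ((N : ℝ) * 2 ^ k * M) ^ C) ^ j) ≤
      ∑ j ∈ Icc 1 k, (K * (((r : ℝ) + 1) / r) ^ Fintype.card X * (K * 2 ^ k *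
          Real.exp (-(ε / (2 * (r : ℝ) ^ 3) * Fintype.card X))) ^ C) ^ j := by
    refine sum_le_sum fun j _ => ?_
    have h1 : (N : ℝ) * 2 ^ k * M ≤ K * 2 ^ k *
        Real.exp (-(ε / (2 * (r : ℝ) ^ 3) * Fintype.card X)) := by
      calc (N : ℝ) * 2 ^ k * M = 2 ^ k * (N * M) := by ring
        _ ≤ 2 ^ k * (K * Real.exp (-(ε / (2 * (r : ℝ) ^ 3) * Fintype.card X))) := by gcongr
        _ = _ := by ring
    gcongr
  have hfin : ∀ (Z : Type) (A B1 B2 : Finset Z) (x y : ℝ), (∀ U ∈ A, U ∈ B1 ∨ U ∈ B2) →
      (B1.card : ℝ) ≤ x → (B2.card : ℝ) ≤ y → (A.card : ℝ) ≤ x + y := by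
    intro Z A B1 B2 x y h1 h2 h3
    have h4 : A ⊆ B1 ∪ B2 := fun U hU => mem_union.2 (h1 U hU)
    have h5 : (A.card : ℝ) ≤ B1.card + B2.card := by
      exact_mod_cast (card_le_card h4).trans (card_union_le _ _)
    linarith
  refine (hfin _ _ _ _ _ _ ?_ hb1 hb2).trans ?_
  · intro U hU
    rw [branch_mem] at hU
    obtain ⟨-, W, hWk, hW⟩ := hU
    rw [branch_mem, branch_mem]
    set R : Fin N → Fin N → Prop := SAdj ok fun a x => val (U a x) with hR
    have hsymm : ∀ u v, R u v → R v u := by
      intro u v h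
      refine ⟨h.1.symm, h.2.2.1, h.2.1, ?_⟩
      intro x b h1 h2
      have h3 := h.2.2.2 x (!b) h2
      rw [Bool.not_not] at h3
      exact h3 h1
    have hirr : ∀ v, ¬ R v v := fun v h => h.1 rfl
    obtain ⟨S', hS'W, hS'ne, hS'deg⟩ := exists_mindeg R hsymm hirr _ W hW
    obtain ⟨J, I, hJ, hI, hJI, hJne, hIc, hIdeg⟩ := exists_multidom R hsymm S' hS'ne C d hd1
      (fun v hv => (hS'deg v hv).le)
    have hJk : J.card ≤ k := (card_le_card (hJ.trans hS'W)).trans hWk
    have hch : ∀ i ∈ I, ∃ e : Finset (Fin N), e ⊆ J.filter (R i) ∧ e.card = d :=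
      fun i hi => exists_subset_card_eq (hIdeg i hi)
    choose! e he using hch
    by_cases hbad : ∃ i ∈ I, ¬ Good r d (fun a x => val (U a x)) (e i)
    · obtain ⟨i, hi, hi'⟩ := hbad
      exact Or.inl ⟨mem_univ _, e i, (he i hi).2, hi'⟩
    · push Not at hbad
      refine Or.inr ⟨mem_univ _, J, I, e, hJI, hJne, hJk, hIc, fun i hi => ?_⟩
      have h1 := he i hi
      refine ⟨fun a ha => (branch_mem.1 (h1.1 ha)).1, ?_⟩
      unfold branchF
      rw [if_pos ⟨h1.2, hbad i hi⟩, branch_mem]
      have hne : (e i).Nonempty := by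
        rw [← card_pos, h1.2]; omega
      obtain ⟨a0, ha0⟩ := hne
      exact ⟨mem_univ _, (branch_mem.1 (h1.1 ha0)).2.2.1,
        fun a ha => (branch_mem.1 (h1.1 ha)).2.2.2.2⟩
  · rw [← add_mul]
    gcongr

end Pool.Agent.MP2cea29
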