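import Pool.Agent.Lib.MP_2cea29_lc.Red2

/-!
# Densest k-subgraph: properties of the search for parameters
-/

namespace Pool.Agent.MP2cea29

open Pool.Agent.PolyTime

theorem find_flatMap_ge (p : ℕ × ℕ → Bool) (m i k : ℕ) (hk : k < m) (h : p (i, k) = true) :
    ∀ n, i < n → ∃ q, ((List.range n).reverse.flatMap fun i =>
      (List.range m).map fun k => (i, k)).find? p = some q ∧ i ≤ q.1 := by
  intro n
  induction n with
  | zero => intro hi; omega
  | succ n ih =>
    intro hi
    rw [List.range_succ, List.reverse_append, List.reverse_singleton, List.singleton_append,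
      List.flatMap_cons, List.find?_append]
    cases hf : ((List.range m).map fun k => (n, k)).find? p with
    | some q =>
      refine ⟨q, rfl, ?_⟩
      have hm := List.mem_of_find?_eq_some hf
      rw [List.mem_map] at hm
      obtain ⟨k', _, rfl⟩ := hm
      show i ≤ n
      omega
    | none =>
      rw [Option.none_or]
      rw [List.find?_eq_none] at hf
      have hne : i ≠ n := by
        rintro rfl
        exact hf (i, k) (List.mem_map.mpr ⟨k, List.mem_range.mpr hk, rfl⟩) h
      exact ih (by omega)

/-- MODULE CAND -/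
theorem cand_some (ga gf : ℕ × List Bool → Option D) (e t : ℕ) (u : List Unit) (q : ℕ × ℕ)
    (h : cand ga gf e t u = some q) : q.1 < u.length ∧ testP ga gf e t u q = true := by
  unfold cand at h
  refine ⟨?_, List.find?_some (p := fun q => testP ga gf e t u q) h⟩
  have hm := List.mem_of_find?_eq_some h
  rw [List.mem_flatMap] at hm
  obtain ⟨i, hi, hq⟩ := hm
  rw [List.mem_map] at hq
  obtain ⟨k, _, rfl⟩ := hq
  rw [List.mem_reverse, List.mem_range] at hi
  exact hi

theorem cand_ge (ga gf : ℕ × List Bool → Option D) (e t : ℕ) (u : List Unit) (i k : ℕ)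
    (hi : i < u.length) (hk : k < u.length) (h : testP ga gf e t u (i, k) = true) :
    ∃ q, cand ga gf e t u = some q ∧ i ≤ q.1 :=
  find_flatMap_ge (fun q => testP ga gf e t u q) u.length i k hk h u.length hi

theorem ee_mono (t : ℕ) : Monotone (ee t) := by
  intro i j hij
  unfold ee rr
  apply Nat.div_le_div_right
  apply Nat.sub_le_sub_right
  exact Nat.pow_le_pow_right (by norm_num) (by omega)

theorem le_ee (t i : ℕ) (h : 15 * (t + 1) ≤ i) : i / (15 * (t + 1)) ≤ ee t i := by
  unfold ee rr
  apply Nat.div_le_div_right
  have _ := h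
  have h1 : i < 2 ^ i := Nat.lt_two_pow_self
  have h2 : 2 ^ (i + 2) = 4 * 2 ^ i := by ring
  omega

end Pool.Agent.MP2cea29
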