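import Pool.Agent.Lib.MP_2cea29_lc.Defs
import Pool.Agent.Lib.PolyTime.Converse

/-!
# Clocked simulation of time-bounded machines, which knows whether the machine has halted
-/

namespace Pool.Agent.MP2cea29

open Pool.Agent.PolyTime Turing StateTransition

open Conv in
/-- A function computed on `S` in time `T` has a clocked simulation: a polynomial-time function
of the input and of a word `w`, which gives the right code as soon as `w` is long enough, and
gives either nothing or the right code if `w` is shorter. -/
theorem clocked2 {α β : Type} [Enc α] [Enc β] {f : α → β} {S : Set α} {T : α → ℕ}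
    (h : ComputesIn f S T) :
    ∃ g : α × List Bool → Option D, PTime g ∧
      ∀ x ∈ S, (∀ w : List Bool, T x ≤ w.length → g (x, w) = some (enc (f x))) ∧
        ∀ (w : List Bool) (d : D), g (x, w) = some d → d = enc (f x) := by
  obtain ⟨⟨tm, ia, oa⟩, hout⟩ := h
  have := tm.kFin
  have := tm.ΛFin
  have := tm.σFin
  have := tm.Γk₀Fin
  simp only at hout
  -- relevant symbols
  let R : Set (Σ k, tm.Γ k) := (⋃ l, pushed (tm.m l)) ∪
    Set.range (fun a => (⟨tm.k₀, a⟩ : Σ k, tm.Γ k))
  have hR : Finite R :=
    ((Set.finite_iUnion fun l => pushed_finite (tm.m l)).union (Set.finite_range _)).to_subtype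
  have hM : ∀ l, pushed (tm.m l) ⊆ R := fun l x hx => Or.inl (Set.mem_iUnion.2 ⟨l, hx⟩)
  let d : R := ⟨⟨tm.k₀, ia.symm true⟩, Or.inr ⟨_, rfl⟩⟩
  let e := Fintype.equivFin tm.K
  let _ : Enc R := finEnc R
  have _ : EncInj R := finEnc_inj R
  let _ : Enc tm.Λ := finEnc tm.Λ
  have _ : EncInj tm.Λ := finEnc_inj tm.Λ
  let _ : Enc tm.σ := finEnc tm.σ
  have _ : EncInj tm.σ := finEnc_inj tm.σ
  -- initial configuration
  let init : α → CC R tm.Λ tm.σ (Fintype.card tm.K) := fun x =>
    (some tm.main, (tm.initialState, Function.update (fun _ => []) (e tm.k₀)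
      ((bits (enc x)).map fun b => toSym R d tm.k₀ (ia.symm b))))
  have hinit : PTime init := by
    refine (PTime.const _).pair ((PTime.const _).pair ?_)
    refine PTime.updateFn (PTime.const _) (e tm.k₀) ?_
    exact PTime.map (g := fun (_ : α) (b : Bool) => toSym R d tm.k₀ (ia.symm b))
      (PTime.bits' PTime.id) ((PTime.of_finite fun b : Bool => toSym R d tm.k₀ (ia.symm b)).comp
        PTime.snd)
  have hstep := stepC_ptime R d e tm.m
  -- the runs of the machine
  have hrep0 : ∀ x, RepC R d e (initList tm (List.map ia.invFun (bits (enc x)))) (init x) := by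
    intro x
    refine ⟨rfl, rfl, ?_, ?_⟩
    · intro k a ha
      by_cases hk : k = tm.k₀
      · subst hk
        exact Or.inr ⟨a, rfl⟩
      · simp [initList, hk] at ha
    · intro k
      by_cases hk : k = tm.k₀
      · subst hk
        simp only [init, Function.update_self, initList]
        simp [List.map_map, Function.comp_def]
      · simp only [init, initList]
        rw [Function.update_of_ne (fun h => hk (e.injective h))]
        simp [hk]
  have hruns : ∀ (n : ℕ) (c c₁ : tm.Cfg) (c' : CC R tm.Λ tm.σ (Fintype.card tm.K)),
      RepC R d e c c' → (flip bind tm.step)^[n] (some c) = some c₁ →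
      RepC R d e c₁ ((stepC R d e tm.m)^[n] c') := by
    intro n
    induction n with
    | zero =>
      intro c c₁ c' h h1
      simp only [Function.iterate_zero, id_eq, Option.some.injEq] at h1
      subst h1
      exact h
    | succ n ih =>
      intro c c₁ c' h h1
      rw [Function.iterate_succ_apply] at h1
      cases hs : tm.step c with
      | none =>
        have hn : ∀ k : ℕ, (flip bind tm.step)^[k] (none : Option tm.Cfg) = none := by
          intro k
          induction k with
          | zero => rfl
          | succ k ihk => rw [Function.iterate_succ_apply]; exact ihk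
        have : flip bind tm.step (some c) = none := hs
        rw [this, hn n] at h1
        exact absurd h1 (by simp)
      | some c₂ =>
        have : flip bind tm.step (some c) = some c₂ := hs
        rw [this] at h1
        obtain ⟨_, h3⟩ := stepC_spec hM h hs
        rw [Function.iterate_succ_apply]
        exact ih c₂ c₁ _ h3 h1
  -- halted configurations are fixed
  have hfix : ∀ (c : CC R tm.Λ tm.σ (Fintype.card tm.K)), c.1 = none →
      ∀ i : ℕ, (stepC R d e tm.m)^[i] c = c := by
    intro c hc i
    have h1 : stepC R d e tm.m c = c := by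
      obtain ⟨l, p⟩ := c
      simp only at hc
      subst hc
      rfl
    exact Function.iterate_fixed h1 i
  obtain ⟨B, hB⟩ := size_CC (Γ := tm.Γ) (Λ := tm.Λ) (σ := tm.σ) R (Fintype.card tm.K)
  obtain ⟨C, hC⟩ : ∃ C, ∀ l, cost (tm.m l) ≤ C := by
    obtain ⟨C, hC⟩ := (Set.finite_range fun l => cost (tm.m l)).bddAbove
    exact ⟨C, fun l => hC ⟨l, rfl⟩⟩
  have htot : ∀ (i : ℕ) (c : CC R tm.Λ tm.σ (Fintype.card tm.K)),
      tot ((stepC R d e tm.m)^[i] c).2.2 ≤ tot c.2.2 + i * C := by
    intro i
    induction i with
    | zero => intro c; simp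
    | succ i ih =>
      intro c
      rw [Function.iterate_succ_apply, Nat.add_one_mul]
      have h1 := ih (stepC R d e tm.m c)
      have h2 := stepC_tot R d e tm.m C hC c
      omega
  have htot0 : ∀ x, tot (init x).2.2 ≤ size (enc x) := by
    intro x
    have := tot_update (fun _ : Fin (Fintype.card tm.K) => ([] : List R)) (e tm.k₀)
      ((bits (enc x)).map fun b => toSym R d tm.k₀ (ia.symm b))
    have h0 : tot (fun _ : Fin (Fintype.card tm.K) => ([] : List R)) = 0 := by simp [tot]
    rw [h0, List.length_map, List.length_nil] at this
    change tot (Function.update (fun _ : Fin (Fintype.card tm.K) => ([] : List R)) (e tm.k₀) _) ≤ _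
    rw [length_bits] at this
    omega
  -- folding over the clock
  have hfold : ∀ (w : List Bool) (c : CC R tm.Λ tm.σ (Fintype.card tm.K)),
      w.foldl (fun c _ => stepC R d e tm.m c) c = (stepC R d e tm.m)^[w.length] c := by
    intro w
    induction w with
    | nil => intro c; rfl
    | cons b w ih =>
      intro c
      rw [List.foldl_cons, List.length_cons, Function.iterate_succ_apply]
      exact ih _
  have hw : PTime (fun p : α × List Bool =>
      p.2.foldl (fun c _ => stepC R d e tm.m c) (init p.1)) := by
    refine PTime.foldl (f := fun p : α × List Bool => p.2)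
      (h := fun (_ : α × List Bool) c (_ : Bool) => stepC R d e tm.m c) PTime.snd
      (hinit.comp PTime.fst) (hstep.comp (PTime.fst.comp PTime.snd))
      (B := fun k => (k + k * C) * B + B)
      (((PBd.id.add (PBd.id.mul (PBd.const C))).mul (PBd.const B)).add (PBd.const B)) ?_
    intro a l₁ l₂ hl
    obtain ⟨x, w⟩ := a
    simp only at hl
    change size (enc (l₁.foldl (fun c _ => stepC R d e tm.m c) (init x))) ≤ _
    rw [hfold]
    refine (hB _).trans (Nat.add_le_add_right (Nat.mul_le_mul_right B ?_) B)
    have h1 : size (enc (x, w)) = size (enc x) + size (enc w) + 1 := size_pair x w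
    have h2 : w.length + 1 ≤ size (enc w) := length_le_size w
    have h3 : l₁.length ≤ w.length := by rw [hl, List.length_append]; omega
    refine (htot _ _).trans (Nat.add_le_add ((htot0 x).trans (by omega))
      (Nat.mul_le_mul_right C (by omega)))
  -- output
  have hout' : PTime (fun T : Fin (Fintype.card tm.K) → List R =>
      (T (e tm.k₁)).map fun s => match ofSym R tm.k₁ s with
        | none => false
        | some a => oa a) :=
    PTime.map (g := fun (_ : Fin (Fintype.card tm.K) → List R) (s : R) =>
      match ofSym R tm.k₁ s with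
        | none => false
        | some a => oa a) (PTime.appFn PTime.id (e tm.k₁))
      ((PTime.of_finite fun s : R => (match ofSym R tm.k₁ s with
        | none => false
        | some a => oa a : Bool)).comp PTime.snd)
  have hnone : PTime (fun p : α × List Bool =>
      (p.2.foldl (fun c _ => stepC R d e tm.m c) (init p.1)).1.isNone) :=
    (PTime.of_finite fun l : Option tm.Λ => l.isNone).comp hw.fst'
  refine ⟨_, PTime.ite hnone (PTime.some (PTime.parse.comp (hout'.comp hw.snd'.snd')))
    (PTime.const none), fun x hx => ?_⟩
  obtain ⟨ho⟩ := hout x hx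
  have hfin := hruns ho.steps _ _ _ (hrep0 x) ho.evals_in_steps
  -- the label of the configuration is `none` iff the configuration is the final one
  have hkey : ∀ w : List Bool, ((stepC R d e tm.m)^[w.length] (init x)).1 = none →
      (stepC R d e tm.m)^[w.length] (init x) = (stepC R d e tm.m)^[ho.steps] (init x) := by
    intro w hl
    rcases le_total ho.steps w.length with hn | hn
    · obtain ⟨j, hj⟩ := Nat.exists_eq_add_of_le' hn
      rw [hj, Function.iterate_add_apply]
      exact hfix _ hfin.1 j
    · obtain ⟨j, hj⟩ := Nat.exists_eq_add_of_le' hn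
      rw [hj, Function.iterate_add_apply]
      exact (hfix _ hl j).symm
  have hlab : ∀ w : List Bool, T x ≤ w.length →
      ((stepC R d e tm.m)^[w.length] (init x)).1 = none := by
    intro w hT
    have hn : ho.steps ≤ w.length := ho.steps_le_m.trans hT
    obtain ⟨j, hj⟩ := Nat.exists_eq_add_of_le' hn
    rw [hj, Function.iterate_add_apply, hfix _ hfin.1 j]
    exact hfin.1
  -- the output of the final configuration
  have hval : parse (((((stepC R d e tm.m)^[ho.steps] (init x)).2.2 (e tm.k₁)).map fun s =>
      match ofSym R tm.k₁ s with
        | none => false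
        | some a => oa a)) = enc (f x) := by
    have h1 := hfin.2.2
    rw [h1.2 tm.k₁]
    have h2 : (haltList tm (List.map oa.invFun (bits (enc (f x))))).stk tm.k₁ =
        List.map oa.invFun (bits (enc (f x))) := by
      simp [haltList]
    rw [h2, List.map_map, List.map_map]
    have h3 : ∀ b ∈ bits (enc (f x)), (((fun s => match ofSym R tm.k₁ s with
          | none => false
          | some a => oa a) ∘ toSym R d tm.k₁) ∘ oa.invFun) b = b := by
      intro b hb
      have hmem : (⟨tm.k₁, oa.invFun b⟩ : Σ k, tm.Γ k) ∈ R := by
        refine h1.1 tm.k₁ (oa.invFun b) ?_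
        rw [h2]
        exact List.mem_map.2 ⟨b, hb, rfl⟩
      simp only [Function.comp_apply]
      rw [ofSym_toSym R d tm.k₁ _ hmem]
      simp
    rw [List.map_congr_left h3, List.map_id', parse_bits']
  refine ⟨fun w hT => ?_, fun w d' hd => ?_⟩
  · simp only
    rw [hfold, hlab w hT, hkey w (hlab w hT), hval]
    rfl
  · simp only at hd
    rw [hfold] at hd
    by_cases hl : ((stepC R d e tm.m)^[w.length] (init x)).1 = none
    · rw [hl, hkey w hl, hval] at hd
      simpa using hd.symm
    · rw [if_neg (by simpa using hl)] at hd
      exact absurd hd (by simp)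

end Pool.Agent.MP2cea29
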