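import Pool.Agent.Lib.MP_2cea29_lc.Defs
import Pool.Agent.Lib.PolyTime.More
import Pool.Agent.Lib.PolyTime.Arith
import Pool.Agent.Lib.PolyTime.Converse
import Mathlib.Computability.PartrecBasis
import Mathlib.Computability.TuringMachine.Config

/-!
# Computable functions are computed by Mathlib's `TM2` machines

Every function `ℕ → ℕ` which is computable in the sense of Mathlib is computed by a bundled
`TM2` machine, with numbers coded in binary, in some time.
-/

namespace Pool.Agent.MP2cea29

open Pool.Agent.PolyTime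
open SP

/-! ### Relations computed by structured stack programs -/

section rel
variable {α β γ : Type} [Enc α] [Enc β] [Enc γ]

/-- Some structured program transforms the code of `x` into the code of `y` when `R x y`. -/
def SC (R : α → β → Prop) : Prop :=
  ∃ P : SP, ∀ x y, R x y → ∀ m a b c : List Bool, ∃ n,
    Runs P (mk (bits (enc x) ++ m) a b c) (mk (bits (enc y) ++ m) a b c) n

theorem SC.mono {R S : α → β → Prop} (hS : SC S) (h : ∀ x y, R x y → S x y) : SC R := by
  obtain ⟨P, hP⟩ := hS
  exact ⟨P, fun x y hxy => hP x y (h x y hxy)⟩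

theorem SC.of_ptime {f : α → β} (hf : PTime f) : SC fun x y => y = f x := by
  obtain ⟨P, T, -, -, hP, -⟩ := hf.elim
  refine ⟨P, ?_⟩
  rintro x _ rfl m a b c
  exact ⟨_, hP x m a b c⟩

theorem SC.comp {R : α → β → Prop} {S : β → γ → Prop} (hS : SC S) (hR : SC R) :
    SC fun x z => ∃ y, R x y ∧ S y z := by
  obtain ⟨P, hP⟩ := hR
  obtain ⟨Q, hQ⟩ := hS
  refine ⟨P.seq Q, ?_⟩
  rintro x z ⟨y, hxy, hyz⟩ m a b c
  obtain ⟨n, hn⟩ := hP x y hxy m a b c
  obtain ⟨n', hn'⟩ := hQ y z hyz m a b c
  exact ⟨_, Runs.seq hn hn'⟩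

theorem SC.pair {R : α → β → Prop} {S : α → γ → Prop} (hR : SC R) (hS : SC S) :
    SC fun x (p : β × γ) => R x p.1 ∧ S x p.2 := by
  obtain ⟨P, hP⟩ := hR
  obtain ⟨Q, hQ⟩ := hS
  refine ⟨dup.seq (P.seq (swap.seq (Q.seq (swap.seq (push Reg.m true))))), ?_⟩
  rintro x ⟨y, z⟩ ⟨hxy, hxz⟩ m a b c
  have h1 := dup_runs (enc x) m a b c
  obtain ⟨n2, h2⟩ := hP x y hxy (bits (enc x) ++ m) a b c
  have h3 := swap_runs (enc y) (enc x) m a b c
  obtain ⟨n4, h4⟩ := hQ x z hxz (bits (enc y) ++ m) a b c
  have h5 := swap_runs (enc z) (enc y) m a b c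
  have h6 : Runs (push Reg.m true) (mk (bits (enc y) ++ (bits (enc z) ++ m)) a b c)
      (mk (bits (enc (y, z)) ++ m) a b c) 1 := by
    have := @Runs.push_m (bits (enc y) ++ (bits (enc z) ++ m)) a b c true
    simpa [bits, enc_pair] using this
  exact ⟨_, Runs.seq h1 (Runs.seq h2 (Runs.seq h3 (Runs.seq h4 (Runs.seq h5 h6))))⟩

theorem Runs.pop_c_true' {m a b c : List Bool} {P Q R : SP} {s : St} {n : ℕ}
    (h : Runs P (mk m a b c) s n) :
    Runs (pop Reg.c P Q R) (mk m a b (true :: c)) s (n + 1) := by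
  obtain ⟨t, ht, h⟩ := h
  exact ⟨t + 1, by omega, Run.pop_true (l := c) rfl (by simpa using h)⟩

theorem Runs.pop_c_false' {m a b c : List Bool} {P Q R : SP} {s : St} {n : ℕ}
    (h : Runs Q (mk m a b c) s n) :
    Runs (pop Reg.c P Q R) (mk m a b (false :: c)) s (n + 1) := by
  obtain ⟨t, ht, h⟩ := h
  exact ⟨t + 1, by omega, Run.pop_false (l := c) rfl (by simpa using h)⟩

/-- Case distinction. -/
theorem SC.ite {R S : α → β → Prop} {k : α → Bool} (hk : PTime k) (hR : SC R) (hS : SC S) :
    SC fun x y => if k x = true then R x y else S x y := by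
  obtain ⟨C, T, -, -, hC, -⟩ := hk.elim
  obtain ⟨P, hP⟩ := hR
  obtain ⟨Q, hQ⟩ := hS
  refine ⟨(flagProg C).seq (pop Reg.c P Q skip), ?_⟩
  intro x y hxy m a b c
  have h1 := flagProg_runs (hC x (bits (enc x) ++ m) a b c)
  cases hkx : k x with
  | true =>
    rw [hkx] at h1
    rw [hkx] at hxy
    obtain ⟨n, hn⟩ := hP x y (by simpa using hxy) m a b c
    exact ⟨_, Runs.seq h1 (Runs.pop_c_true' hn)⟩
  | false =>
    rw [hkx] at h1
    rw [hkx] at hxy
    obtain ⟨n, hn⟩ := hQ x y (by simpa using hxy) m a b c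
    exact ⟨_, Runs.seq h1 (Runs.pop_c_false' hn)⟩

end rel

/-! ### Codes -/

/-- The relation of a partial function. -/
def rel (f : List ℕ →. List ℕ) (v w : List ℕ) : Prop := w ∈ f v

theorem headI_ptime : PTime (fun v : List ℕ => v.headI) := by
  have h : PTime (fun p : List ℕ × (ℕ × List ℕ) => p.2.1) := PTime.fst.comp PTime.snd
  refine (PTime.list_cases (f := fun v : List ℕ => v) (g := fun _ => 0) PTime.id
    (PTime.const 0) h).of_eq ?_
  intro v
  cases v <;> rfl

theorem headI_zero_ptime : PTime (fun v : List ℕ => decide (v.headI = 0)) :=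
  PTime.eq headI_ptime (PTime.const 0)

theorem headI_pos_ptime : PTime (fun v : List ℕ => !decide (v.headI = 0)) :=
  headI_zero_ptime.not

theorem pred_ptime : PTime (fun v : List ℕ => (v.headI - 1) :: v.tail) :=
  (headI_ptime.sub (PTime.const 1)).cons (PTime.tail PTime.id)

/-- The loop. -/
theorem SC.fix {f : List ℕ →. List ℕ} (hf : SC (rel f)) :
    SC (rel (PFun.fix fun v => (f v).map fun v =>
      if v.headI = 0 then Sum.inl v.tail else Sum.inr v.tail)) := by
  obtain ⟨F, hF⟩ := hf
  obtain ⟨C, TC, -, -, hC, -⟩ := headI_pos_ptime.elim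
  obtain ⟨T, TT, -, -, hT, -⟩ := (PTime.tail (PTime.id (α := List ℕ))).elim
  refine ⟨(push Reg.c true).seq (loop Reg.c (F.seq ((flagProg C).seq T))), ?_⟩
  intro v w hvw m a b c
  have key : ∃ n, Runs (loop Reg.c (F.seq ((flagProg C).seq T)))
      (mk (bits (enc v) ++ m) a b (true :: c)) (mk (bits (enc w) ++ m) a b c) n := by
    refine PFun.fixInduction (C := fun v => ∃ n, Runs (loop Reg.c (F.seq ((flagProg C).seq T)))
      (mk (bits (enc v) ++ m) a b (true :: c)) (mk (bits (enc w) ++ m) a b c) n) hvw ?_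
    intro v' hv' ih
    rcases PFun.mem_fix_iff.1 hv' with h | ⟨v'', h, -⟩
    · rw [Part.mem_map_iff] at h
      obtain ⟨u, hu, he⟩ := h
      by_cases h0 : u.headI = 0
      · rw [if_pos h0] at he
        have he' : u.tail = w := Sum.inl.inj he
        obtain ⟨n1, h1⟩ := hF v' u hu m a b c
        have h2 := flagProg_runs (hC u (bits (enc u) ++ m) a b c)
        have h3 := hT u m a b (false :: c)
        rw [he'] at h3
        have e : (!decide (u.headI = 0)) = false := by simp [h0]
        rw [e] at h2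
        exact ⟨_, Runs.loop_c_true (Runs.seq h1 (Runs.seq h2 h3)) Runs.loop_c_false⟩
      · rw [if_neg h0] at he
        exact absurd he (by simp)
    · obtain ⟨n4, h4⟩ := ih v'' h
      rw [Part.mem_map_iff] at h
      obtain ⟨u, hu, he⟩ := h
      by_cases h0 : u.headI = 0
      · rw [if_pos h0] at he
        exact absurd he (by simp)
      · rw [if_neg h0] at he
        have he' : u.tail = v'' := Sum.inr.inj he
        obtain ⟨n1, h1⟩ := hF v' u hu m a b c
        have h2 := flagProg_runs (hC u (bits (enc u) ++ m) a b c)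
        have h3 := hT u m a b (true :: c)
        rw [he'] at h3
        have e : (!decide (u.headI = 0)) = true := by simp [h0]
        rw [e] at h2
        exact ⟨_, Runs.loop_c_true (Runs.seq h1 (Runs.seq h2 h3)) h4⟩
  obtain ⟨n, hn⟩ := key
  exact ⟨_, Runs.seq Runs.push_c hn⟩

/-- Mathlib's codes for partial recursive functions are computed by stack programs. -/
theorem SC.code (c : Turing.ToPartrec.Code) : SC (rel c.eval) := by
  induction c with
  | zero' =>
    refine (SC.of_ptime (f := fun v : List ℕ => 0 :: v) ((PTime.const 0).cons PTime.id)).mono ?_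
    intro v w h
    rw [rel, Turing.ToPartrec.Code.zero'_eval] at h
    simpa using h
  | succ =>
    refine (SC.of_ptime (f := fun v : List ℕ => [v.headI + 1])
      (headI_ptime.succ.cons (PTime.const []))).mono ?_
    intro v w h
    rw [rel, Turing.ToPartrec.Code.succ_eval] at h
    simpa using h
  | tail =>
    refine (SC.of_ptime (f := fun v : List ℕ => v.tail) (PTime.tail PTime.id)).mono ?_
    intro v w h
    rw [rel, Turing.ToPartrec.Code.tail_eval] at h
    simpa using h
  | cons f fs ihf ihfs =>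
    have h1 : PTime (fun p : List ℕ × List ℕ => p.1.headI :: p.2) :=
      (headI_ptime.comp PTime.fst).cons PTime.snd
    refine (SC.comp (SC.of_ptime h1) (ihf.pair ihfs)).mono ?_
    intro v w h
    rw [rel, Turing.ToPartrec.Code.cons_eval] at h
    simp only [Part.bind_eq_bind, Part.pure_eq_some, Part.mem_bind_iff, Part.mem_some_iff] at h
    obtain ⟨u, hu, z, hz, rfl⟩ := h
    exact ⟨(u, z), ⟨hu, hz⟩, rfl⟩
  | comp f g ihf ihg =>
    refine (SC.comp ihf ihg).mono ?_
    intro v w h
    rw [rel, Turing.ToPartrec.Code.comp_eval] at h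
    simp only [Part.bind_eq_bind, Part.mem_bind_iff] at h
    obtain ⟨u, hu, hw⟩ := h
    exact ⟨u, hu, hw⟩
  | case f g ihf ihg =>
    have h1 := SC.comp ihf (SC.of_ptime (f := fun v : List ℕ => v.tail) (PTime.tail PTime.id))
    have h2 := SC.comp ihg (SC.of_ptime pred_ptime)
    refine (SC.ite headI_zero_ptime h1 h2).mono ?_
    intro v w h
    rw [rel, Turing.ToPartrec.Code.case_eval] at h
    cases hv : v.headI with
    | zero =>
      simp only [hv] at h
      simp only [decide_true, if_true]
      exact ⟨_, rfl, h⟩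
    | succ y =>
      simp only [hv] at h
      simp only [Nat.add_eq_zero_iff, one_ne_zero, and_false, decide_false, Bool.false_eq_true,
        if_false]
      exact ⟨_, rfl, by simpa [hv, rel] using h⟩
  | fix f ihf =>
    refine (SC.fix ihf).mono ?_
    intro v w h
    rw [rel, Turing.ToPartrec.Code.fix_eval] at h
    exact h

/-- Computable functions are computed by stack programs. -/
theorem SC.of_computable (f : ℕ → ℕ) (hf : Computable f) : SC fun x y => y = f x := by
  have h1 : Nat.Partrec' (fun v : List.Vector ℕ 1 => (f v.head : Part ℕ)) := by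
    have h2 : Partrec (fun n : ℕ => (f n : Part ℕ)) := hf
    exact Nat.Partrec'.part_iff₁.2 h2
  obtain ⟨c, hc⟩ := Turing.ToPartrec.Code.exists_code h1
  have hin : SC fun (x : ℕ) (v : List ℕ) => v = [x] :=
    SC.of_ptime (PTime.id.cons (PTime.const []))
  have hout : SC fun (v : List ℕ) (y : ℕ) => y = v.headI := SC.of_ptime headI_ptime
  refine (SC.comp hout (SC.comp (SC.code c) hin)).mono ?_
  rintro x _ rfl
  refine ⟨[f x], ⟨[x], rfl, ?_⟩, rfl⟩
  have := hc ⟨[x], rfl⟩
  rw [rel, this]
  simp [List.Vector.head]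

/-- Computable functions are computed by `TM2` machines. -/
theorem computesIn_of_computable (f : ℕ → ℕ) (hf : Computable f) :
    ∃ T : ℕ → ℕ, ComputesIn f Set.univ T := by
  obtain ⟨P, hP⟩ := SC.of_computable f hf
  have h0 : ∀ x : ℕ, ∃ n, Runs P (mk (bits (enc x)) [] [] []) (mk (bits (enc (f x))) [] [] []) n := by
    intro x
    obtain ⟨n, hn⟩ := hP x (f x) rfl [] [] [] []
    exact ⟨n, by simpa using hn⟩
  choose T hT using h0
  refine ⟨fun x => T x + 1, ⟨toTM P, Equiv.refl Bool, Equiv.refl Bool⟩, ?_⟩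
  intro x _
  obtain ⟨t, ht, hr⟩ := hT x
  have key : Nonempty (Turing.TM2OutputsInTime (toTM P) (bits (enc x))
      (Option.some (bits (enc (f x)))) (T x + 1)) := by
    obtain ⟨ho⟩ := toTM_outputs hr
    exact ⟨⟨ho.toEvalsTo, ho.steps_le_m.trans (Nat.add_le_add_right ht 1)⟩⟩
  have key' : ∀ (l l' : List Bool), l = bits (enc x) → l' = bits (enc (f x)) →
      Nonempty (Turing.TM2OutputsInTime (toTM P) l (Option.some l') (T x + 1)) := by
    rintro _ _ rfl rfl
    exact key
  exact key' _ _ (List.map_id _) (List.map_id _)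

end Pool.Agent.MP2cea29
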