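import Pool.Agent.Lib.MP_2cea29_lc.Defs

/-!
# Densest k-subgraph: definitions for the combinatorial core
-/

namespace Pool.Agent.MP2cea29

open Finset Classical

/-- The number of pairs `u < v` in `S` with `r u v`. -/
noncomputable def eCount {V : Type} [LinearOrder V] (r : V → V → Prop) (S : Finset V) : ℕ :=
  ((S ×ˢ S).filter fun p => p.1 < p.2 ∧ r p.1 p.2).card

/-- `val` maps exactly one of the `q` symbols to `some true`, exactly one to `some false`, and
the others to `none`. -/
structure ValOK {S : Type} [Fintype S] (val : S → Option Bool) (q : ℕ) : Prop where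
  card_eq : Fintype.card S = q
  one : ∀ b : Bool, (univ.filter fun s => val s = some b).card = 1

/-- Two partial assignments without conflict. -/
def Compat {X : Type} (p p' : X → Option Bool) : Prop :=
  ∀ x b, p x = some b → p' x ≠ some (!b)

/-- Variables on which all members of `e` are undefined. -/
noncomputable def absentSet {ι X : Type} [Fintype X] (P : ι → X → Option Bool) (e : Finset ι) :
    Finset X :=
  univ.filter fun x => ∀ a ∈ e, P a x = none

/-- Variables on which two members of `e` are in conflict. -/
noncomputable def confSet {ι X : Type} [Fintype X] (P : ι → X → Option Bool) (e : Finset ι) :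
    Finset X :=
  univ.filter fun x => (∃ a ∈ e, P a x = some true) ∧ ∃ a ∈ e, P a x = some false

/-- The weight of `e`. -/
noncomputable def wgt {ι X : Type} [Fintype X] (r : ℕ) (P : ι → X → Option Bool) (e : Finset ι) :
    ℝ :=
  (1 - 1 / (r : ℝ)) ^ (absentSet P e).card * (1 + 1 / (r : ℝ)) ^ (confSet P e).card

/-- `e` is good. -/
def Good {ι X : Type} [Fintype X] (r d : ℕ) (P : ι → X → Option Bool) (e : Finset ι) : Prop :=
  1 ≤ (8 : ℝ) ^ Fintype.card X * wgt r P e ^ d

/-- The gap property of a set of admissible partial assignments. -/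
def GapProp {X : Type} [Fintype X] (ok : (X → Option Bool) → Prop) (ε : ℝ) : Prop :=
  ∀ (G : X → Bool) (R : Finset X), ∃ F : Finset (Finset X),
    (F : Set (Finset X)).PairwiseDisjoint id ∧
    (∀ T ∈ F, T.card ≤ 3 ∧ Disjoint T R ∧
      ∀ p : X → Option Bool, (∀ x ∈ T, p x = some (G x)) → ¬ ok p) ∧
    ε * Fintype.card X ≤ F.card + R.card

/-- Adjacency of samples: different indices, admissible and without conflict. -/
def SAdj {ι X : Type} (ok : (X → Option Bool) → Prop) (P : ι → X → Option Bool) (a b : ι) : Prop :=
  a ≠ b ∧ ok (P a) ∧ ok (P b) ∧ Compat (P a) (P b)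

end Pool.Agent.MP2cea29
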