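import Mathlib
import Pool.Agent.Lib.PolyTime.Defs

/-!
# Densest k-subgraph and Gap-ETH: definitions
-/

namespace Pool.Agent.MP2cea29

open Pool.Agent.PolyTime

/-! ### Time-bounded computations -/

/-- The length of the code of `x`. -/
def len {α : Type} [Enc α] (x : α) : ℕ := (bits (enc x)).length

/-- Some Turing machine (in the sense of Mathlib's `Turing.FinTM2`) transforms the code of every
`x ∈ S` into the code of `f x` in at most `T x` steps. -/
def ComputesIn {α β : Type} [Enc α] [Enc β] (f : α → β) (S : Set α) (T : α → ℕ) : Prop :=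
  ∃ M : Turing.TM2ComputableAux Bool Bool, ∀ x ∈ S,
    Nonempty (Turing.TM2OutputsInTime M.tm ((bits (enc x)).map M.inputAlphabet.invFun)
      (some ((bits (enc (f x))).map M.outputAlphabet.invFun)) (T x))

/-! ### Gap-ETH -/

/-- A literal: a variable, named by a natural number, and the value which makes it true. -/
abbrev Lit : Type := ℕ × Bool

/-- A clause: the disjunction of three literals. -/
abbrev Clause : Type := Lit × Lit × Lit

/-- A 3-CNF formula: a list of clauses. -/
abbrev CNF : Type := List Clause

/-- The assignment `τ` makes all three literals of the clause false. -/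
def Violates (τ : ℕ → Bool) (c : Clause) : Prop :=
  τ c.1.1 ≠ c.1.2 ∧ τ c.2.1.1 ≠ c.2.1.2 ∧ τ c.2.2.1 ≠ c.2.2.2

instance (τ : ℕ → Bool) (c : Clause) : Decidable (Violates τ c) := by
  unfold Violates; infer_instance

/-- The number of variables that occur in the formula. -/
def nvar (φ : CNF) : ℕ := (φ.flatMap fun c => [c.1.1, c.2.1.1, c.2.2.1]).toFinset.card

/-- The number of clauses violated by the assignment `τ`. -/
def nviol (τ : ℕ → Bool) (φ : CNF) : ℕ := (φ.filter fun c => decide (Violates τ c)).length

/-- Some assignment violates no clause. -/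
def Satisfiable (φ : CNF) : Prop := ∃ τ : ℕ → Bool, nviol τ φ = 0

/-- Every assignment violates at least an `ε` fraction of the clauses (and there are clauses). -/
def Far (ε : ℝ) (φ : CNF) : Prop := φ ≠ [] ∧ ∀ τ : ℕ → Bool, ε * φ.length ≤ nviol τ φ

/-- The set of words of `L` random bits for which the algorithm `A` gives the answer `b` on the
formula `φ`. -/
def answers (A : CNF × List Bool → Bool) (φ : CNF) (L : ℕ) (b : Bool) : Set (Fin L → Bool) :=
  {w | A (φ, List.ofFn w) = b}

/-- There is a randomized algorithm which, given a formula with `n` variables, uses `2 ^ ⌊n / E⌋`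
random bits for some constant `E`, makes at most `C (|φ| + 1) ^ C 2 ^ ⌊n / D⌋` steps for some
constant `C`, and distinguishes satisfiable formulas from those in which every assignment
violates at least an `ε` fraction of the clauses, with error probability at most `1 / 3`. -/
def GapSolver (ε : ℝ) (D : ℕ) : Prop :=
  ∃ (A : CNF × List Bool → Bool) (E C : ℕ), 0 < E ∧
    ComputesIn A {x | x.2.length = 2 ^ (nvar x.1 / E)}
      (fun x => C * (len x.1 + 1) ^ C * 2 ^ (nvar x.1 / D)) ∧
    ∀ φ : CNF,
      (Satisfiable φ →
        2 * 2 ^ 2 ^ (nvar φ / E) ≤ 3 * (answers A φ (2 ^ (nvar φ / E)) true).ncard) ∧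
      (Far ε φ →
        2 * 2 ^ 2 ^ (nvar φ / E) ≤ 3 * (answers A φ (2 ^ (nvar φ / E)) false).ncard)

/-- Randomized Gap-ETH: for some `ε, δ > 0` there is no randomized algorithm in time
`2 ^ (δ n)` (times a polynomial in the size of the formula) for the `ε`-gap problem of 3-SAT. -/
def RandomizedGapETH : Prop := ∃ ε : ℝ, 0 < ε ∧ ∃ D : ℕ, 0 < D ∧ ¬ GapSolver ε D

/-- There is a randomized algorithm in time `2 ^ o(n)` (times a polynomial in the size of the
formula) which distinguishes satisfiable formulas with `n` variables from those in which every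
assignment violates at least an `ε` fraction of the clauses, with error probability at most
`1 / 3`: it uses `2 ^ s n` random bits and makes at most `C (|φ| + 2 ^ s n + 1) ^ C` steps, where
`s n / n` tends to `0` and `s` is computable in polynomial time for numbers in unary. -/
def SubexpGapSolver (ε : ℝ) : Prop :=
  ∃ (A : CNF × List Bool → Bool) (s : ℕ → ℕ) (C : ℕ),
    IsPolyTime enc enc (fun u : List Unit => List.replicate (s u.length) ()) ∧
    Filter.Tendsto (fun n => (s n : ℝ) / n) Filter.atTop (nhds 0) ∧
    ComputesIn A {x | x.2.length = 2 ^ s (nvar x.1)}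
      (fun x => C * (len x.1 + 2 ^ s (nvar x.1) + 1) ^ C) ∧
    ∀ φ : CNF,
      (Satisfiable φ →
        2 * 2 ^ 2 ^ s (nvar φ) ≤ 3 * (answers A φ (2 ^ s (nvar φ)) true).ncard) ∧
      (Far ε φ →
        2 * 2 ^ 2 ^ s (nvar φ) ≤ 3 * (answers A φ (2 ^ s (nvar φ)) false).ncard)

/-- Randomized Gap-ETH, weak form: for some `ε > 0` there is no randomized algorithm in time
`2 ^ o(n)` for the `ε`-gap problem of 3-SAT. -/
def SubexpGapETH : Prop := ∃ ε : ℝ, 0 < ε ∧ ¬ SubexpGapSolver ε

/-! ### Densest k-Subgraph -/

/-- A graph given by adjacency lists: the vertices are `0, ..., G.length - 1`. -/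
abbrev GraphIn : Type := List (List ℕ)

/-- Adjacency: different vertices, one of which is in the list of the other. -/
def AdjIn (G : GraphIn) (u v : ℕ) : Prop := u ≠ v ∧ (v ∈ G.getD u [] ∨ u ∈ G.getD v [])

instance (G : GraphIn) (u v : ℕ) : Decidable (AdjIn G u v) := by
  unfold AdjIn; infer_instance

/-- The number of edges with both ends in `S`. -/
def edgesIn (G : GraphIn) (S : Finset ℕ) : ℕ :=
  ((S ×ˢ S).filter fun p => p.1 < p.2 ∧ AdjIn G p.1 p.2).card

/-- There is an algorithm for Densest k-Subgraph with approximation ratio `α k` and running time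
`f k * (|G| + 1) ^ t k`. -/
def DkSApprox (α : ℕ → ℝ) (f t : ℕ → ℕ) : Prop :=
  ∃ A : GraphIn × ℕ → List ℕ,
    ComputesIn A {x | x.2 ≤ x.1.length} (fun x => f x.2 * (len x.1 + 1) ^ t x.2) ∧
    ∀ (G : GraphIn) (k : ℕ), k ≤ G.length →
      (A (G, k)).toFinset ⊆ Finset.range G.length ∧ (A (G, k)).toFinset.card = k ∧
      ∀ S ⊆ Finset.range G.length, S.card = k →
        (edgesIn G S : ℝ) ≤ α k * edgesIn G (A (G, k)).toFinset

end Pool.Agent.MP2cea29
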