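import Pool.Agent.Lib.MP_2cea29_lc.Red

/-!
# Densest k-subgraph: variables of a formula
-/

namespace Pool.Agent.MP2cea29

open Pool.Agent.PolyTime Finset Classical

theorem nub_aux_nodup (l : List ℕ) : ∀ acc : List ℕ, acc.Nodup →
    (l.foldl (fun acc x => if x ∈ acc then acc else x :: acc) acc).Nodup := by
  induction l with
  | nil => intro acc h; exact h
  | cons a l ih =>
    intro acc h
    rw [List.foldl_cons]
    apply ih
    split_ifs with ha
    · exact h
    · exact List.nodup_cons.2 ⟨ha, h⟩

theorem nub_aux_mem (l : List ℕ) (x : ℕ) : ∀ acc : List ℕ,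
    (x ∈ l.foldl (fun acc x => if x ∈ acc then acc else x :: acc) acc ↔ x ∈ acc ∨ x ∈ l) := by
  induction l with
  | nil => intro acc; simp
  | cons a l ih =>
    intro acc
    rw [List.foldl_cons, ih]
    split_ifs with ha
    · rw [List.mem_cons]
      constructor
      · rintro (h | h)
        · exact Or.inl h
        · exact Or.inr (Or.inr h)
      · rintro (h | h | h)
        · exact Or.inl h
        · exact Or.inl (h ▸ ha)
        · exact Or.inr h
    · rw [List.mem_cons, List.mem_cons]
      tauto

theorem mem_nub (l : List ℕ) (x : ℕ) : x ∈ nub l ↔ x ∈ l := by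
  unfold nub
  rw [nub_aux_mem]
  simp

/-- MODULE VARS -/
theorem vars_nodup (φ : CNF) : (vars φ).Nodup := by
  unfold vars nub
  exact nub_aux_nodup _ [] List.nodup_nil

theorem mem_vars (φ : CNF) (x : ℕ) :
    x ∈ vars φ ↔ ∃ c ∈ φ, x = c.1.1 ∨ x = c.2.1.1 ∨ x = c.2.2.1 := by
  unfold vars
  rw [mem_nub]
  unfold occ
  rw [List.mem_flatMap]
  simp

theorem nvar_eq (φ : CNF) : nvar φ = (vars φ).length := by
  unfold nvar
  rw [← List.toFinset_card_of_nodup (vars_nodup φ)]
  congr 1
  ext x
  rw [List.mem_toFinset, List.mem_toFinset]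
  unfold vars
  rw [mem_nub]
  rfl

theorem low_add_high (B : ℕ) (φ : CNF) : (low B φ).length + (high B φ).length = nvar φ := by
  rw [nvar_eq]
  unfold low high
  rw [add_comm]
  have := List.length_eq_length_filter_add (l := vars φ) (fun x => isHigh B φ x)
  exact this.symm

theorem deg_cons (c : Clause) (φ : CNF) (x : ℕ) :
    deg (c :: φ) x = (if occIn x c = true then 1 else 0) + deg φ x := by
  unfold deg
  rw [List.filter_cons]
  split_ifs with h
  · rw [List.length_cons, add_comm]
  · rw [zero_add]

theorem sum_deg_le (S : Finset ℕ) (φ : CNF) : ∑ x ∈ S, deg φ x ≤ 3 * φ.length := by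
  induction φ with
  | nil => simp [deg]
  | cons c φ ih =>
    simp only [deg_cons, sum_add_distrib]
    rw [List.length_cons]
    have h1 : ∑ x ∈ S, (if occIn x c = true then 1 else 0) ≤ 3 := by
      rw [← card_filter]
      refine le_trans (card_le_card (t := {c.1.1, c.2.1.1, c.2.2.1}) ?_) card_le_three
      intro x hx
      have := (mem_filter.1 hx).2
      unfold occIn at this
      simp only [Bool.or_eq_true, decide_eq_true_eq] at this
      simp only [mem_insert, mem_singleton]
      tauto
    omega

theorem high_nodup (B : ℕ) (φ : CNF) : (high B φ).Nodup := (vars_nodup φ).filter _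

theorem low_nodup (B : ℕ) (φ : CNF) : (low B φ).Nodup := (vars_nodup φ).filter _

theorem mem_high (B : ℕ) (φ : CNF) (x : ℕ) :
    x ∈ high B φ ↔ x ∈ vars φ ∧ B * φ.length < deg φ x * (vars φ).length := by
  unfold high
  rw [List.mem_filter]
  unfold isHigh
  rw [decide_eq_true_eq]

theorem mem_low (B : ℕ) (φ : CNF) (x : ℕ) :
    x ∈ low B φ ↔ x ∈ vars φ ∧ deg φ x * (vars φ).length ≤ B * φ.length := by
  unfold low
  rw [List.mem_filter]
  unfold isHigh
  simp

theorem high_le (B : ℕ) (φ : CNF) : (high B φ).length * B ≤ 3 * nvar φ := by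
  rcases Nat.eq_zero_or_pos φ.length with h0 | hpos
  · have h1 : φ = [] := List.length_eq_zero_iff.1 h0
    subst h1
    have : high B ([] : CNF) = [] := by
      rw [List.eq_nil_iff_forall_not_mem]
      intro x hx
      have := ((mem_high B [] x).1 hx).1
      rw [mem_vars] at this
      simp at this
    rw [this]
    simp
  · have h1 : (high B φ).length = (high B φ).toFinset.card :=
      (List.toFinset_card_of_nodup (high_nodup B φ)).symm
    have h2 : (high B φ).toFinset.card * (B * φ.length) ≤
        (3 * φ.length) * (vars φ).length := by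
      calc (high B φ).toFinset.card * (B * φ.length)
          = ∑ x ∈ (high B φ).toFinset, B * φ.length := by
            rw [sum_const, smul_eq_mul]
        _ ≤ ∑ x ∈ (high B φ).toFinset, deg φ x * (vars φ).length := by
            refine sum_le_sum fun x hx => ?_
            rw [List.mem_toFinset, mem_high] at hx
            exact hx.2.le
        _ = (∑ x ∈ (high B φ).toFinset, deg φ x) * (vars φ).length := by
            rw [sum_mul]
        _ ≤ _ := Nat.mul_le_mul_right _ (sum_deg_le _ φ)
    rw [nvar_eq, h1]
    have h3 : φ.length * ((high B φ).toFinset.card * B) ≤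
        φ.length * (3 * (vars φ).length) := by
      calc φ.length * ((high B φ).toFinset.card * B)
          = (high B φ).toFinset.card * (B * φ.length) := by ring
        _ ≤ _ := h2
        _ = _ := by ring
    exact Nat.le_of_mul_le_mul_left h3 hpos

end Pool.Agent.MP2cea29
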