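import Pool.Agent.Lib.MP_2cea29_lc.Red
import Pool.Agent.Lib.MP_2cea29_lc.Vars

/-!
# Densest k-subgraph: the gap property of a formula
-/

namespace Pool.Agent.MP2cea29

open Pool.Agent.PolyTime Finset Classical

theorem getElem_inj_of_nodup {l : List ℕ} (h : l.Nodup) (i j : Fin l.length)
    (hij : l[i] = l[j]) : i = j :=
  (List.nodup_iff_injective_get.1 h) hij

/-- the number of clauses with property `q` is at most the sum of degrees -/
theorem filter_le_sum_deg {ι : Type} (v : ι → ℕ) (S : Finset ι) (q : Clause → Prop)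
    (φ : CNF) (h : ∀ c ∈ φ, q c → ∃ j ∈ S, occIn (v j) c = true) :
    (φ.filter fun c => decide (q c)).length ≤ ∑ j ∈ S, deg φ (v j) := by
  induction φ with
  | nil => simp
  | cons c φ ih =>
    have ih' := ih fun c' hc' hq => h c' (List.mem_cons_of_mem _ hc') hq
    simp only [deg_cons, sum_add_distrib]
    rw [List.filter_cons]
    by_cases hq : q c
    · rw [if_pos (decide_eq_true hq), List.length_cons]
      obtain ⟨j, hj, hocc⟩ := h c List.mem_cons_self hq
      have h1 : 1 ≤ ∑ j ∈ S, (if occIn (v j) c = true then 1 else 0) := by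
        calc 1 = (if occIn (v j) c = true then 1 else 0) := by rw [if_pos hocc]
          _ ≤ _ := single_le_sum (f := fun j => if occIn (v j) c = true then 1 else 0)
              (fun _ _ => Nat.zero_le _) hj
      omega
    · rw [if_neg (by rw [decide_eq_true_eq]; exact hq)]
      omega

/-- MODULE GAP -/
theorem gap_formula (B : ℕ) (hB : 0 < B) (φ : CNF) (ε : ℝ) (hε : 0 < ε) (hfar : Far ε φ)
    (i : ℕ) : (∀ p, ¬ okP B φ i p) ∨ GapProp (okP B φ i) (ε / (3 * B)) := by
  by_cases hall : ∀ p, ¬ okP B φ i p
  · exact Or.inl hall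
  right
  push Not at hall
  obtain ⟨p₀, hp₀⟩ := hall
  obtain ⟨hne, hfar⟩ := hfar
  have hm : 0 < φ.length := List.length_pos_iff.2 hne
  intro G R
  -- the assignment
  obtain ⟨τ, hτl, hτh⟩ : ∃ τ : ℕ → Bool,
      (∀ j : Fin (low B φ).length, τ (low B φ)[j] = G j) ∧
      (∀ x ∈ high B φ, ∃ j : Fin (high B φ).length, (high B φ)[j] = x ∧
        i.bits.getD j false = τ x) := by
    refine ⟨fun x => if h : ∃ j : Fin (low B φ).length, (low B φ)[j] = x then G h.choose
      else if h : ∃ j : Fin (high B φ).length, (high B φ)[j] = x then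
        i.bits.getD h.choose false else false, ?_, ?_⟩
    · intro j
      have hex : ∃ j' : Fin (low B φ).length, (low B φ)[j'] = (low B φ)[j] := ⟨j, rfl⟩
      simp only
      rw [dif_pos hex]
      exact congrArg G (getElem_inj_of_nodup (low_nodup B φ) _ _ hex.choose_spec)
    · intro x hx
      have hnl : ¬ ∃ j : Fin (low B φ).length, (low B φ)[j] = x := by
        rintro ⟨j, hj⟩
        have h1 : x ∈ low B φ := by
          rw [← hj]
          exact List.getElem_mem _
        rw [mem_low] at h1
        rw [mem_high] at hx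
        omega
      have hex : ∃ j : Fin (high B φ).length, (high B φ)[j] = x := by
        obtain ⟨k, hk, hkx⟩ := List.getElem_of_mem hx
        exact ⟨⟨k, hk⟩, hkx⟩
      refine ⟨hex.choose, hex.choose_spec, ?_⟩
      simp only
      rw [dif_neg hnl, dif_pos hex]
  set T : Clause → Finset (Fin (low B φ).length) := fun c =>
    univ.filter fun j => occIn (low B φ)[j] c = true with hT
  have hTcard : ∀ c, (T c).card ≤ 3 := by
    intro c
    rw [hT]
    simp only
    rw [← card_image_of_injective (univ.filter fun j : Fin (low B φ).length =>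
      occIn (low B φ)[j] c = true) (f := fun j => (low B φ)[j])
      (fun a b hab => getElem_inj_of_nodup (low_nodup B φ) a b hab)]
    refine le_trans (card_le_card (t := {c.1.1, c.2.1.1, c.2.2.1}) ?_) card_le_three
    intro x hx
    obtain ⟨j, hj, rfl⟩ := mem_image.1 hx
    have := (mem_filter.1 hj).2
    unfold occIn at this
    simp only [Bool.or_eq_true, decide_eq_true_eq] at this
    simp only [mem_insert, mem_singleton]
    tauto
  have hlit : ∀ c ∈ φ, ∀ x : Lit, (x = c.1 ∨ x = c.2.1 ∨ x = c.2.2) → τ x.1 ≠ x.2 →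
      ∀ p : Fin (low B φ).length → Option Bool, (∀ j ∈ T c, p j = some (G j)) →
        litF B φ i p x := by
    intro c hc x hx hne p hp
    have hocc : x.1 = c.1.1 ∨ x.1 = c.2.1.1 ∨ x.1 = c.2.2.1 := by
      rcases hx with rfl | rfl | rfl
      · exact Or.inl rfl
      · exact Or.inr (Or.inl rfl)
      · exact Or.inr (Or.inr rfl)
    have hv : x.1 ∈ vars φ := (mem_vars φ x.1).2 ⟨c, hc, hocc⟩
    have hb : ∀ b : Bool, b ≠ x.2 → b = !x.2 := by
      intro b hb
      revert hb
      cases b <;> cases x.2 <;> simp
    rcases le_or_gt (deg φ x.1 * (vars φ).length) (B * φ.length) with hlow | hhigh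
    · have hxl : x.1 ∈ low B φ := (mem_low B φ x.1).2 ⟨hv, hlow⟩
      obtain ⟨k, hk, hkx⟩ := List.getElem_of_mem hxl
      left
      refine ⟨⟨k, hk⟩, hkx, ?_⟩
      have hmem : (⟨k, hk⟩ : Fin (low B φ).length) ∈ T c := by
        rw [hT]
        simp only
        rw [mem_filter]
        refine ⟨mem_univ _, ?_⟩
        unfold occIn
        simp only [Bool.or_eq_true, decide_eq_true_eq]
        have hkx' : (low B φ)[(⟨k, hk⟩ : Fin (low B φ).length)] = x.1 := hkx
        rw [hkx']
        tauto
      rw [hp _ hmem]
      have h2 : τ x.1 = G ⟨k, hk⟩ := by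
        rw [← hτl ⟨k, hk⟩]
        exact congrArg τ hkx.symm
      rw [← h2, hb _ hne]
    · have hxh : x.1 ∈ high B φ := (mem_high B φ x.1).2 ⟨hv, hhigh⟩
      obtain ⟨j, hj1, hj2⟩ := hτh x.1 hxh
      right
      exact ⟨j, hj1, by rw [hj2, hb _ hne]⟩
  have hbad : ∀ c ∈ φ, Violates τ c → ∀ p : Fin (low B φ).length → Option Bool,
      (∀ j ∈ T c, p j = some (G j)) → ¬ okP B φ i p := by
    intro c hc hvio p hp hok
    refine hok c hc ⟨?_, ?_, ?_⟩
    · exact hlit c hc c.1 (Or.inl rfl) hvio.1 p hp
    · exact hlit c hc c.2.1 (Or.inr (Or.inl rfl)) hvio.2.1 p hp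
    · exact hlit c hc c.2.2 (Or.inr (Or.inr rfl)) hvio.2.2 p hp
  have hTne : ∀ c ∈ φ, Violates τ c → (T c).Nonempty := by
    intro c hc hvio
    by_contra hemp
    rw [not_nonempty_iff_eq_empty] at hemp
    refine hbad c hc hvio p₀ ?_ hp₀
    intro j hj
    rw [hemp] at hj
    exact absurd hj (notMem_empty j)
  -- a maximal disjoint family
  set 𝒯 : Finset (Finset (Fin (low B φ).length)) :=
    univ.filter fun A => ∃ c ∈ φ, Violates τ c ∧ Disjoint (T c) R ∧ A = T c with h𝒯
  obtain ⟨F, hF, hmax⟩ := exists_max_image
    (𝒯.powerset.filter fun F : Finset (Finset (Fin (low B φ).length)) =>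
      (F : Set (Finset (Fin (low B φ).length))).PairwiseDisjoint id)
    card ⟨∅, by simp⟩
  rw [mem_filter, mem_powerset] at hF
  obtain ⟨hF1, hF2⟩ := hF
  have hFmem : ∀ A ∈ F, ∃ c ∈ φ, Violates τ c ∧ Disjoint (T c) R ∧ A = T c := by
    intro A hA
    have := hF1 hA
    rw [h𝒯, mem_filter] at this
    exact this.2
  refine ⟨F, hF2, ?_, ?_⟩
  · intro A hA
    obtain ⟨c, hc, hvio, hdis, rfl⟩ := hFmem A hA
    exact ⟨hTcard c, hdis, fun p hp => hbad c hc hvio p hp⟩
  · have htouch : ∀ c ∈ φ, Violates τ c →
        ∃ j ∈ R ∪ F.biUnion id, occIn (low B φ)[j] c = true := by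
      intro c hc hvio
      by_contra hcon
      push Not at hcon
      have hj : ∀ j ∈ T c, j ∉ R ∪ F.biUnion id := by
        intro j hj hj2
        exact hcon j hj2 (mem_filter.1 hj).2
      have hdR : Disjoint (T c) R := by
        rw [disjoint_left]
        intro j hj1 hj2
        exact hj j hj1 (mem_union_left _ hj2)
      have hdZ : ∀ A ∈ F, Disjoint (T c) A := by
        intro A hA
        rw [disjoint_left]
        intro j hj1 hj2
        exact hj j hj1 (mem_union_right _ (mem_biUnion.2 ⟨A, hA, hj2⟩))
      have hnF : T c ∉ F := by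
        intro hmem
        have := hdZ _ hmem
        rw [disjoint_self_iff_empty] at this
        exact (hTne c hc hvio).ne_empty this
      have hins : insert (T c) F ∈ 𝒯.powerset.filter fun F :
          Finset (Finset (Fin (low B φ).length)) =>
          (F : Set (Finset (Fin (low B φ).length))).PairwiseDisjoint id := by
        rw [mem_filter, mem_powerset]
        refine ⟨?_, ?_⟩
        · intro A hA
          rcases mem_insert.1 hA with rfl | hA
          · rw [h𝒯, mem_filter]
            exact ⟨mem_univ _, c, hc, hvio, hdR, rfl⟩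
          · exact hF1 hA
        · rw [coe_insert]
          refine hF2.insert fun A hA _ => hdZ A hA
      have := hmax _ hins
      rw [card_insert_of_notMem hnF] at this
      omega
    have h1 : nviol τ φ ≤ ∑ j ∈ R ∪ F.biUnion id, deg φ (low B φ)[j] := by
      have := filter_le_sum_deg (fun j : Fin (low B φ).length => (low B φ)[j])
        (R ∪ F.biUnion id) (Violates τ) φ htouch
      unfold nviol
      refine le_trans (le_of_eq ?_) this
      congr 1
      refine List.filter_congr fun c _ => ?_
      congr
    have h2 : nviol τ φ * (vars φ).length ≤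
        (R ∪ F.biUnion id).card * (B * φ.length) := by
      calc nviol τ φ * (vars φ).length
          ≤ (∑ j ∈ R ∪ F.biUnion id, deg φ (low B φ)[j]) * (vars φ).length :=
            Nat.mul_le_mul_right _ h1
        _ = ∑ j ∈ R ∪ F.biUnion id, deg φ (low B φ)[j] * (vars φ).length := by
            rw [sum_mul]
        _ ≤ ∑ j ∈ R ∪ F.biUnion id, B * φ.length := by
            refine sum_le_sum fun j _ => ?_
            exact ((mem_low B φ (low B φ)[j]).1 (List.getElem_mem _)).2
        _ = _ := by rw [sum_const, smul_eq_mul]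
    have h3 : (R ∪ F.biUnion id).card ≤ R.card + 3 * F.card := by
      refine le_trans (card_union_le _ _) ?_
      have : (F.biUnion id).card ≤ F.card * 3 := card_biUnion_le_card_mul F id 3 fun A hA => by
        obtain ⟨c, _, _, _, rfl⟩ := hFmem A hA
        exact hTcard c
      omega
    have h4 : (vars φ).length ≥ (low B φ).length := by
      have := low_add_high B φ
      rw [nvar_eq] at this
      omega
    have h5 : ε * φ.length * (vars φ).length ≤
        ((R.card : ℝ) + 3 * F.card) * (B * φ.length) := by
      calc ε * φ.length * (vars φ).length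
          ≤ (nviol τ φ : ℝ) * (vars φ).length :=
            mul_le_mul_of_nonneg_right (hfar τ) (Nat.cast_nonneg _)
        _ ≤ ((R ∪ F.biUnion id).card : ℝ) * (B * φ.length) := by exact_mod_cast h2
        _ ≤ _ := by
            refine mul_le_mul_of_nonneg_right ?_ (by positivity)
            exact_mod_cast h3
    have hm' : (0 : ℝ) < φ.length := by exact_mod_cast hm
    have hB' : (0 : ℝ) < B := by exact_mod_cast hB
    have h6 : ε * (vars φ).length ≤ ((R.card : ℝ) + 3 * F.card) * B := by
      have : φ.length * (ε * (vars φ).length) ≤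
          φ.length * (((R.card : ℝ) + 3 * F.card) * B) := by
        calc φ.length * (ε * (vars φ).length) = ε * φ.length * (vars φ).length := by ring
          _ ≤ _ := h5
          _ = _ := by ring
      exact le_of_mul_le_mul_left this hm'
    have h7 : ε * (low B φ).length ≤ ((R.card : ℝ) + 3 * F.card) * B := by
      refine le_trans (mul_le_mul_of_nonneg_left ?_ hε.le) h6
      exact_mod_cast h4
    rw [Fintype.card_fin, div_mul_eq_mul_div, div_le_iff₀ (by positivity)]
    nlinarith [mul_nonneg (Nat.cast_nonneg (α := ℝ) R.card) hB'.le]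

end Pool.Agent.MP2cea29
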