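import Pool.Agent.Lib.MP_2cea29_lc.Red

/-!
# Densest k-subgraph: the constructed graph and the samples
-/

namespace Pool.Agent.MP2cea29

open Pool.Agent.PolyTime Finset Classical

theorem graph_nub_aux (l acc : List ℕ) (h : acc.Nodup) :
    (l.foldl (fun acc x => if x ∈ acc then acc else x :: acc) acc).Nodup := by
  induction l generalizing acc with
  | nil => exact h
  | cons x l ih =>
    rw [List.foldl_cons]
    apply ih
    split_ifs with hx
    · exact h
    · exact List.nodup_cons.2 ⟨hx, h⟩

theorem graph_vars_nodup (φ : CNF) : (vars φ).Nodup := by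
  unfold vars nub
  exact graph_nub_aux _ _ List.nodup_nil

theorem graph_mem_litsLow (B l : ℕ) (φ : CNF) (w : List Bool) (a y : ℕ) (b : Bool) :
    (y, b) ∈ litsLow B l φ w a ↔
      ∃ j : Fin (low B φ).length, (low B φ)[j] = y ∧ sampP B l φ w a j = some b := by
  unfold litsLow
  rw [List.mem_flatMap]
  constructor
  · rintro ⟨⟨x, i⟩, hp, hm⟩
    rw [List.mem_zipIdx_iff_getElem?] at hp
    obtain ⟨hi, hx⟩ := List.getElem?_eq_some_iff.1 hp
    refine ⟨⟨i, hi⟩, ?_⟩
    unfold sampP
    simp only at hm
    cases hs : sym l w (a * (low B φ).length + i) with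
    | none => rw [hs] at hm; simp at hm
    | some c =>
      rw [hs] at hm
      simp only [List.mem_singleton, Prod.mk.injEq] at hm
      obtain ⟨rfl, rfl⟩ := hm
      exact ⟨hx, rfl⟩
  · rintro ⟨j, hj, hs⟩
    refine ⟨((low B φ)[j], j.val), ?_, ?_⟩
    · rw [List.mem_zipIdx_iff_getElem?]
      simp
    · unfold sampP at hs
      simp only [hs, List.mem_singleton, Prod.mk.injEq]
      exact ⟨hj.symm, trivial⟩

theorem graph_mem_litsHigh (B : ℕ) (φ : CNF) (i y : ℕ) (b : Bool) :
    (y, b) ∈ litsHigh B φ i ↔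
      ∃ j : Fin (high B φ).length, (high B φ)[j] = y ∧ i.bits.getD j false = b := by
  unfold litsHigh
  rw [List.mem_map]
  constructor
  · rintro ⟨⟨x, t⟩, hp, hm⟩
    rw [List.mem_zipIdx_iff_getElem?] at hp
    obtain ⟨hi, hx⟩ := List.getElem?_eq_some_iff.1 hp
    simp only [Prod.mk.injEq] at hm
    exact ⟨⟨t, hi⟩, hx.trans hm.1, hm.2⟩
  · rintro ⟨j, hj, hs⟩
    refine ⟨((high B φ)[j], j.val), ?_, ?_⟩
    · rw [List.mem_zipIdx_iff_getElem?]
      simp
    · simp only [Prod.mk.injEq]
      exact ⟨hj, hs⟩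

theorem graph_litF (B l : ℕ) (φ : CNF) (w : List Bool) (i a : ℕ) (x : Lit) :
    (x.1, !x.2) ∈ litsHigh B φ i ++ litsLow B l φ w a ↔ litF B φ i (sampP B l φ w a) x := by
  rw [List.mem_append, graph_mem_litsLow, graph_mem_litsHigh]
  unfold litF
  exact or_comm

theorem graph_okV (B l : ℕ) (φ : CNF) (w : List Bool) (i a : ℕ) :
    okV B l φ w i a = true ↔ okP B φ i (sampP B l φ w a) := by
  unfold okV okP falsified
  rw [List.all_eq_true]
  refine forall₂_congr fun c hc => ?_
  rw [← graph_litF B l φ w i a c.1, ← graph_litF B l φ w i a c.2.1, ← graph_litF B l φ w i a c.2.2]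
  simp only [Bool.not_eq_true', Bool.and_eq_false_iff, decide_eq_false_iff_not]
  tauto

theorem graph_low_inj (B : ℕ) (φ : CNF) (j j' : Fin (low B φ).length)
    (h : (low B φ)[j] = (low B φ)[j']) : j = j' := by
  have hn : (low B φ).Nodup := (graph_vars_nodup φ).filter _
  exact Fin.ext ((hn.getElem_inj_iff).1 h)

theorem graph_consis (B l : ℕ) (φ : CNF) (w : List Bool) (a b : ℕ) :
    consis (litsLow B l φ w a) (litsLow B l φ w b) = true ↔
      Compat (sampP B l φ w a) (sampP B l φ w b) := by
  unfold consis Compat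
  rw [List.all_eq_true]
  simp only [Bool.not_eq_true', decide_eq_false_iff_not]
  constructor
  · intro h j c hj hc
    have h1 := h ((low B φ)[j], c) ((graph_mem_litsLow B l φ w a _ _).2 ⟨j, rfl, hj⟩)
    exact h1 ((graph_mem_litsLow B l φ w b _ _).2 ⟨j, rfl, hc⟩)
  · rintro h ⟨y, c⟩ hy hy'
    obtain ⟨j, hj, hs⟩ := (graph_mem_litsLow B l φ w a _ _).1 hy
    obtain ⟨j', hj', hs'⟩ := (graph_mem_litsLow B l φ w b _ _).1 hy'
    have he : j = j' := graph_low_inj B φ j j' (hj.trans hj'.symm)
    subst he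
    exact h j c hs hs'

theorem graph_compat_symm {X : Type} (p p' : X → Option Bool) (h : Compat p p') :
    Compat p' p := by
  intro x b hx hx'
  have := h x (!b) hx'
  rw [Bool.not_not] at this
  exact this hx

theorem graph_adjV (B l K : ℕ) (φ : CNF) (w : List Bool)
    (h1 : nSamp K l (low B φ).length ≤ w.length) (u v : ℕ) :
    adjV B l K φ w u v = true ↔
      u / nSamp K l (low B φ).length = v / nSamp K l (low B φ).length ∧
      okP B φ (u / nSamp K l (low B φ).length) (sampP B l φ w (u % nSamp K l (low B φ).length)) ∧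
      okP B φ (v / nSamp K l (low B φ).length) (sampP B l φ w (v % nSamp K l (low B φ).length)) ∧
      Compat (sampP B l φ w (u % nSamp K l (low B φ).length))
        (sampP B l φ w (v % nSamp K l (low B φ).length)) := by
  unfold adjV
  have hN : nS B l K φ w = nSamp K l (low B φ).length := min_eq_left h1
  rw [hN, Bool.and_eq_true, Bool.and_eq_true, Bool.and_eq_true, graph_okV, graph_okV, graph_consis,
    decide_eq_true_eq]

theorem graph_length (B l K : ℕ) (φ : CNF) (w : List Bool)
    (h1 : nSamp K l (low B φ).length ≤ w.length) (h2 : 2 ^ (high B φ).length ≤ w.length) :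
    (redG B l K φ w).length = 2 ^ (high B φ).length * nSamp K l (low B φ).length := by
  unfold redG
  rw [List.length_map, List.length_range]
  have hN : nS B l K φ w = nSamp K l (low B φ).length := min_eq_left h1
  have hB : nB B φ w = 2 ^ (high B φ).length := min_eq_left h2
  rw [hN, hB]

theorem graph_adjIn (B l K : ℕ) (φ : CNF) (w : List Bool)
    (h1 : nSamp K l (low B φ).length ≤ w.length)
    (u v : ℕ) (hu : u < (redG B l K φ w).length) (hv : v < (redG B l K φ w).length) :
    AdjIn (redG B l K φ w) u v ↔ u ≠ v ∧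
      u / nSamp K l (low B φ).length = v / nSamp K l (low B φ).length ∧
      okP B φ (u / nSamp K l (low B φ).length) (sampP B l φ w (u % nSamp K l (low B φ).length)) ∧
      okP B φ (v / nSamp K l (low B φ).length) (sampP B l φ w (v % nSamp K l (low B φ).length)) ∧
      Compat (sampP B l φ w (u % nSamp K l (low B φ).length))
        (sampP B l φ w (v % nSamp K l (low B φ).length)) := by
  have hmem : ∀ u v, u < (redG B l K φ w).length → v < (redG B l K φ w).length →
      (v ∈ (redG B l K φ w).getD u [] ↔ adjV B l K φ w u v = true) := by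
    intro u v hu hv
    have hlen : (redG B l K φ w).length = nB B φ w * nS B l K φ w := by
      unfold redG; rw [List.length_map, List.length_range]
    rw [List.getD_eq_getElem _ _ hu]
    unfold redG
    rw [List.getElem_map, List.mem_filter, List.mem_range, List.getElem_range]
    rw [hlen] at hv
    exact and_iff_right hv
  unfold AdjIn
  rw [hmem u v hu hv, hmem v u hv hu, graph_adjV B l K φ w h1, graph_adjV B l K φ w h1]
  refine and_congr_right fun _ => ?_
  constructor
  · rintro (h | ⟨g1, g2, g3, g4⟩)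
    · exact h
    · exact ⟨g1.symm, g3, g2, graph_compat_symm _ _ g4⟩
  · exact fun h => Or.inl h

theorem graph_no (B l K g k : ℕ) (φ : CNF) (w : List Bool)
    (h1 : nSamp K l (low B φ).length ≤ w.length) (h2 : 2 ^ (high B φ).length ≤ w.length)
    (h : ∀ i < 2 ^ (high B φ).length, ∀ W : Finset (Fin (nSamp K l (low B φ).length)),
      W.card ≤ k →
        eCount (SAdj (okP B φ i) fun a => sampP B l φ w a.val) W ≤ g * W.card)
    (S : Finset ℕ) (hS : S ⊆ range (redG B l K φ w).length) (hk : S.card ≤ k) :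
    edgesIn (redG B l K φ w) S ≤ g * S.card := by
  have hadj := graph_adjIn B l K φ w h1
  have hlen := graph_length B l K φ w h1 h2
  set G := redG B l K φ w with hG
  set N := nSamp K l (low B φ).length with hN
  rcases Nat.eq_zero_or_pos N with hN0 | hNpos
  · have hS0 : S = ∅ := by
      rw [hlen, hN0, mul_zero, range_zero, subset_empty] at hS
      exact hS
    rw [hS0]
    simp [edgesIn]
  have hlt : ∀ u ∈ S, u < G.length := fun u hu => mem_range.1 (hS hu)
  have hdiv : ∀ u ∈ S, u / N ∈ range (2 ^ (high B φ).length) := by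
    intro u hu
    rw [mem_range, Nat.div_lt_iff_lt_mul hNpos, ← hlen]
    exact hlt u hu
  -- the part of `S` in the branch `i`
  set Wi : ℕ → Finset (Fin N) := fun i => univ.filter fun a => i * N + a.val ∈ S with hWi
  have hWcard : ∀ i, (Wi i).card ≤ (S.filter fun u => u / N = i).card := by
    intro i
    refine card_le_card_of_injOn (fun a => i * N + a.val) ?_ ?_
    · intro a ha
      have ha' : i * N + a.val ∈ S := by simpa [hWi] using ha
      simp only [coe_filter, Set.mem_ofPred_eq]
      refine ⟨ha', ?_⟩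
      rw [Nat.add_comm, Nat.add_mul_div_right _ _ hNpos, Nat.div_eq_of_lt a.2, zero_add]
    · intro a _ b _ hab
      exact Fin.ext (Nat.add_left_cancel hab)
  have hsum : S.card = ∑ i ∈ range (2 ^ (high B φ).length), (S.filter fun u => u / N = i).card :=
    card_eq_sum_card_fiberwise hdiv
  have hE : edgesIn G S = ∑ i ∈ range (2 ^ (high B φ).length),
      (((S ×ˢ S).filter fun p => p.1 < p.2 ∧ AdjIn G p.1 p.2).filter
        fun p => p.1 / N = i).card := by
    refine card_eq_sum_card_fiberwise fun p hp => ?_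
    have hp' := (mem_filter.1 hp).1
    exact hdiv _ (mem_product.1 hp').1
  have hEi : ∀ i ∈ range (2 ^ (high B φ).length),
      (((S ×ˢ S).filter fun p => p.1 < p.2 ∧ AdjIn G p.1 p.2).filter
        fun p => p.1 / N = i).card ≤ g * (S.filter fun u => u / N = i).card := by
    intro i hi
    have e1 : (((S ×ˢ S).filter fun p => p.1 < p.2 ∧ AdjIn G p.1 p.2).filter
        fun p => p.1 / N = i).card ≤
        eCount (SAdj (okP B φ i) fun a : Fin N => sampP B l φ w a.val) (Wi i) := by
      unfold eCount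
      refine card_le_card_of_injOn (fun p => (⟨p.1 % N, Nat.mod_lt _ hNpos⟩,
        ⟨p.2 % N, Nat.mod_lt _ hNpos⟩)) ?_ ?_
      · intro p hp
        simp only [coe_filter, mem_filter, mem_product, Set.mem_ofPred_eq] at hp
        obtain ⟨⟨⟨hp1, hp2⟩, hlt12, hA⟩, hpi⟩ := hp
        obtain ⟨-, q1, q2, q3, q4⟩ := (hadj p.1 p.2 (hlt _ hp1) (hlt _ hp2)).1 hA
        have hpi2 : p.2 / N = i := by rw [← q1]; exact hpi
        have r1 : i * N + p.1 % N = p.1 := by rw [← hpi, Nat.mul_comm]; exact Nat.div_add_mod _ _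
        have r2 : i * N + p.2 % N = p.2 := by rw [← hpi2, Nat.mul_comm]; exact Nat.div_add_mod _ _
        have hmlt : p.1 % N < p.2 % N := by omega
        simp only [coe_filter, mem_product, Set.mem_ofPred_eq, hWi, mem_filter, mem_univ, true_and]
        refine ⟨⟨by rw [r1]; exact hp1, by rw [r2]; exact hp2⟩, ?_, ?_, ?_, ?_, ?_⟩
        · exact hmlt
        · intro hc
          have := congrArg Fin.val hc
          simp only at this
          omega
        · rw [hpi] at q2; exact q2
        · rw [hpi2] at q3; exact q3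
        · exact q4
      · intro p hp q hq hpq
        simp only [coe_filter, mem_filter, mem_product, Set.mem_ofPred_eq] at hp hq
        obtain ⟨⟨⟨hp1, hp2⟩, -, hA⟩, hpi⟩ := hp
        obtain ⟨⟨⟨hq1, hq2⟩, -, hA'⟩, hqi⟩ := hq
        obtain ⟨-, q1, -⟩ := (hadj p.1 p.2 (hlt _ hp1) (hlt _ hp2)).1 hA
        obtain ⟨-, q1', -⟩ := (hadj q.1 q.2 (hlt _ hq1) (hlt _ hq2)).1 hA'
        simp only [Prod.mk.injEq, Fin.mk.injEq] at hpq
        have t1 := Nat.div_add_mod p.1 N
        have t2 := Nat.div_add_mod p.2 N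
        have t3 := Nat.div_add_mod q.1 N
        have t4 := Nat.div_add_mod q.2 N
        rw [← q1, hpi] at t2
        rw [← q1', hqi] at t4
        rw [hpi] at t1
        rw [hqi] at t3
        refine Prod.ext ?_ ?_
        · rw [← t1, ← t3, hpq.1]
        · rw [← t2, ← t4, hpq.2]
    have e2 : (Wi i).card ≤ k := (hWcard i).trans ((card_filter_le _ _).trans hk)
    exact e1.trans ((h i (mem_range.1 hi) (Wi i) e2).trans (Nat.mul_le_mul_left _ (hWcard i)))
  rw [hE, hsum, mul_sum]
  exact sum_le_sum hEi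

theorem graph_yes (B l K k : ℕ) (φ : CNF) (w : List Bool)
    (h1 : nSamp K l (low B φ).length ≤ w.length) (h2 : 2 ^ (high B φ).length ≤ w.length)
    (τ : ℕ → Bool) (hτ : nviol τ φ = 0)
    (h : k ≤ (univ.filter fun a : Fin (nSamp K l (low B φ).length) =>
      ∀ j, sampP B l φ w a.val j ≠ some (!τ (low B φ)[j])).card) :
    ∃ S ⊆ range (redG B l K φ w).length, S.card = k ∧
      k * (k - 1) ≤ 2 * edgesIn (redG B l K φ w) S := by
  have hadj := graph_adjIn B l K φ w h1
  have hlen := graph_length B l K φ w h1 h2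
  set G := redG B l K φ w with hG
  set N := nSamp K l (low B φ).length with hN
  -- the branch
  set i := Nat.ofBits (fun j : Fin (high B φ).length => τ (high B φ)[j]) with hi
  have hilt : i < 2 ^ (high B φ).length := Nat.ofBits_lt_two_pow _
  have hibits : ∀ j : Fin (high B φ).length, i.bits.getD j false = τ (high B φ)[j] := by
    intro j
    have e1 : i.testBit j = τ (high B φ)[j] := by
      rw [hi, Nat.testBit_ofBits_lt _ _ j.2]
    rw [← e1, Nat.testBit_eq_inth, List.getI_eq_getElem?_getD, List.getD_eq_getElem?_getD]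
    rfl
  obtain ⟨A, hA, hAk⟩ := exists_subset_card_eq h
  have hAmem : ∀ a ∈ A, ∀ j, sampP B l φ w a.val j ≠ some (!τ (low B φ)[j]) := fun a ha =>
    (mem_filter.1 (hA ha)).2
  -- the vertices are admissible
  have hok : ∀ a ∈ A, okP B φ i (sampP B l φ w a.val) := by
    intro a ha c hc hf
    have hlit : ∀ x : Lit, litF B φ i (sampP B l φ w a.val) x → τ x.1 ≠ x.2 := by
      rintro x (⟨j, hj, hs⟩ | ⟨j, hj, hs⟩)
      · have := hAmem a ha j
        rw [hj, hs] at this
        intro hx
        rw [hx] at this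
        exact this rfl
      · rw [hibits, hj] at hs
        rw [hs]
        simp
    have hv : Violates τ c := ⟨hlit _ hf.1, hlit _ hf.2.1, hlit _ hf.2.2⟩
    have hlen0 := List.length_eq_zero_iff.1 hτ
    have : c ∈ φ.filter fun c => decide (Violates τ c) := by
      rw [List.mem_filter]
      exact ⟨hc, by simpa using hv⟩
    rw [hlen0] at this
    exact absurd this List.not_mem_nil
  have hcomp : ∀ a ∈ A, ∀ b ∈ A, Compat (sampP B l φ w a.val) (sampP B l φ w b.val) := by
    intro a ha b hb j c hc hc'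
    have e1 := hAmem a ha j
    have e2 := hAmem b hb j
    rw [hc] at e1
    rw [hc'] at e2
    cases c <;> cases hτj : τ (low B φ)[j] <;> simp_all
  set S : Finset ℕ := A.image fun a => i * N + a.val with hS
  have hSmem : ∀ u ∈ S, ∃ a ∈ A, i * N + a.val = u := fun u hu => by
    simpa [hS] using hu
  have hcard : S.card = k := by
    rw [hS, card_image_of_injective _ (fun a b hab => Fin.ext (Nat.add_left_cancel hab)), hAk]
  have hSlt : ∀ u ∈ S, u < G.length := by
    intro u hu
    obtain ⟨a, -, rfl⟩ := hSmem u hu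
    rw [hlen]
    calc i * N + a.val < i * N + N := Nat.add_lt_add_left a.2 _
      _ = (i + 1) * N := by ring
      _ ≤ 2 ^ (high B φ).length * N := Nat.mul_le_mul_right _ hilt
  have hdm : ∀ a : Fin N, (i * N + a.val) / N = i ∧ (i * N + a.val) % N = a.val := by
    intro a
    have hNpos : 0 < N := lt_of_le_of_lt (Nat.zero_le _) a.2
    constructor
    · rw [Nat.add_comm, Nat.add_mul_div_right _ _ hNpos, Nat.div_eq_of_lt a.2, zero_add]
    · rw [Nat.add_comm, Nat.add_mul_mod_self_right, Nat.mod_eq_of_lt a.2]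
  have hall : ∀ u ∈ S, ∀ v ∈ S, u ≠ v → AdjIn G u v := by
    intro u hu v hv huv
    rw [hadj u v (hSlt u hu) (hSlt v hv)]
    obtain ⟨a, ha, rfl⟩ := hSmem u hu
    obtain ⟨b, hb, rfl⟩ := hSmem v hv
    rw [(hdm a).1, (hdm a).2, (hdm b).1, (hdm b).2]
    exact ⟨huv, rfl, hok a ha, hok b hb, hcomp a ha b hb⟩
  refine ⟨S, fun u hu => mem_range.2 (hSlt u hu), hcard, ?_⟩
  have hE : edgesIn G S = (S.offDiag.filter fun p => p.1 < p.2).card := by
    unfold edgesIn
    congr 1
    ext p
    simp only [mem_filter, mem_product, mem_offDiag]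
    constructor
    · rintro ⟨⟨a, b⟩, c, -⟩
      exact ⟨⟨a, b, c.ne⟩, c⟩
    · rintro ⟨⟨a, b, c⟩, d⟩
      exact ⟨⟨a, b⟩, d, hall _ a _ b c⟩
  have hE2 : (S.offDiag.filter fun p => ¬ p.1 < p.2).card ≤
      (S.offDiag.filter fun p => p.1 < p.2).card := by
    refine card_le_card_of_injOn Prod.swap ?_ (fun p _ q _ hpq => Prod.swap_injective hpq)
    intro p hp
    simp only [coe_filter, mem_offDiag, Set.mem_ofPred_eq, Prod.fst_swap, Prod.snd_swap] at hp ⊢
    obtain ⟨⟨a, b, c⟩, d⟩ := hp
    exact ⟨⟨b, a, c.symm⟩, lt_of_le_of_ne (not_lt.1 d) c.symm⟩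
  have hE3 := card_filter_add_card_filter_not (s := S.offDiag) (fun p : ℕ × ℕ => p.1 < p.2)
  have hE4 : S.offDiag.card = k * k - k := by rw [offDiag_card, hcard]
  have hE5 : k * (k - 1) = k * k - k := by rw [Nat.mul_sub, Nat.mul_one]
  rw [hE, hE5, ← hE4]
  omega

end Pool.Agent.MP2cea29
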