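import Pool.Agent.Lib.MP_2cea29_lc.Defs
import Pool.Agent.Lib.PolyTime.Basic

/-!
# Hard-coding a parameter
-/

namespace Pool.Agent.MP2cea29

open Pool.Agent.PolyTime

/-- Pushes the word `l` on the stack `m`. -/
def pushAll : List Bool → SP
  | [] => SP.skip
  | b :: l => SP.seq (pushAll l) (SP.push Reg.m b)

theorem pushAll_run (l : List Bool) : ∀ m : List Bool,
    Run (pushAll l) (mk m [] [] []) (mk (l ++ m) [] [] []) (l.length + 1) := by
  induction l with
  | nil => intro m; exact Run.skip _
  | cons b l ih =>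
    intro m
    have h1 := Run.push Reg.m b (mk (l ++ m) [] [] [])
    rw [mk_m, update_m] at h1
    exact Run.seq (ih m) h1

theorem poly_le (p : Polynomial ℕ) (n : ℕ) (hn : 1 ≤ n) :
    p.eval n ≤ p.eval 1 * n ^ p.natDegree := by
  rw [Polynomial.eval_eq_sum_range, Polynomial.eval_eq_sum_range, Finset.sum_mul]
  refine Finset.sum_le_sum fun i hi => ?_
  rw [one_pow, mul_one]
  exact Nat.mul_le_mul_left _ (Nat.pow_le_pow_right hn
    (Nat.lt_succ_iff.1 (Finset.mem_range.1 hi)))

/-- Fixing the first argument of a polynomial-time function: the exponent of the running time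
does not depend on the argument. -/
theorem hardcode {π α β : Type} [Enc π] [Enc α] [Enc β] {F : π × α → β} (hF : PTime F) :
    ∃ c : ℕ, ∀ p : π, ∃ C : ℕ,
      ComputesIn (fun x => F (p, x)) Set.univ (fun x => C * (len x + 1) ^ c) := by
  obtain ⟨P, T, ⟨q, hq⟩, hTm, hP, -⟩ := hF.elim
  refine ⟨q.natDegree, fun p => ?_⟩
  refine ⟨q.eval 1 * (len p + 1) ^ q.natDegree + (len p + 4), ?_⟩
  refine ⟨{ tm := toTM (SP.seq (pushAll (true :: bits (enc p))) P),
            inputAlphabet := Equiv.refl Bool, outputAlphabet := Equiv.refl Bool }, ?_⟩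
  intro x _
  have hrun : ∃ t ≤ T (size (enc (p, x))) + (len p + 2),
      Run (SP.seq (pushAll (true :: bits (enc p))) P) (mk (bits (enc x)) [] [] [])
        (mk (bits (enc (F (p, x)))) [] [] []) t := by
    obtain ⟨t, ht, hr⟩ := hP (p, x) [] [] [] []
    simp only [List.append_nil] at hr
    have h1 := pushAll_run (true :: bits (enc p)) (bits (enc x))
    have h2 : (true :: bits (enc p)) ++ bits (enc x) = bits (enc (p, x)) := rfl
    rw [h2] at h1
    refine ⟨_, ?_, Run.seq h1 hr⟩
    rw [List.length_cons]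
    change (len p + 1 + 1) + t ≤ _
    omega
  obtain ⟨t, ht, hr⟩ := hrun
  obtain ⟨ho⟩ := toTM_outputs hr
  have hbound : t + 1 ≤ (q.eval 1 * (len p + 1) ^ q.natDegree + (len p + 4)) *
      (len x + 1) ^ q.natDegree := by
    have h1 : size (enc (p, x)) = len p + len x + 1 := by
      rw [enc_pair, size_cons]; rfl
    have h2 : T (size (enc (p, x))) ≤ q.eval 1 * ((len p + 1) * (len x + 1)) ^ q.natDegree := by
      refine (hq _).trans ((poly_le q _ (by omega)).trans ?_)
      refine Nat.mul_le_mul_left _ (Nat.pow_le_pow_left ?_ _)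
      rw [h1]
      nlinarith [Nat.zero_le (len p * len x)]
    rw [mul_pow] at h2
    have h3 : 1 ≤ (len x + 1) ^ q.natDegree := Nat.one_le_pow _ _ (by omega)
    have h4 : (len p + 4) * 1 ≤ (len p + 4) * (len x + 1) ^ q.natDegree :=
      Nat.mul_le_mul_left _ h3
    rw [add_mul, mul_assoc]
    omega
  have key : ∀ (l l' : List Bool), l = bits (enc x) → l' = bits (enc (F (p, x))) →
      Nonempty (Turing.TM2OutputsInTime (toTM (SP.seq (pushAll (true :: bits (enc p))) P)) l
        (Option.some l') ((q.eval 1 * (len p + 1) ^ q.natDegree + (len p + 4)) *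
          (len x + 1) ^ q.natDegree)) := by
    rintro _ _ rfl rfl
    exact ⟨⟨ho.toEvalsTo, ho.steps_le_m.trans hbound⟩⟩
  exact key _ _ (List.map_id _) (List.map_id _)

end Pool.Agent.MP2cea29
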