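import Pool.Agent.Lib.MP_2cea29_lc.Core

namespace Pool.Agent.MP2cea29

open Finset Classical

theorem hit_block_card (k s N g : ℕ) (hN : k * s ≤ N) (hg : g < k) :
    (univ.filter fun a : Fin N => g * s ≤ a.1 ∧ a.1 < (g + 1) * s).card = s := by
  have h1 : (g + 1) * s ≤ N := (Nat.mul_le_mul_right s hg).trans hN
  have h2 : (univ.filter fun a : Fin N => g * s ≤ a.1 ∧ a.1 < (g + 1) * s) =
      (Finset.Ico (g * s) ((g + 1) * s)).attachFin (fun m hm => by
        rw [Finset.mem_Ico] at hm; omega) := by
    ext a
    simp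
  rw [h2, Finset.card_attachFin, Nat.card_Ico, add_mul, one_mul]
  omega

theorem hit_one {Y : Type} [Fintype Y] (H : Finset Y) (k s N g : ℕ) (hN : k * s ≤ N)
    (hg : g < k) :
    ((univ.filter fun U : Fin N → Y => ∀ a : Fin N, g * s ≤ a.1 ∧ a.1 < (g + 1) * s →
      U a ∉ H).card : ℝ) ≤
      (1 - (H.card : ℝ) / Fintype.card Y) ^ s * Fintype.card (Fin N → Y) := by
  by_cases hY : Fintype.card Y = 0
  · rw [hY, Nat.cast_zero, div_zero, sub_zero, one_pow, one_mul]
    exact_mod_cast (Finset.card_le_univ _)
  have hY' : (0 : ℝ) < Fintype.card Y := by exact_mod_cast Nat.pos_of_ne_zero hY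
  set B := univ.filter fun a : Fin N => g * s ≤ a.1 ∧ a.1 < (g + 1) * s with hB
  have hBc : B.card = s := hit_block_card k s N g hN hg
  have h1 : (univ.filter fun U : Fin N → Y => ∀ a : Fin N, g * s ≤ a.1 ∧ a.1 < (g + 1) * s →
      U a ∉ H) = Fintype.piFinset fun a : Fin N => if a ∈ B then univ.filter (· ∉ H) else univ := by
    ext U
    rw [Finset.mem_filter, Fintype.mem_piFinset]
    constructor
    · rintro ⟨-, h⟩ a
      by_cases ha : a ∈ B
      · rw [if_pos ha, Finset.mem_filter]
        exact ⟨mem_univ _, h a (Finset.mem_filter.1 ha).2⟩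
      · rw [if_neg ha]
        exact mem_univ _
    · intro h
      refine ⟨mem_univ _, fun a ha => ?_⟩
      have h2 := h a
      have haB : a ∈ B := Finset.mem_filter.2 ⟨mem_univ _, ha⟩
      rw [if_pos haB, Finset.mem_filter] at h2
      exact h2.2
  have h3 : ((univ.filter (· ∉ H)).card : ℝ) =
      Fintype.card Y * (1 - (H.card : ℝ) / Fintype.card Y) := by
    have h4 : (univ.filter (· ∉ H)).card + H.card = Fintype.card Y := by
      have h5 : (univ.filter (· ∉ H)) = Hᶜ := by ext y; simp
      rw [h5, Finset.card_compl]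
      have := Finset.card_le_univ H
      omega
    have h6 : ((univ.filter (· ∉ H)).card : ℝ) + H.card = Fintype.card Y := by exact_mod_cast h4
    field_simp
    linarith
  have h7 : B.card + (univ.filter fun a => a ∉ B).card = N := by
    have := Finset.card_filter_add_card_filter_not (s := (univ : Finset (Fin N))) (fun a => a ∈ B)
    rw [Finset.card_univ, Fintype.card_fin] at this
    have h8 : (univ.filter fun a => a ∈ B) = B := by ext a; simp
    rw [h8] at this
    exact this
  rw [h1, Fintype.card_piFinset]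
  have h9 : ∏ a : Fin N, (if a ∈ B then univ.filter (· ∉ H) else (univ : Finset Y)).card =
      (univ.filter (· ∉ H)).card ^ s * (Fintype.card Y) ^ (univ.filter fun a => a ∉ B).card := by
    have h10 : ∀ a : Fin N, (if a ∈ B then univ.filter (· ∉ H) else (univ : Finset Y)).card =
        if a ∈ B then (univ.filter (· ∉ H)).card else Fintype.card Y := by
      intro a
      split_ifs
      · rfl
      · rfl
    rw [Finset.prod_congr rfl fun a _ => h10 a, Finset.prod_ite, Finset.prod_const,
      Finset.prod_const]
    have h8 : (univ.filter fun a => a ∈ B) = B := by ext a; simp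
    rw [h8, hBc]
  rw [h9]
  push_cast
  rw [h3, mul_pow, Fintype.card_fun, Fintype.card_fin]
  push_cast
  have h11 : (Fintype.card Y : ℝ) ^ N =
      (Fintype.card Y : ℝ) ^ s * (Fintype.card Y : ℝ) ^ (univ.filter fun a => a ∉ B).card := by
    rw [← pow_add, ← hBc, h7]
  rw [h11]
  apply le_of_eq
  ring

theorem hit_count {Y : Type} [Fintype Y] (H : Finset Y) (k s N : ℕ) (hN : k * s ≤ N) :
    ((univ.filter fun U : Fin N → Y => (univ.filter fun a => U a ∈ H).card < k).card : ℝ) ≤
      k * (1 - (H.card : ℝ) / Fintype.card Y) ^ s * Fintype.card (Fin N → Y) := by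
  have hcov : (univ.filter fun U : Fin N → Y => (univ.filter fun a => U a ∈ H).card < k) ⊆
      (range k).biUnion fun g => univ.filter fun U : Fin N → Y =>
        ∀ a : Fin N, g * s ≤ a.1 ∧ a.1 < (g + 1) * s → U a ∉ H := by
    intro U hU
    rw [Finset.mem_filter] at hU
    by_contra hcon
    rw [Finset.mem_biUnion] at hcon
    push Not at hcon
    have h1 : ∀ g : Fin k, ∃ a : Fin N, (g.1 * s ≤ a.1 ∧ a.1 < (g.1 + 1) * s) ∧ U a ∈ H := by
      intro g
      have h2 := hcon g.1 (Finset.mem_range.2 g.2)
      rw [Finset.mem_filter] at h2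
      push Not at h2
      obtain ⟨a, ha, ha'⟩ := h2 (mem_univ _)
      exact ⟨a, ha, ha'⟩
    choose A hA hA' using h1
    have h3 : Function.Injective A := by
      intro g g' hgg
      have h4 := hA g
      have h5 := hA g'
      rw [hgg] at h4
      by_contra hne
      rcases Nat.lt_or_gt_of_ne (fun h => hne (Fin.ext h)) with h6 | h6
      · have := Nat.mul_le_mul_right s h6
        rw [Nat.succ_eq_add_one] at this
        omega
      · have := Nat.mul_le_mul_right s h6
        rw [Nat.succ_eq_add_one] at this
        omega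
    have h7 : k ≤ (univ.filter fun a => U a ∈ H).card := by
      have h8 := Finset.card_le_card_of_injOn (s := (univ : Finset (Fin k)))
        (t := univ.filter fun a => U a ∈ H) A (fun g _ => by
          rw [Finset.mem_coe, Finset.mem_filter]
          exact ⟨mem_univ _, hA' g⟩) (h3.injOn)
      rwa [Finset.card_univ, Fintype.card_fin] at h8
    omega
  calc ((univ.filter fun U : Fin N → Y => (univ.filter fun a => U a ∈ H).card < k).card : ℝ)
      ≤ ∑ g ∈ range k, ((univ.filter fun U : Fin N → Y =>
        ∀ a : Fin N, g * s ≤ a.1 ∧ a.1 < (g + 1) * s → U a ∉ H).card : ℝ) := by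
        exact_mod_cast (Finset.card_le_card hcov).trans Finset.card_biUnion_le
    _ ≤ ∑ g ∈ range k, (1 - (H.card : ℝ) / Fintype.card Y) ^ s * Fintype.card (Fin N → Y) :=
        Finset.sum_le_sum fun g hg => hit_one H k s N g hN (Finset.mem_range.1 hg)
    _ = _ := by
        rw [Finset.sum_const, Finset.card_range, nsmul_eq_mul]
        ring

end Pool.Agent.MP2cea29
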