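import Pool.Agent.Lib.MP_2cea29_lc.Red

/-!
# Densest k-subgraph: symbols coded by blocks of bits
-/

namespace Pool.Agent.MP2cea29

open Pool.Agent.PolyTime Finset Classical

theorem valOK_symVal (l : ℕ) (hl : 1 ≤ l) : ValOK (symVal (l := l)) (2 ^ l) := by
  refine ⟨by simp, fun b => ?_⟩
  rw [Finset.card_eq_one]
  refine ⟨fun t => if t.val = 0 then b else false, ?_⟩
  ext s
  rw [Finset.mem_filter, Finset.mem_singleton]
  constructor
  · rintro ⟨-, hs⟩
    unfold symVal at hs
    split_ifs at hs with h1 h2
    · funext t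
      by_cases ht : t.val = 0
      · have e : t = ⟨0, h2⟩ := Fin.ext ht
        rw [if_pos ht, e]
        exact Option.some.inj hs
      · rw [if_neg ht]
        exact h1 t ht
    · exact absurd hl (by omega)
  · rintro rfl
    refine ⟨Finset.mem_univ _, ?_⟩
    unfold symVal
    rw [if_pos (fun t ht => if_neg ht), dif_pos (by omega : 0 < l)]
    simp

theorem sym_eq (l : ℕ) (hl : 1 ≤ l) (w : List Bool) (i : ℕ) :
    sym l w i = symVal fun t : Fin l => w.getD (i * l + t) false := by
  unfold sym symVal
  have hiff : ((List.range l).all fun t => decide (t = 0) || !(w.getD (i * l + t) false)) = true ↔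
      ∀ t : Fin l, t.val ≠ 0 → w.getD (i * l + t) false = false := by
    rw [List.all_eq_true]
    constructor
    · intro h t ht
      have h1 := h t.val (List.mem_range.2 t.2)
      rw [Bool.or_eq_true, decide_eq_true_eq, Bool.not_eq_true'] at h1
      exact h1.resolve_left ht
    · intro h t ht
      rw [Bool.or_eq_true, decide_eq_true_eq, Bool.not_eq_true']
      by_cases h0 : t = 0
      · exact Or.inl h0
      · exact Or.inr (h ⟨t, List.mem_range.1 ht⟩ h0)
  by_cases h : ∀ t : Fin l, t.val ≠ 0 → w.getD (i * l + t) false = false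
  · rw [if_pos (hiff.2 h), if_pos h, dif_pos (by omega : 0 < l)]
    simp
  · rw [if_neg (fun h' => h (hiff.1 h')), if_neg h]

end Pool.Agent.MP2cea29
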