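import Pool.Agent.Lib.MP_2cea29_lc.Core

/-!
# Densest k-subgraph, module TRANS: pulling back along an injection
-/

namespace Pool.Agent.MP2cea29

open Finset Classical

/-- MODULE TRANS -/
theorem transfer_count {I J : Type} [Fintype I] [Fintype J] (f : I → J)
    (hf : Function.Injective f) (P : (I → Bool) → Prop) :
    ({w : J → Bool | P (fun i => w (f i))}).ncard * 2 ^ Fintype.card I =
      ({v : I → Bool | P v}).ncard * 2 ^ Fintype.card J := by
  have key : ({w : J → Bool | P (fun i => w (f i))}).ncard =
      (({v : I → Bool | P v}) ×ˢ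
        (Set.univ : Set ({j : J // ¬ j ∈ Set.range f} → Bool))).ncard := by
    apply Set.ncard_congr (fun w _ => ((fun i => w (f i), fun j => w j.1) :
      (I → Bool) × ({j : J // ¬ j ∈ Set.range f} → Bool)))
    · intro w hw
      exact ⟨hw, trivial⟩
    · intro w w' _ _ h
      rw [Prod.mk.injEq] at h
      funext j
      by_cases hj : j ∈ Set.range f
      · obtain ⟨i, rfl⟩ := hj
        exact congrFun h.1 i
      · exact congrFun h.2 ⟨j, hj⟩
    · rintro ⟨v, u⟩ ⟨hv, -⟩
      have hv' : P v := hv
      let w : J → Bool := fun j => if hj : j ∈ Set.range f then v hj.choose else u ⟨j, hj⟩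
      have hw : (fun i => w (f i)) = v := by
        funext i
        have hi : f i ∈ Set.range f := ⟨i, rfl⟩
        simp only [w, dif_pos hi]
        rw [hf hi.choose_spec]
      refine ⟨w, ?_, ?_⟩
      · show P (fun i => w (f i))
        rw [hw]; exact hv'
      · rw [Prod.mk.injEq]
        refine ⟨hw, ?_⟩
        funext j
        simp only [w, dif_neg j.2]
  have hc : Fintype.card J = Fintype.card {j : J // ¬ j ∈ Set.range f} + Fintype.card I := by
    have h1 := Fintype.card_subtype_compl (fun j : J => j ∈ Set.range f)
    have h2 : Fintype.card {j : J // j ∈ Set.range f} = Fintype.card I :=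
      (Fintype.card_congr (Equiv.ofInjective f hf)).symm
    have h3 : Fintype.card I ≤ Fintype.card J := Fintype.card_le_of_injective f hf
    rw [h1, h2]
    omega
  rw [key, Set.ncard_prod, Set.ncard_univ, Nat.card_eq_fintype_card, Fintype.card_fun,
    Fintype.card_bool, hc, pow_add, mul_assoc]

end Pool.Agent.MP2cea29
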