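import Pool.Agent.Lib.MP_2cea29_lc.Red
import Pool.Agent.Lib.MP_2cea29_lc.Trans

/-!
# Densest k-subgraph: random words versus random samples
-/

namespace Pool.Agent.MP2cea29

open Pool.Agent.PolyTime Finset Classical

theorem WORDS_lt {N n l : ℕ} (a : Fin N) (j : Fin n) (t : Fin l) :
    (a.val * n + j.val) * l + t.val < N * n * l := by
  have h1 : a.val * n + j.val < N * n := by
    calc a.val * n + j.val < a.val * n + n := by have := j.isLt; omega
      _ = (a.val + 1) * n := by ring
      _ ≤ N * n := Nat.mul_le_mul_right _ a.isLt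
  calc (a.val * n + j.val) * l + t.val < (a.val * n + j.val) * l + l := by
        have := t.isLt; omega
    _ = (a.val * n + j.val + 1) * l := by ring
    _ ≤ N * n * l := Nat.mul_le_mul_right _ h1

/-- The position of a bit. -/
def WORDS_f {N n l L : ℕ} (hL : N * n * l ≤ L) (p : Fin N × Fin n × Fin l) : Fin L :=
  ⟨(p.1.val * n + p.2.1.val) * l + p.2.2.val, lt_of_lt_of_le (WORDS_lt p.1 p.2.1 p.2.2) hL⟩

theorem WORDS_divmod {m x y x' y' : ℕ} (hy : y < m) (hy' : y' < m)
    (h : x * m + y = x' * m + y') : x = x' ∧ y = y' := by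
  have hm : 0 < m := by omega
  have h1 : (x * m + y) / m = x := by
    rw [add_comm, Nat.add_mul_div_right _ _ hm, Nat.div_eq_of_lt hy, zero_add]
  have h2 : (x' * m + y') / m = x' := by
    rw [add_comm, Nat.add_mul_div_right _ _ hm, Nat.div_eq_of_lt hy', zero_add]
  have hx : x = x' := by rw [← h1, ← h2, h]
  subst hx
  exact ⟨rfl, by omega⟩

theorem WORDS_f_inj {N n l L : ℕ} (hL : N * n * l ≤ L) :
    Function.Injective (WORDS_f (N := N) (n := n) (l := l) hL) := by
  rintro ⟨a, j, t⟩ ⟨a', j', t'⟩ h
  have h0 : (a.val * n + j.val) * l + t.val = (a'.val * n + j'.val) * l + t'.val :=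
    congrArg Fin.val h
  obtain ⟨h1, h2⟩ := WORDS_divmod t.isLt t'.isLt h0
  obtain ⟨h3, h4⟩ := WORDS_divmod j.isLt j'.isLt h1
  rw [Prod.mk.injEq, Prod.mk.injEq]
  exact ⟨Fin.ext h3, Fin.ext h4, Fin.ext h2⟩

/-- MODULE WORDS -/
theorem words_count (N n l L : ℕ) (hL : N * n * l ≤ L)
    (Q : (Fin N → Fin n → Fin l → Bool) → Prop) :
    ({w : Fin L → Bool | Q fun a j t =>
        (List.ofFn w).getD ((a.val * n + j.val) * l + t.val) false}).ncard *
      Fintype.card (Fin N → Fin n → Fin l → Bool) =
    ({U | Q U}).ncard * 2 ^ L := by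
  have key := transfer_count (WORDS_f (N := N) (n := n) (l := l) hL) (WORDS_f_inj hL)
    (fun v => Q fun a j t => v (a, j, t))
  have e1 : Fintype.card (Fin N → Fin n → Fin l → Bool) =
      2 ^ Fintype.card (Fin N × Fin n × Fin l) := by
    simp only [Fintype.card_fun, Fintype.card_prod, Fintype.card_fin, Fintype.card_bool]
    rw [← pow_mul, ← pow_mul]
    congr 1
    ring
  have e2 : {w : Fin L → Bool | Q fun a j t =>
        (List.ofFn w).getD ((a.val * n + j.val) * l + t.val) false} =
      {w : Fin L → Bool | Q fun a j t => w (WORDS_f hL (a, j, t))} := by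
    ext w
    have : (fun (a : Fin N) (j : Fin n) (t : Fin l) =>
        (List.ofFn w).getD ((a.val * n + j.val) * l + t.val) false) =
        fun a j t => w (WORDS_f hL (a, j, t)) := by
      funext a j t
      have hlt : (a.val * n + j.val) * l + t.val < L := lt_of_lt_of_le (WORDS_lt a j t) hL
      rw [List.getD_eq_getElem _ _ (by rw [List.length_ofFn]; exact hlt), List.getElem_ofFn]
      rfl
    rw [Set.mem_setOf_eq, Set.mem_setOf_eq, this]
  have e3 : ({U | Q U} : Set (Fin N → Fin n → Fin l → Bool)).ncard =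
      ({v : Fin N × Fin n × Fin l → Bool | Q fun a j t => v (a, j, t)}).ncard := by
    let φ : (Fin N × Fin n × Fin l → Bool) ≃ (Fin N → Fin n → Fin l → Bool) :=
      { toFun := fun v a j t => v (a, j, t)
        invFun := fun U p => U p.1 p.2.1 p.2.2
        left_inv := fun v => rfl
        right_inv := fun U => rfl }
    have h : {v : Fin N × Fin n × Fin l → Bool | Q fun a j t => v (a, j, t)} =
        φ ⁻¹' {U | Q U} := rfl
    rw [h, ← Equiv.image_symm_eq_preimage, Set.ncard_image_of_injective _ φ.symm.injective]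
  rw [e1, e2, e3]
  simpa using key

end Pool.Agent.MP2cea29
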