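import Pool.Agent.Lib.MP_2cea29_lc.Gap
import Pool.Agent.Lib.MP_2cea29_lc.Sym
import Pool.Agent.Lib.MP_2cea29_lc.Branch
import Pool.Agent.Lib.MP_2cea29_lc.Graph
import Pool.Agent.Lib.MP_2cea29_lc.Words

/-!
# Densest k-subgraph: the NO case, probability
-/

namespace Pool.Agent.MP2cea29

open Pool.Agent.PolyTime Finset Classical

/-- The number of samples. -/
theorem Probno_nSamp (K l n : ℕ) (hl : 2 ≤ l) :
    (nSamp K l n : ℝ) ≤ 2 * (K : ℝ) * ((((2 ^ l - 1 : ℕ) : ℝ) + 1) / ((2 ^ l - 1 : ℕ) : ℝ)) ^ n := by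
  have h4 : 4 ≤ 2 ^ l := by
    calc 4 = 2 ^ 2 := by norm_num
      _ ≤ 2 ^ l := Nat.pow_le_pow_right (by norm_num) hl
  have hr : 0 < ((2 ^ l - 1 : ℕ) : ℝ) := by
    have : 0 < 2 ^ l - 1 := by omega
    exact_mod_cast this
  have h1 : (((2 ^ l) ^ n / (2 ^ l - 1) ^ n : ℕ) : ℝ) ≤
      ((((2 ^ l - 1 : ℕ) : ℝ) + 1) / ((2 ^ l - 1 : ℕ) : ℝ)) ^ n := by
    refine (Nat.cast_div_le).trans (le_of_eq ?_)
    rw [div_pow]
    congr 1
    · have : ((2 ^ l - 1 : ℕ) : ℝ) + 1 = ((2 ^ l : ℕ) : ℝ) := by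
        have : 2 ^ l - 1 + 1 = 2 ^ l := by omega
        exact_mod_cast this
      rw [this]
      push_cast
      rfl
    · push_cast
      rfl
  have h2 : (1 : ℝ) ≤ ((((2 ^ l - 1 : ℕ) : ℝ) + 1) / ((2 ^ l - 1 : ℕ) : ℝ)) ^ n := by
    refine one_le_pow₀ ?_
    rw [le_div_iff₀ hr]
    linarith
  unfold nSamp
  rw [Nat.cast_mul, Nat.cast_add, Nat.cast_one]
  have hK : (0 : ℝ) ≤ K := Nat.cast_nonneg K
  calc (K : ℝ) * ((((2 ^ l) ^ n / (2 ^ l - 1) ^ n : ℕ) : ℝ) + 1)
      ≤ (K : ℝ) * (((((2 ^ l - 1 : ℕ) : ℝ) + 1) / ((2 ^ l - 1 : ℕ) : ℝ)) ^ n +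
          ((((2 ^ l - 1 : ℕ) : ℝ) + 1) / ((2 ^ l - 1 : ℕ) : ℝ)) ^ n) :=
        mul_le_mul_of_nonneg_left (add_le_add h1 h2) hK
    _ = _ := by ring

/-- MODULE PROBNO -/
theorem prob_no (B l K k d C L : ℕ) (φ : CNF) (ε : ℝ) (hε : 0 < ε) (hB : 0 < B) (hl : 2 ≤ l)
    (hfar : Far ε φ) (hd1 : 1 ≤ d) (hd : 9 * ((2 : ℝ) ^ l - 1) ^ 3 / (ε / (3 * B)) ≤ d)
    (h0 : nSamp K l (low B φ).length * (low B φ).length * l ≤ L)
    (h1 : nSamp K l (low B φ).length ≤ L) (h2 : 2 ^ (high B φ).length ≤ L)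
    (hsum : (2 : ℝ) ^ (high B φ).length * ((2 * (K : ℝ)) ^ d * (1 / 2) ^ (low B φ).length +
        ∑ j ∈ Icc 1 k, (2 * (K : ℝ) * ((2 : ℝ) ^ l / (2 ^ l - 1)) ^ (low B φ).length *
          (2 * (K : ℝ) * 2 ^ k * Real.exp (-(ε / (3 * B) / (2 * ((2 : ℝ) ^ l - 1) ^ 3) *
            (low B φ).length))) ^ C) ^ j) ≤ 1 / 3) :
    2 * 2 ^ L ≤ 3 * ({w : Fin L → Bool | ∀ S ⊆ range (redG B l K φ (List.ofFn w)).length,
      S.card ≤ k → edgesIn (redG B l K φ (List.ofFn w)) S ≤ (6 * C + 7) * d * S.card}).ncard := by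
  set nL := (low B φ).length with hnL
  set nH := (high B φ).length with hnH
  set N := nSamp K l nL with hN
  have h4 : 4 ≤ 2 ^ l := by
    calc 4 = 2 ^ 2 := by norm_num
      _ ≤ 2 ^ l := Nat.pow_le_pow_right (by norm_num) hl
  have hr1 : 2 ^ l - 1 + 1 = 2 ^ l := by omega
  have hrc : ((2 ^ l - 1 : ℕ) : ℝ) = (2 : ℝ) ^ l - 1 := by
    rw [Nat.cast_sub (by omega)]
    push_cast
    rfl
  have hrc1 : ((2 ^ l - 1 : ℕ) : ℝ) + 1 = (2 : ℝ) ^ l := by rw [hrc]; ring
  have hε' : 0 < ε / (3 * B) := by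
    have : (0 : ℝ) < B := by exact_mod_cast hB
    positivity
  have hval : ValOK (symVal (l := l)) (2 ^ l - 1 + 1) := by
    rw [hr1]
    exact valOK_symVal l (by omega)
  -- bad samples
  set bad : ℕ → Finset (Fin N → Fin nL → Fin l → Bool) := fun i =>
    univ.filter fun U : Fin N → Fin nL → Fin l → Bool => ∃ W : Finset (Fin N), W.card ≤ k ∧
        (6 * C + 7) * d * W.card < eCount (SAdj (okP B φ i) fun a x => symVal (U a x)) W with hbad
  set β : ℝ := (2 * (K : ℝ)) ^ d * (1 / 2) ^ nL +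
        ∑ j ∈ Icc 1 k, (2 * (K : ℝ) * ((2 : ℝ) ^ l / (2 ^ l - 1)) ^ nL *
          (2 * (K : ℝ) * 2 ^ k * Real.exp (-(ε / (3 * B) / (2 * ((2 : ℝ) ^ l - 1) ^ 3) *
            nL))) ^ C) ^ j with hβ
  have hβ0 : 0 ≤ β := by
    have : (0 : ℝ) < 2 ^ l - 1 := by
      rw [← hrc]
      have : 0 < 2 ^ l - 1 := by omega
      exact_mod_cast this
    rw [hβ]
    positivity
  have hb : ∀ i, ((bad i).card : ℝ) ≤ β * Fintype.card (Fin N → Fin nL → Fin l → Bool) := by
    intro i
    rcases gap_formula B hB φ ε hε hfar i with hno | hgap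
    · have : bad i = ∅ := by
        rw [hbad]
        refine Finset.filter_eq_empty_iff.2 ?_
        rintro U _ ⟨W, _, hW⟩
        have he : eCount (SAdj (okP B φ i) fun a x => symVal (U a x)) W = 0 := by
          unfold eCount
          rw [Finset.card_eq_zero]
          refine Finset.filter_eq_empty_iff.2 ?_
          rintro p _ ⟨_, hp⟩
          exact hno _ hp.2.1
        rw [he] at hW
        exact absurd hW (Nat.not_lt_zero _)
      rw [this, Finset.card_empty]
      push_cast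
      positivity
    · have := no_branch (X := Fin nL) (symVal (l := l)) (2 ^ l - 1) (by omega) hval (okP B φ i)
        (ε / (3 * B)) hε' hgap N k d C hd1 (by rw [hrc]; exact hd) (2 * (K : ℝ)) (by positivity)
        (by
          rw [Fintype.card_fin]
          exact Probno_nSamp K l nL hl)
      rw [hrc1, hrc, Fintype.card_fin] at this
      convert this using 3
      · rw [hbad]
        ext U
        simp only [Finset.mem_filter, Finset.mem_univ, true_and]
        exact Iff.rfl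
      · congr!
  -- good samples
  set Q : (Fin N → Fin nL → Fin l → Bool) → Prop := fun U => ∀ i < 2 ^ nH, U ∉ bad i with hQ
  have hcard : (0 : ℝ) < Fintype.card (Fin N → Fin nL → Fin l → Bool) := by
    exact_mod_cast Fintype.card_pos
  have hunion : (((Finset.range (2 ^ nH)).biUnion bad).card : ℝ) ≤
      1 / 3 * Fintype.card (Fin N → Fin nL → Fin l → Bool) := by
    calc (((Finset.range (2 ^ nH)).biUnion bad).card : ℝ)
        ≤ ((∑ i ∈ Finset.range (2 ^ nH), (bad i).card : ℕ) : ℝ) := by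
          exact_mod_cast Finset.card_biUnion_le
      _ = ∑ i ∈ Finset.range (2 ^ nH), ((bad i).card : ℝ) := by push_cast; rfl
      _ ≤ ∑ i ∈ Finset.range (2 ^ nH), β * Fintype.card (Fin N → Fin nL → Fin l → Bool) :=
          Finset.sum_le_sum fun i _ => hb i
      _ = (2 ^ nH * β) * Fintype.card (Fin N → Fin nL → Fin l → Bool) := by
          rw [Finset.sum_const, Finset.card_range, nsmul_eq_mul]
          push_cast
          ring
      _ ≤ _ := mul_le_mul_of_nonneg_right hsum hcard.le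
  have hgood : {U | Q U} = ((((Finset.range (2 ^ nH)).biUnion bad)ᶜ : Finset _) : Set _) := by
    ext U
    simp only [hQ, Set.mem_ofPred_eq, Finset.coe_compl, Set.mem_compl_iff, Finset.mem_coe,
      Finset.mem_biUnion, Finset.mem_range, not_exists, not_and]
  have hgoodc : (2 / 3 : ℝ) * Fintype.card (Fin N → Fin nL → Fin l → Bool) ≤
      ({U | Q U}.ncard : ℝ) := by
    rw [hgood, Set.ncard_coe_finset, Finset.card_compl, Nat.cast_sub (Finset.card_le_univ _)]
    linarith
  have hwords := words_count N nL l L h0 Q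
  have hle : ({w : Fin L → Bool | Q fun a j t =>
        (List.ofFn w).getD ((a.val * nL + j.val) * l + t.val) false}).ncard ≤
      ({w : Fin L → Bool | ∀ S ⊆ range (redG B l K φ (List.ofFn w)).length,
      S.card ≤ k → edgesIn (redG B l K φ (List.ofFn w)) S ≤ (6 * C + 7) * d * S.card}).ncard := by
    refine Set.ncard_le_ncard ?_ (Set.toFinite _)
    intro w hw S hS hk
    refine graph_no B l K ((6 * C + 7) * d) k φ (List.ofFn w) (by simpa using h1)
      (by simpa using h2) ?_ S hS hk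
    intro i hi W hW
    have h := hw i hi
    rw [hbad] at h
    simp only [Finset.mem_filter, Finset.mem_univ, true_and, not_exists, not_and, not_lt] at h
    have h' := h W hW
    have he : (fun a : Fin N => sampP B l φ (List.ofFn w) a.val) = fun (a : Fin N) (x : Fin nL) =>
        symVal fun t : Fin l => (List.ofFn w).getD ((a.val * nL + x.val) * l + t.val) false := by
      funext a x
      exact sym_eq l (by omega) (List.ofFn w) _
    rw [he]
    exact h'
  have hfin : (2 / 3 : ℝ) * 2 ^ L ≤ (({w : Fin L → Bool | Q fun a j t =>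
        (List.ofFn w).getD ((a.val * nL + j.val) * l + t.val) false}).ncard : ℝ) := by
    have e : ((({w : Fin L → Bool | Q fun a j t =>
        (List.ofFn w).getD ((a.val * nL + j.val) * l + t.val) false}).ncard : ℕ) : ℝ) *
        Fintype.card (Fin N → Fin nL → Fin l → Bool) = (({U | Q U}).ncard : ℝ) * 2 ^ L := by
      exact_mod_cast hwords
    have h3 : (2 / 3 : ℝ) * 2 ^ L * Fintype.card (Fin N → Fin nL → Fin l → Bool) ≤
        ((({w : Fin L → Bool | Q fun a j t =>
        (List.ofFn w).getD ((a.val * nL + j.val) * l + t.val) false}).ncard : ℕ) : ℝ) *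
        Fintype.card (Fin N → Fin nL → Fin l → Bool) := by
      rw [e]
      have : (0 : ℝ) ≤ 2 ^ L := by positivity
      nlinarith
    exact le_of_mul_le_mul_right h3 hcard
  have hfin' : (2 : ℝ) * 2 ^ L ≤ 3 * (({w : Fin L → Bool | Q fun a j t =>
        (List.ofFn w).getD ((a.val * nL + j.val) * l + t.val) false}).ncard : ℝ) := by linarith
  have hfin'' : 2 * 2 ^ L ≤ 3 * (({w : Fin L → Bool | Q fun a j t =>
        (List.ofFn w).getD ((a.val * nL + j.val) * l + t.val) false}).ncard) := by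
    exact_mod_cast hfin'
  omega

end Pool.Agent.MP2cea29
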