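import Pool.Agent.Lib.MP_2cea29_lc.Core
import Pool.Agent.Lib.MP_2cea29_lc.Hit

/-!
# Densest k-subgraph: completeness in one branch
-/

namespace Pool.Agent.MP2cea29

open Finset Classical

theorem card_ne_some {S : Type} [Fintype S] {val : S → Option Bool} {r : ℕ}
    (hval : ValOK val (r + 1)) (b : Bool) :
    (univ.filter fun s => val s ≠ some b).card = r := by
  have h1 := Finset.card_filter_add_card_filter_not (s := (univ : Finset S))
    (fun s => val s = some b)
  rw [hval.one b, Finset.card_univ, hval.card_eq] at h1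
  have h2 : (univ.filter fun s => ¬ val s = some b) = univ.filter fun s => val s ≠ some b := rfl
  rw [h2] at h1
  omega

theorem yes_branch {X S : Type} [Fintype X] [Fintype S] (val : S → Option Bool) (r : ℕ)
    (hr : 2 ≤ r) (hval : ValOK val (r + 1)) (τ : X → Bool) (N k s : ℕ) (hN : k * s ≤ N)
    (hs : (k + 3) * (((r : ℝ) + 1) / r) ^ Fintype.card X ≤ s) :
    ((univ.filter fun U : Fin N → X → S =>
        (univ.filter fun a => ∀ x, val (U a x) ≠ some (!τ x)).card < k).card : ℝ) ≤
      1 / 3 * Fintype.card (Fin N → X → S) := by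
  set H : Finset (X → S) := univ.filter fun y => ∀ x, val (y x) ≠ some (!τ x) with hH
  have hHc : H.card = r ^ Fintype.card X := by
    have : H = Fintype.piFinset fun x => univ.filter fun s => val s ≠ some (!τ x) := by
      ext y
      simp [hH, Fintype.mem_piFinset]
    rw [this, Fintype.card_piFinset]
    simp only [card_ne_some hval]
    rw [Finset.prod_const, Finset.card_univ]
  have hY : Fintype.card (X → S) = (r + 1) ^ Fintype.card X := by
    rw [Fintype.card_fun, hval.card_eq]
  have h1 := hit_count H k s N hN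
  have h2 : (univ.filter fun U : Fin N → X → S =>
      (univ.filter fun a => ∀ x, val (U a x) ≠ some (!τ x)).card < k) =
      univ.filter fun U : Fin N → X → S => (univ.filter fun a => U a ∈ H).card < k := by
    ext U
    simp [hH]
  rw [h2]
  suffices h0 : (k : ℝ) * (1 - (H.card : ℝ) / Fintype.card (X → S)) ^ s ≤ 1 / 3 by
    have h0' := mul_le_mul_of_nonneg_right h0
      (Nat.cast_nonneg (α := ℝ) (Fintype.card (Fin N → X → S)))
    have h0'' := h1.trans h0'
    refine le_trans (le_of_eq ?_) h0''
    congr!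
  have hr0 : (0 : ℝ) < r := by exact_mod_cast (by omega : 0 < r)
  set ρ : ℝ := (H.card : ℝ) / Fintype.card (X → S) with hρ
  have hρ' : ρ = (r / (r + 1)) ^ Fintype.card X := by
    rw [hρ, hHc, hY]
    push_cast
    rw [div_pow]
  have hρ0 : 0 < ρ := by rw [hρ']; positivity
  have hρ1 : ρ ≤ 1 := by
    rw [hρ']
    refine pow_le_one₀ (by positivity) ?_
    rw [div_le_one (by positivity)]
    linarith
  have hρs : (k : ℝ) + 3 ≤ ρ * s := by
    have h3 : ρ * (((r : ℝ) + 1) / r) ^ Fintype.card X = 1 := by
      rw [hρ', ← mul_pow]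
      have : (r : ℝ) / (r + 1) * ((r + 1) / r) = 1 := by field_simp
      rw [this, one_pow]
    calc (k : ℝ) + 3 = ρ * ((k + 3) * (((r : ℝ) + 1) / r) ^ Fintype.card X) := by
          rw [mul_left_comm, h3, mul_one]
      _ ≤ ρ * s := mul_le_mul_of_nonneg_left hs hρ0.le
  have h4 : (1 - ρ) ^ s ≤ Real.exp (-(k + 3)) := by
    calc (1 - ρ) ^ s ≤ (Real.exp (-ρ)) ^ s := by
          refine pow_le_pow_left₀ (by linarith) ?_ s
          have := Real.add_one_le_exp (-ρ)
          linarith
      _ = Real.exp (-(ρ * s)) := by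
          rw [← Real.exp_nat_mul]
          ring_nf
      _ ≤ Real.exp (-(k + 3)) := Real.exp_le_exp.2 (by linarith)
  have h5 : (k : ℝ) * Real.exp (-(k + 3)) ≤ 1 / 3 := by
    have h6 : (k : ℝ) ≤ Real.exp k := by
      have := Real.add_one_le_exp (k : ℝ)
      linarith
    have h7 : Real.exp (-((k : ℝ) + 3)) = Real.exp (-3) * (Real.exp k)⁻¹ := by
      rw [← Real.exp_neg, ← Real.exp_add]
      ring_nf
    rw [h7]
    have h8 : Real.exp (-3) ≤ 1 / 3 := by
      rw [Real.exp_neg]
      have := Real.add_one_le_exp (3 : ℝ)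
      rw [inv_eq_one_div]
      exact one_div_le_one_div_of_le (by norm_num) (by linarith)
    have h9 : 0 < Real.exp (k : ℝ) := Real.exp_pos _
    calc (k : ℝ) * (Real.exp (-3) * (Real.exp k)⁻¹) = Real.exp (-3) * (k * (Real.exp k)⁻¹) := by
          ring
      _ ≤ Real.exp (-3) * 1 := by
          refine mul_le_mul_of_nonneg_left ?_ (Real.exp_pos _).le
          rw [← div_eq_mul_inv, div_le_one h9]
          exact h6
      _ ≤ 1 / 3 := by rw [mul_one]; exact h8
  exact (mul_le_mul_of_nonneg_left h4 (Nat.cast_nonneg _)).trans h5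

end Pool.Agent.MP2cea29
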