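import Pool.Agent.Lib.MP_2cea29_lc.Red
import Pool.Agent.Lib.MP_2cea29_lc.Sym
import Pool.Agent.Lib.MP_2cea29_lc.Yesb
import Pool.Agent.Lib.MP_2cea29_lc.Graph
import Pool.Agent.Lib.MP_2cea29_lc.Words

/-!
# Densest k-subgraph: the satisfiable case of the reduction
-/

namespace Pool.Agent.MP2cea29

open Pool.Agent.PolyTime Finset Classical

/-- `yes_branch` for the complement, in terms of `Nat.card` and `Set.ncard`. -/
theorem yes_branch_ncard {X S : Type} [Fintype X] [Fintype S] (val : S → Option Bool) (r : ℕ)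
    (hr : 2 ≤ r) (hval : ValOK val (r + 1)) (τ : X → Bool) (N k s : ℕ) (hN : k * s ≤ N)
    (hs : (k + 3) * (((r : ℝ) + 1) / r) ^ Fintype.card X ≤ s) :
    2 * Nat.card (Fin N → X → S) ≤ 3 * ({U : Fin N → X → S |
      k ≤ ({a : Fin N | ∀ x, val (U a x) ≠ some (!τ x)} : Set (Fin N)).ncard}).ncard := by
  have hbad := yes_branch val r hr hval τ N k s hN hs
  have hin : ∀ U : Fin N → X → S,
      ({a : Fin N | ∀ x, val (U a x) ≠ some (!τ x)} : Set (Fin N)).ncard =
        (univ.filter fun a : Fin N => ∀ x, val (U a x) ≠ some (!τ x)).card := by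
    intro U
    rw [← Set.ncard_coe_finset]
    congr 1
    ext a
    simp
  have hcard : ({U : Fin N → X → S |
      k ≤ ({a : Fin N | ∀ x, val (U a x) ≠ some (!τ x)} : Set (Fin N)).ncard}).ncard =
      (univ.filter fun U : Fin N → X → S =>
        ¬ (univ.filter fun a : Fin N => ∀ x, val (U a x) ≠ some (!τ x)).card < k).card := by
    rw [← Set.ncard_coe_finset]
    congr 1
    ext U
    simp only [Set.mem_ofPred_eq, hin, coe_filter, mem_univ, true_and, not_lt]
  have hsum := Finset.card_filter_add_card_filter_not (s := (univ : Finset (Fin N → X → S)))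
    (fun U : Fin N → X → S =>
      (univ.filter fun a : Fin N => ∀ x, val (U a x) ≠ some (!τ x)).card < k)
  rw [Finset.card_univ] at hsum
  have h3 : 3 * (univ.filter fun U : Fin N → X → S =>
      (univ.filter fun a : Fin N => ∀ x, val (U a x) ≠ some (!τ x)).card < k).card ≤
      Fintype.card (Fin N → X → S) := by
    have h7 : (3 : ℝ) * (univ.filter fun U : Fin N → X → S =>
        (univ.filter fun a : Fin N => ∀ x, val (U a x) ≠ some (!τ x)).card < k).card ≤
        Fintype.card (Fin N → X → S) := by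
      linarith
    exact_mod_cast h7
  rw [Nat.card_eq_fintype_card, hcard]
  omega

theorem prob_yes (B l k L : ℕ) (φ : CNF) (hl : 2 ≤ l) (hsat : Satisfiable φ)
    (h0 : nSamp (k * (k + 3)) l (low B φ).length * (low B φ).length * l ≤ L)
    (h1 : nSamp (k * (k + 3)) l (low B φ).length ≤ L) (h2 : 2 ^ (high B φ).length ≤ L) :
    2 * 2 ^ L ≤ 3 * ({w : Fin L → Bool |
      ∃ S ⊆ range (redG B l (k * (k + 3)) φ (List.ofFn w)).length, S.card = k ∧
        k * (k - 1) ≤ 2 * edgesIn (redG B l (k * (k + 3)) φ (List.ofFn w)) S}).ncard := by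
  obtain ⟨τ, hτ⟩ := hsat
  set n := (low B φ).length with hn
  set N := nSamp (k * (k + 3)) l n with hN
  have h4 : 2 ^ 2 ≤ 2 ^ l := Nat.pow_le_pow_right (by norm_num) hl
  obtain ⟨r, hr⟩ : ∃ r, 2 ^ l = r + 1 := ⟨2 ^ l - 1, by omega⟩
  have hr2 : 2 ≤ r := by omega
  have hval : ValOK (symVal (l := l)) (r + 1) := hr ▸ valOK_symVal l (by omega)
  set Q : (Fin N → Fin n → Fin l → Bool) → Prop := fun U =>
    k ≤ ({a : Fin N | ∀ x : Fin n, symVal (U a x) ≠ some (!τ (low B φ)[x])} :
      Set (Fin N)).ncard with hQ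
  -- the bad set
  set s : ℕ := (k + 3) * ((r + 1) ^ n / r ^ n + 1) with hs
  have hNs : k * s ≤ N := by
    have : N = k * s := by
      rw [hN, hs, nSamp, hr, Nat.add_sub_cancel]
      ring
    exact this.ge
  have hrpos : (0 : ℝ) < r := by
    have : 0 < r := by omega
    exact_mod_cast this
  have hsr : ((k : ℝ) + 3) * (((r : ℝ) + 1) / r) ^ Fintype.card (Fin n) ≤ s := by
    rw [Fintype.card_fin, hs]
    push_cast
    refine mul_le_mul_of_nonneg_left ?_ (by positivity)
    rw [div_pow, div_le_iff₀ (by positivity)]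
    have h5 : (r + 1) ^ n < r ^ n * ((r + 1) ^ n / r ^ n + 1) := by
      have hp : 0 < r ^ n := Nat.pow_pos (by omega)
      exact Nat.lt_mul_div_succ _ hp
    have h6 : (((r + 1) ^ n : ℕ) : ℝ) ≤ ((r ^ n * ((r + 1) ^ n / r ^ n + 1) : ℕ) : ℝ) := by
      exact_mod_cast h5.le
    push_cast at h6
    linarith
  have hgood := yes_branch_ncard (X := Fin n) (S := Fin l → Bool) symVal r hr2 hval
    (fun j => τ (low B φ)[j]) N k s hNs hsr
  have hw := words_count N n l L (by rw [hN]; exact h0) Q
  have hc : Fintype.card (Fin N → Fin n → Fin l → Bool) =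
      Nat.card (Fin N → Fin n → Fin l → Bool) := Nat.card_eq_fintype_card.symm
  rw [hc] at hw
  set c := Nat.card (Fin N → Fin n → Fin l → Bool) with hcdef
  have hcpos : 0 < c := Nat.card_pos
  set W : Set (Fin L → Bool) := {w : Fin L → Bool | Q fun a j t =>
        (List.ofFn w).getD ((a.val * n + j.val) * l + t.val) false} with hW
  have h8 : 2 * 2 ^ L ≤ 3 * W.ncard := by
    have h9 : 2 * c ≤ 3 * ({U | Q U} : Set (Fin N → Fin n → Fin l → Bool)).ncard := hgood
    have h10 : (2 * 2 ^ L) * c ≤ (3 * W.ncard) * c := by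
      calc (2 * 2 ^ L) * c = (2 * c) * 2 ^ L := by ring
        _ ≤ (3 * ({U | Q U} : Set (Fin N → Fin n → Fin l → Bool)).ncard) * 2 ^ L :=
            Nat.mul_le_mul_right _ h9
        _ = 3 * (({U | Q U} : Set (Fin N → Fin n → Fin l → Bool)).ncard * 2 ^ L) := by ring
        _ = 3 * (W.ncard * c) := by rw [← hw]
        _ = (3 * W.ncard) * c := by ring
    exact Nat.le_of_mul_le_mul_right h10 hcpos
  refine h8.trans (Nat.mul_le_mul_left _ (Set.ncard_le_ncard ?_ (Set.toFinite _)))
  intro w hwW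
  have hlen : (List.ofFn w).length = L := List.length_ofFn
  refine graph_yes B l (k * (k + 3)) k φ (List.ofFn w) (by rw [hlen]; exact h1)
    (by rw [hlen]; exact h2) τ hτ ?_
  have h11 : Q fun a j t => (List.ofFn w).getD ((a.val * n + j.val) * l + t.val) false := hwW
  rw [hQ] at h11
  refine h11.trans (le_of_eq ?_)
  rw [← Set.ncard_coe_finset]
  congr 1
  ext a
  simp only [coe_filter, mem_univ, true_and, Set.mem_ofPred_eq]
  refine forall_congr' fun j => ?_
  rw [sampP, sym_eq l (by omega)]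

end Pool.Agent.MP2cea29
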