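import Pool.Agent.Lib.MP_2cea29_lc.Red
import Pool.Agent.Lib.PolyTime.More

/-! Sizes of codes. -/

namespace Pool.Agent.MP2cea29

open Pool.Agent.PolyTime Finset Classical

/-- MODULE SIZE -/
theorem length_redG (B l K : ℕ) (φ : CNF) (w : List Bool) :
    (redG B l K φ w).length = nB B φ w * nS B l K φ w := by
  simp [redG]

theorem len_redG_le (B l K : ℕ) (φ : CNF) (w : List Bool) :
    len (redG B l K φ w) ≤ 8 * ((redG B l K φ w).length + 1) ^ 3 := by
  set V := (redG B l K φ w).length with hV
  have hV' : nB B φ w * nS B l K φ w = V := (length_redG B l K φ w).symm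
  have hrow : ∀ x ∈ redG B l K φ w, size (enc x) ≤ V * (4 * V + 2) + 1 := by
    intro x hx
    unfold redG at hx
    rw [List.mem_map] at hx
    obtain ⟨u, -, rfl⟩ := hx
    rw [hV']
    have h1 := size_list_le ((List.range V).filter fun v => adjV B l K φ w u v) (4 * V + 1) (by
      intro y hy
      have hy2 : y < V := List.mem_range.1 (List.mem_filter.1 hy).1
      have := size_nat_le y
      omega)
    have h2 : ((List.range V).filter fun v => adjV B l K φ w u v).length ≤ V := by
      simpa using List.length_filter_le (fun v => adjV B l K φ w u v) (List.range V)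
    have h3 := Nat.mul_le_mul_right (4 * V + 1 + 1) h2
    exact h1.trans (Nat.add_le_add_right h3 1)
  have h1 : size (enc (redG B l K φ w)) ≤ _ := size_list_le (redG B l K φ w) _ hrow
  have h2 : len (redG B l K φ w) ≤ V * (V * (4 * V + 2) + 1 + 1) + 1 := h1
  refine h2.trans ?_
  nlinarith [sq_nonneg V, Nat.zero_le (V ^ 3), Nat.zero_le (V ^ 2)]

theorem len_input_le (φ : CNF) (w : List Bool) : len (φ, w) ≤ len φ + 4 * w.length + 2 := by
  have h1 : size (enc (φ, w)) = size (enc φ) + size (enc w) + 1 := size_pair φ w
  have h2 := size_list_le w 3 (by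
    intro b _
    cases b <;> decide)
  change size (enc (φ, w)) ≤ size (enc φ) + 4 * w.length + 2
  omega

end Pool.Agent.MP2cea29
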