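import Pool.Agent.Lib.MP_2cea29_lc.Red
import Pool.Agent.Lib.MP_2cea29_lc.Vars
import Pool.Agent.Lib.PolyTime.More

/-!
# Densest k-subgraph: correctness of brute force and of the edge count
-/

namespace Pool.Agent.MP2cea29

open Pool.Agent.PolyTime Finset Classical

theorem mem_litsAll (φ : CNF) (i y : ℕ) (b : Bool) :
    (y, b) ∈ litsAll φ i ↔
      ∃ j : Fin (vars φ).length, (vars φ)[j] = y ∧ i.bits.getD j false = b := by
  unfold litsAll
  rw [List.mem_map]
  constructor
  · rintro ⟨⟨x, t⟩, hp, hm⟩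
    rw [List.mem_zipIdx_iff_getElem?] at hp
    obtain ⟨hi, hx⟩ := List.getElem?_eq_some_iff.1 hp
    simp only [Prod.mk.injEq] at hm
    exact ⟨⟨t, hi⟩, hx.trans hm.1, hm.2⟩
  · rintro ⟨j, hj, hs⟩
    refine ⟨((vars φ)[j], j.val), ?_, ?_⟩
    · rw [List.mem_zipIdx_iff_getElem?]
      simp
    · simp only [Prod.mk.injEq]
      exact ⟨hj, hs⟩

/-- if the bits of `i` are the values of `τ` then the literals of `i` falsify `c` iff `τ` violates
`c` -/
theorem falsified_litsAll (φ : CNF) (i : ℕ) (τ : ℕ → Bool)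
    (h : ∀ j : Fin (vars φ).length, i.bits.getD j false = τ (vars φ)[j]) (c : Clause)
    (hc : c ∈ φ) : falsified (litsAll φ i) c = true ↔ Violates τ c := by
  have key : ∀ x : Lit, (x.1 = c.1.1 ∨ x.1 = c.2.1.1 ∨ x.1 = c.2.2.1) →
      ((x.1, !x.2) ∈ litsAll φ i ↔ τ x.1 ≠ x.2) := by
    intro x hx
    rw [mem_litsAll]
    have hmem : x.1 ∈ vars φ := (mem_vars φ x.1).2 ⟨c, hc, hx⟩
    obtain ⟨j, hj, hjx⟩ := List.getElem_of_mem hmem
    constructor
    · rintro ⟨j', hj', hb⟩
      rw [h, hj'] at hb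
      rw [hb]
      simp
    · intro hne
      refine ⟨⟨j, hj⟩, hjx, ?_⟩
      rw [h]
      have : (vars φ)[(⟨j, hj⟩ : Fin (vars φ).length)] = x.1 := hjx
      rw [this]
      cases hx2 : x.2 <;> cases hτ : τ x.1 <;> simp_all
  unfold falsified Violates
  simp only [Bool.and_eq_true, decide_eq_true_eq]
  rw [key c.1 (Or.inl rfl), key c.2.1 (Or.inr (Or.inl rfl)), key c.2.2 (Or.inr (Or.inr rfl))]

theorem nviol_eq_zero (τ : ℕ → Bool) (φ : CNF) :
    nviol τ φ = 0 ↔ ∀ c ∈ φ, ¬ Violates τ c := by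
  unfold nviol
  rw [List.length_eq_zero_iff, List.filter_eq_nil_iff]
  simp

theorem brute_iff (φ : CNF) (M : ℕ) (hM : 2 ^ (vars φ).length ≤ M) :
    brute φ M = true ↔ Satisfiable φ := by
  unfold brute Satisfiable
  rw [List.any_eq_true]
  constructor
  · rintro ⟨i, -, hi⟩
    rw [List.all_eq_true] at hi
    -- the assignment
    let τ : ℕ → Bool := fun x => i.bits.getD ((vars φ).idxOf x) false
    have hτ : ∀ j : Fin (vars φ).length, i.bits.getD j false = τ (vars φ)[j] := by
      intro j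
      show _ = i.bits.getD ((vars φ).idxOf (vars φ)[j.val]) false
      rw [(vars_nodup φ).idxOf_getElem j.val j.2]
    refine ⟨τ, (nviol_eq_zero _ _).2 fun c hc hv => ?_⟩
    have h1 := hi c hc
    rw [(falsified_litsAll φ i τ hτ c hc).2 hv] at h1
    exact absurd h1 (by decide)
  · rintro ⟨τ, hτ⟩
    rw [nviol_eq_zero] at hτ
    set i := Nat.ofBits (fun j : Fin (vars φ).length => τ (vars φ)[j]) with hi
    have hilt : i < 2 ^ (vars φ).length := Nat.ofBits_lt_two_pow _
    have hibits : ∀ j : Fin (vars φ).length, i.bits.getD j false = τ (vars φ)[j] := by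
      intro j
      have e1 : i.testBit j = τ (vars φ)[j] := by
        rw [hi, Nat.testBit_ofBits_lt _ _ j.2]
      rw [← e1, Nat.testBit_eq_inth, List.getI_eq_getElem?_getD, List.getD_eq_getElem?_getD]
      rfl
    refine ⟨i, List.mem_range.2 (hilt.trans_le hM), ?_⟩
    rw [List.all_eq_true]
    intro c hc
    have h1 : falsified (litsAll φ i) c = false := by
      rw [← Bool.not_eq_true, falsified_litsAll φ i τ hibits c hc]
      exact hτ c hc
    rw [h1]
    rfl

theorem edgesL_eq (G : GraphIn) (S : List ℕ) (hS : S.Nodup) :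
    edgesL G S = edgesIn G S.toFinset := by
  unfold edgesL edgesIn
  have hnd : (S.flatMap fun u => S.map fun v => (u, v)).Nodup := hS.product hS
  have hmem : ∀ p : ℕ × ℕ, p ∈ (S.flatMap fun u => S.map fun v => (u, v)) ↔
      p.1 ∈ S ∧ p.2 ∈ S := by
    rintro ⟨u, v⟩
    exact List.mem_product
  rw [← List.toFinset_card_of_nodup (hnd.filter _)]
  congr 1
  ext p
  rw [List.mem_toFinset, List.mem_filter, hmem, mem_filter, mem_product, List.mem_toFinset,
    List.mem_toFinset]
  simp only [Bool.and_eq_true, Bool.or_eq_true, decide_eq_true_eq]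
  unfold AdjIn
  constructor
  · rintro ⟨h1, h2, h3⟩
    exact ⟨h1, h2, h2.ne, h3⟩
  · rintro ⟨h1, h2, -, h3⟩
    exact ⟨h1, h2, h3⟩

theorem outS_nodup (G : GraphIn) (d : D) : (outS G d).Nodup := by
  unfold outS
  exact List.nodup_range.filter _

theorem toListD_enc (L : List ℕ) : toListD (enc L) = L.map enc := by
  induction L with
  | nil => rfl
  | cons a L ih =>
    have h1 : toListD (enc (a :: L)) = enc a :: toListD (enc L) := rfl
    rw [h1, ih, List.map_cons]

theorem enc_nat_inj {a b : ℕ} (h : enc a = enc b) : a = b := EncInj.inj h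

theorem outS_toFinset (G : GraphIn) (L : List ℕ) (hL : L.toFinset ⊆ range G.length) :
    (outS G (enc L)).toFinset = L.toFinset := by
  ext u
  unfold outS
  rw [List.mem_toFinset, List.mem_filter, List.mem_toFinset, List.mem_range, toListD_enc,
    decide_eq_true_eq, List.mem_map]
  constructor
  · rintro ⟨-, v, hv, huv⟩
    rwa [enc_nat_inj huv] at hv
  · intro hu
    exact ⟨mem_range.1 (hL (List.mem_toFinset.2 hu)), u, hu, rfl⟩

end Pool.Agent.MP2cea29
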