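import Pool.Agent.Lib.MP_2cea29_lc.Param
import Pool.Agent.Lib.MP_2cea29_lc.Clock
import Pool.Agent.Lib.MP_2cea29_lc.Hard
import Pool.Agent.Lib.MP_2cea29_lc.Alg
import Pool.Agent.Lib.MP_2cea29_lc.Size
import Pool.Agent.Lib.MP_2cea29_lc.Spec
import Pool.Agent.Lib.MP_2cea29_lc.Asym1
import Pool.Agent.Lib.MP_2cea29_lc.Asym2
import Pool.Agent.Lib.MP_2cea29_lc.Probno
import Pool.Agent.Lib.MP_2cea29_lc.Probyes

/-!
# Densest k-subgraph: Gap-ETH excludes approximation algorithms
-/

namespace Pool.Agent.MP2cea29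

open Pool.Agent.PolyTime Finset Classical

/-- the answer of the algorithm in the main case -/
theorem algo_main {A : GraphIn × ℕ → List ℕ} {clk : (GraphIn × ℕ) × List Bool → D}
    {T : GraphIn × ℕ → ℕ}
    (hclk : ∀ x ∈ {x : GraphIn × ℕ | x.2 ≤ x.1.length}, ∀ w : List Bool, T x ≤ w.length →
      clk (x, w) = enc (A x))
    (hA : ∀ (G : GraphIn) (k : ℕ), k ≤ G.length → (A (G, k)).toFinset ⊆ range G.length)
    (p : Par) (φ : CNF) (w : List Bool)
    (h : ¬ 2 ^ (vars φ).length ≤ p.2.2.2.2.2.length)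
    (hk : p.2.2.1 ≤ (redG p.2.1 p.1.length p.2.2.2.1 φ w).length)
    (hT : T (redG p.2.1 p.1.length p.2.2.2.1 φ w, p.2.2.1) ≤ w.length) :
    algo clk (p, (φ, w)) = decide (p.2.2.2.2.1 * p.2.2.1 <
      edgesIn (redG p.2.1 p.1.length p.2.2.2.1 φ w)
        (A (redG p.2.1 p.1.length p.2.2.2.1 φ w, p.2.2.1)).toFinset) := by
  unfold algo
  simp only
  rw [if_neg h, hclk _ hk w hT, edgesL_eq _ _ (outS_nodup _ _),
    outS_toFinset _ _ (hA _ _ hk)]

theorem far_not_sat {ε : ℝ} (hε : 0 < ε) {φ : CNF} (h : Far ε φ) : ¬ Satisfiable φ := by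
  rintro ⟨τ, hτ⟩
  have h1 := h.2 τ
  rw [hτ] at h1
  have h2 : 0 < (φ.length : ℝ) := by exact_mod_cast List.length_pos_iff.2 h.1
  have := mul_pos hε h2
  push_cast at h1
  linarith

theorem ncard_univ_bool (L : ℕ) : (Set.univ : Set (Fin L → Bool)).ncard = 2 ^ L := by
  rw [Set.ncard_univ, Nat.card_eq_fintype_card]
  simp

/-- Brute force is always right. -/
theorem brute_case (clk : (GraphIn × ℕ) × List Bool → D) (ε : ℝ) (hε : 0 < ε) (p : Par) (φ : CNF)
    (L : ℕ) (h : 2 ^ (vars φ).length ≤ p.2.2.2.2.2.length) :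
    (Satisfiable φ → 2 * 2 ^ L ≤ 3 * ({w : Fin L → Bool |
      algo clk (p, (φ, List.ofFn w)) = true}).ncard) ∧
    (Far ε φ → 2 * 2 ^ L ≤ 3 * ({w : Fin L → Bool |
      algo clk (p, (φ, List.ofFn w)) = false}).ncard) := by
  have hb : ∀ w, algo clk (p, (φ, w)) = brute φ p.2.2.2.2.2.length := by
    intro w
    unfold algo
    simp only
    rw [if_pos h]
  have hbr := brute_iff φ _ h
  constructor
  · intro hsat
    have : {w : Fin L → Bool | algo clk (p, (φ, List.ofFn w)) = true} = Set.univ := by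
      ext w
      refine ⟨fun _ => trivial, fun _ => ?_⟩
      show algo clk (p, (φ, List.ofFn w)) = true
      rw [hb, hbr]
      exact hsat
    rw [this, ncard_univ_bool]
    omega
  · intro hfar
    have : {w : Fin L → Bool | algo clk (p, (φ, List.ofFn w)) = false} = Set.univ := by
      ext w
      refine ⟨fun _ => trivial, fun _ => ?_⟩
      show algo clk (p, (φ, List.ofFn w)) = false
      rw [hb, ← Bool.not_eq_true, hbr]
      exact far_not_sat hε hfar
    rw [this, ncard_univ_bool]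
    omega

/-- The main case: the answer is right with probability `2 / 3`. -/
theorem main_case {α : ℕ → ℝ} {A : GraphIn × ℕ → List ℕ}
    {clk : (GraphIn × ℕ) × List Bool → D} {T : GraphIn × ℕ → ℕ}
    (hclk : ∀ x ∈ {x : GraphIn × ℕ | x.2 ≤ x.1.length}, ∀ w : List Bool, T x ≤ w.length →
      clk (x, w) = enc (A x))
    (hA : ∀ (G : GraphIn) (k : ℕ), k ≤ G.length →
      (A (G, k)).toFinset ⊆ Finset.range G.length ∧ (A (G, k)).toFinset.card = k ∧
      ∀ S ⊆ Finset.range G.length, S.card = k →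
        (edgesIn G S : ℝ) ≤ α k * edgesIn G (A (G, k)).toFinset)
    (ε : ℝ) (hε : 0 < ε) (p : Par) (φ : CNF) (l B k d C L : ℕ)
    (hp1 : p.1.length = l) (hp2 : p.2.1 = B) (hp3 : p.2.2.1 = k) (hp4 : p.2.2.2.1 = k * (k + 3))
    (hp5 : p.2.2.2.2.1 = (6 * C + 7) * d)
    (hp6 : ¬ 2 ^ (vars φ).length ≤ p.2.2.2.2.2.length)
    (hk2 : 2 ≤ k) (hl : 2 ≤ l) (hB : 0 < B) (hd1 : 1 ≤ d)
    (hd : 9 * ((2 : ℝ) ^ l - 1) ^ 3 / (ε / (3 * B)) ≤ d)
    (hαk : α k * ((6 * C + 7) * d : ℕ) < ((k : ℝ) - 1) / 2)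
    (ha1 : nSamp (k * (k + 3)) l (low B φ).length * (low B φ).length * l ≤ L)
    (ha2 : 2 ^ (high B φ).length * nSamp (k * (k + 3)) l (low B φ).length ≤ L)
    (ha3 : ∀ G : GraphIn, G.length = 2 ^ (high B φ).length *
      nSamp (k * (k + 3)) l (low B φ).length → len G ≤ 8 * (G.length + 1) ^ 3 → T (G, k) ≤ L)
    (hb : (2 : ℝ) ^ (high B φ).length * ((2 * ((k * (k + 3) : ℕ) : ℝ)) ^ d *
        (1 / 2) ^ (low B φ).length + ∑ j ∈ Icc 1 k, (2 * ((k * (k + 3) : ℕ) : ℝ) *
          ((2 : ℝ) ^ l / (2 ^ l - 1)) ^ (low B φ).length *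
          (2 * ((k * (k + 3) : ℕ) : ℝ) * 2 ^ k *
            Real.exp (-(ε / (3 * B) / (2 * ((2 : ℝ) ^ l - 1) ^ 3) *
            (low B φ).length))) ^ C) ^ j) ≤ 1 / 3) :
    (Satisfiable φ → 2 * 2 ^ L ≤ 3 * ({w : Fin L → Bool |
      algo clk (p, (φ, List.ofFn w)) = true}).ncard) ∧
    (Far ε φ → 2 * 2 ^ L ≤ 3 * ({w : Fin L → Bool |
      algo clk (p, (φ, List.ofFn w)) = false}).ncard) := by
  set K : ℕ := k * (k + 3) with hK
  have hKpos : 0 < K := by rw [hK]; positivity
  have hnpos : K ≤ nSamp K l (low B φ).length := by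
    unfold nSamp
    exact Nat.le_mul_of_pos_right _ (Nat.succ_pos _)
  have hn : nSamp K l (low B φ).length ≤ L := by
    refine le_trans ?_ ha2
    exact Nat.le_mul_of_pos_left _ (by positivity)
  have hh : 2 ^ (high B φ).length ≤ L := by
    refine le_trans ?_ ha2
    exact Nat.le_mul_of_pos_right _ (by omega)
  -- size of the graph
  have hlen : ∀ w : List Bool, w.length = L →
      (redG B l K φ w).length = 2 ^ (high B φ).length * nSamp K l (low B φ).length := by
    intro w hw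
    rw [length_redG, nB, nS, hw, min_eq_left hh, min_eq_left hn]
  have hkG : ∀ w : List Bool, w.length = L → k ≤ (redG B l K φ w).length := by
    intro w hw
    rw [hlen w hw]
    have h1 : k ≤ K := by rw [hK]; nlinarith
    calc k ≤ K := h1
      _ ≤ nSamp K l (low B φ).length := hnpos
      _ ≤ _ := Nat.le_mul_of_pos_left _ (by positivity)
  have hT : ∀ w : List Bool, w.length = L → T (redG B l K φ w, k) ≤ w.length := by
    intro w hw
    rw [hw]
    exact ha3 _ (hlen w hw) (len_redG_le B l K φ w)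
  have hmain : ∀ w : List Bool, w.length = L → algo clk (p, (φ, w)) =
      decide (((6 * C + 7) * d) * k < edgesIn (redG B l K φ w)
        (A (redG B l K φ w, k)).toFinset) := by
    intro w hw
    have := algo_main (A := A) (clk := clk) (T := T)
      hclk (fun G k hk => (hA G k hk).1) p φ w hp6
      (by rw [hp1, hp2, hp3, hp4]; exact hkG w hw) (by rw [hp1, hp2, hp3, hp4]; exact hT w hw)
    rw [hp1, hp2, hp3, hp4, hp5] at this
    exact this
  constructor
  · intro hsat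
    have hyes := prob_yes B l k L φ hl hsat ha1 hn hh
    refine hyes.trans (Nat.mul_le_mul_left _ (Set.ncard_le_ncard ?_ (Set.toFinite _)))
    rintro w ⟨S, hS, hSk, hSe⟩
    show algo clk (p, (φ, List.ofFn w)) = true
    rw [hmain _ (List.length_ofFn), decide_eq_true_eq]
    by_contra hlt
    push Not at hlt
    have h1 := (hA (redG B l K φ (List.ofFn w)) k (hkG _ (List.length_ofFn))).2.2 S hS hSk
    set e1 := edgesIn (redG B l K φ (List.ofFn w)) S
    set e2 := edgesIn (redG B l K φ (List.ofFn w)) (A (redG B l K φ (List.ofFn w), k)).toFinset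
    have h2 : (k : ℝ) * (k - 1) ≤ 2 * e1 := by
      have : ((k * (k - 1) : ℕ) : ℝ) ≤ ((2 * e1 : ℕ) : ℝ) := by exact_mod_cast hSe
      rw [Nat.cast_mul, Nat.cast_sub (by omega), Nat.cast_mul] at this
      simpa using this
    have h3 : (e2 : ℝ) ≤ (((6 * C + 7) * d : ℕ) : ℝ) * k := by exact_mod_cast hlt
    have hk0 : (2 : ℝ) ≤ k := by exact_mod_cast hk2
    rcases le_or_gt (α k) 0 with hneg | hpos
    · have h4 : α k * e2 ≤ 0 := mul_nonpos_of_nonpos_of_nonneg hneg (Nat.cast_nonneg _)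
      nlinarith
    · have h4 : α k * e2 ≤ α k * ((((6 * C + 7) * d : ℕ) : ℝ) * k) :=
        mul_le_mul_of_nonneg_left h3 hpos.le
      have h5 : α k * ((((6 * C + 7) * d : ℕ) : ℝ) * k) < ((k : ℝ) - 1) / 2 * k := by
        have := mul_lt_mul_of_pos_right hαk (show (0 : ℝ) < k by linarith)
        linarith
      nlinarith
  · intro hfar
    have hno := prob_no B l K k d C L φ ε hε hB hl hfar hd1 hd ha1 hn hh hb
    refine hno.trans (Nat.mul_le_mul_left _ (Set.ncard_le_ncard ?_ (Set.toFinite _)))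
    intro w hw
    show algo clk (p, (φ, List.ofFn w)) = false
    rw [hmain _ (List.length_ofFn), decide_eq_false_iff_not, not_lt]
    have h1 := hA (redG B l K φ (List.ofFn w)) k (hkG _ (List.length_ofFn))
    have h2 := hw _ h1.1 h1.2.1.le
    rw [h1.2.1] at h2
    exact h2

theorem gapSolver_of {α : ℕ → ℝ} {f t : ℕ → ℕ} (h : DkSApprox α f t)
    (hα : Filter.Tendsto (fun k => α k * (t k + 1 : ℝ) ^ 7 / k) Filter.atTop (nhds 0))
    (ε : ℝ) (hε : 0 < ε) (D : ℕ) (hD : 0 < D) : GapSolver ε D := by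
  obtain ⟨A, hAc, hA⟩ := h
  obtain ⟨clk, hclkP, hclk⟩ := clocked hAc
  obtain ⟨c, hc⟩ := hardcode (algo_ptime clk hclkP)
  -- number of random bits
  set E : ℕ := (c + 1) * D with hE
  have hE0 : 0 < E := by positivity
  obtain ⟨k, l, d, C, hk2, hl, hd1, hr, hd, hC, hαk⟩ := exists_params hα ε hε E hE0
  set B : ℕ := 3 * (2 ^ l - 1) with hB
  set K : ℕ := k * (k + 3) with hK
  have h2l : 4 ≤ 2 ^ l := by
    calc 4 = 2 ^ 2 := by norm_num
      _ ≤ 2 ^ l := Nat.pow_le_pow_right (by norm_num) hl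
  have hB0 : 0 < B := by omega
  have hc0 : 0 < ε / (3 * (B : ℝ)) / (2 * ((2 : ℝ) ^ l - 1) ^ 3) := by
    have : (4 : ℝ) ≤ 2 ^ l := by exact_mod_cast h2l
    have hB0' : (0 : ℝ) < B := by exact_mod_cast hB0
    have : 0 < ((2 : ℝ) ^ l - 1) ^ 3 := by
      apply pow_pos; linarith
    positivity
  obtain ⟨n1, hn1⟩ := asym1 l E K (f k) (t k) hl hE0 hr
  obtain ⟨n2, hn2⟩ := asym2 l K k d C _ hl hc0 hC
  set n0 : ℕ := max n1 n2 with hn0
  let p : Par := (List.replicate l (), B, k, K, (6 * C + 7) * d, List.replicate (2 ^ n0) ())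
  obtain ⟨C1, hC1⟩ := hc p
  refine ⟨fun x => algo clk (p, x), E, C1 * 8 ^ c + c + 1, hE0, ?_, ?_⟩
  · -- running time
    obtain ⟨M, hM⟩ := hC1
    refine ⟨M, fun x hx => ?_⟩
    obtain ⟨hM1⟩ := hM x (Set.mem_univ x)
    refine ⟨⟨hM1.toEvalsTo, hM1.steps_le_m.trans ?_⟩⟩
    obtain ⟨φ, w⟩ := x
    have hx' : w.length = 2 ^ (nvar φ / E) := hx
    have h1 : len (φ, w) + 1 ≤ 8 * ((len φ + 1) * 2 ^ (nvar φ / E)) := by
      have h2 := len_input_le φ w
      rw [hx'] at h2
      have h3 : 1 ≤ 2 ^ (nvar φ / E) := Nat.one_le_two_pow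
      nlinarith
    have h4 : (2 ^ (nvar φ / E)) ^ c ≤ 2 ^ (nvar φ / D) := by
      rw [← pow_mul]
      refine Nat.pow_le_pow_right (by norm_num) ?_
      rw [hE]
      have : nvar φ / ((c + 1) * D) * c ≤ nvar φ / D := by
        rw [Nat.le_div_iff_mul_le hD]
        calc nvar φ / ((c + 1) * D) * c * D ≤ nvar φ / ((c + 1) * D) * ((c + 1) * D) := by
              rw [mul_assoc]
              exact Nat.mul_le_mul_left _ (Nat.mul_le_mul_right _ (Nat.le_succ c))
          _ ≤ nvar φ := Nat.div_mul_le_self _ _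
      exact this
    calc C1 * (len (φ, w) + 1) ^ c ≤ C1 * (8 * ((len φ + 1) * 2 ^ (nvar φ / E))) ^ c :=
          Nat.mul_le_mul_left _ (Nat.pow_le_pow_left h1 c)
      _ = (C1 * 8 ^ c) * (len φ + 1) ^ c * (2 ^ (nvar φ / E)) ^ c := by
          rw [mul_pow, mul_pow]; ring
      _ ≤ (C1 * 8 ^ c + c + 1) * (len φ + 1) ^ (C1 * 8 ^ c + c + 1) * 2 ^ (nvar φ / D) := by
          refine Nat.mul_le_mul (Nat.mul_le_mul (by omega) ?_) h4
          exact Nat.pow_le_pow_right (Nat.succ_pos _) (by omega)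
  · intro φ
    by_cases hsmall : nvar φ ≤ n0
    · refine brute_case clk ε hε p φ _ ?_
      show _ ≤ (List.replicate (2 ^ n0) ()).length
      rw [List.length_replicate, ← nvar_eq]
      exact Nat.pow_le_pow_right (by norm_num) hsmall
    · push Not at hsmall
      have hbig : n0 ≤ nvar φ := hsmall.le
      have hsplit := low_add_high B φ
      have hhigh : (high B φ).length * (2 ^ l - 1) ≤ nvar φ := by
        have := high_le B φ
        rw [hB] at this ⊢
        have h3 : (high (3 * (2 ^ l - 1)) φ).length * (3 * (2 ^ l - 1)) =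
          3 * ((high (3 * (2 ^ l - 1)) φ).length * (2 ^ l - 1)) := by ring
        rw [h3] at this
        omega
      obtain ⟨ha1, ha2, ha3⟩ := hn1 (nvar φ) ((le_max_left _ _).trans hbig) _ _ hsplit hhigh
      have hb := hn2 (nvar φ) ((le_max_right _ _).trans hbig) _ _ hsplit hhigh
      refine main_case (T := fun x => f x.2 * (len x.1 + 1) ^ t x.2) hclk hA ε hε p φ l B k d C _
        (List.length_replicate ..) rfl rfl rfl rfl ?_ hk2 hl hB0 hd1 hd hαk ha1 ha2 ?_ hb
      · show ¬ _ ≤ (List.replicate (2 ^ n0) ()).length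
        rw [List.length_replicate, ← nvar_eq, not_le]
        exact Nat.pow_lt_pow_right (by norm_num) hsmall
      · intro G hG hlG
        show f k * (len G + 1) ^ t k ≤ _
        refine le_trans (Nat.mul_le_mul_left _ (Nat.pow_le_pow_left ?_ _)) ha3
        have hG' : G.length = 2 ^ (high B φ).length * nSamp K l (low B φ).length := hG
        rw [hG'] at hlG
        omega

/-- Randomized Gap-ETH excludes the approximation algorithm. -/
theorem main (h : RandomizedGapETH) {α : ℕ → ℝ} {f t : ℕ → ℕ}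
    (hα : Filter.Tendsto (fun k => α k * (t k + 1 : ℝ) ^ 7 / k) Filter.atTop (nhds 0)) :
    ¬ DkSApprox α f t := by
  intro hA
  obtain ⟨ε, hε, D, hD, hn⟩ := h
  exact hn (gapSolver_of hA hα ε hε D hD)

end Pool.Agent.MP2cea29
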