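import Pool.Agent.Lib.MP_2cea29_lc.Red2

/-!
# Densest k-subgraph: decoding numbers
-/

namespace Pool.Agent.MP2cea29

open Pool.Agent.PolyTime

theorem NATD_map (l : List Bool) :
    (toListD (enc l)).map (fun x => decide (x ≠ D.nil)) = l := by
  induction l with
  | nil => rfl
  | cons b l ih =>
    have h1 : toListD (enc (b :: l)) = enc b :: toListD (enc l) := rfl
    rw [h1, List.map_cons, ih]
    congr 1
    cases b
    · rfl
    · rfl

theorem natOfD_enc (n : ℕ) : natOfD (enc n) = n := by
  have h : (enc n : D) = enc n.bits := rfl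
  unfold natOfD
  rw [h, NATD_map]
  exact ofBits_bits n

end Pool.Agent.MP2cea29
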