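import Pool.Agent.Lib.MP_2cea29_lc.Red

/-!
# Choice of the parameters (MP_2cea29_lc, module PARAM)
-/

namespace Pool.Agent.MP2cea29

open Pool.Agent.PolyTime Finset Classical

/-- MODULE PARAM -/
theorem exists_params {α : ℕ → ℝ} {t : ℕ → ℕ}
    (hα : Filter.Tendsto (fun k => α k * (t k + 1 : ℝ) ^ 7 / k) Filter.atTop (nhds 0))
    (ε : ℝ) (hε : 0 < ε) (E : ℕ) (hE : 0 < E) :
    ∃ k l d C : ℕ, 2 ≤ k ∧ 2 ≤ l ∧ 1 ≤ d ∧ 15 * (t k + 1) * E ≤ 2 ^ l - 1 ∧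
      9 * ((2 : ℝ) ^ l - 1) ^ 3 / (ε / (3 * ((3 * (2 ^ l - 1) : ℕ) : ℝ))) ≤ d ∧
      4 / ((2 : ℝ) ^ l - 1) ≤
        (ε / (3 * ((3 * (2 ^ l - 1) : ℕ) : ℝ)) / (2 * ((2 : ℝ) ^ l - 1) ^ 3)) * C ∧
      α k * ((6 * C + 7) * d : ℕ) < ((k : ℝ) - 1) / 2 := by
  have hEr : (1 : ℝ) ≤ E := by exact_mod_cast hE
  set G : ℝ := (432 / ε + 13) * (81 / ε + 1) * (31 * E) ^ 7 with hG
  have hG0 : 0 < G := by positivity
  have hev : ∀ᶠ k in Filter.atTop, α k * (t k + 1 : ℝ) ^ 7 / k < 1 / (8 * G) :=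
    hα.eventually (gt_mem_nhds (by positivity))
  obtain ⟨k, hk1, hk2⟩ := (hev.and (Filter.eventually_ge_atTop 2)).exists
  have hk0 : (2 : ℝ) ≤ k := by exact_mod_cast hk2
  set T : ℕ := t k + 1 with hT
  have hTr : (t k + 1 : ℝ) = (T : ℝ) := by rw [hT]; push_cast; rfl
  have hT1 : (1 : ℝ) ≤ T := by exact_mod_cast (by omega : 1 ≤ T)
  -- the exponent
  have hex : ∃ l : ℕ, 2 ≤ l ∧ 15 * T * E ≤ 2 ^ l - 1 := by
    refine ⟨15 * T * E + 2, by omega, ?_⟩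
    have h1 : 15 * T * E + 2 < 2 ^ (15 * T * E + 2) := Nat.lt_two_pow_self
    omega
  obtain ⟨l, ⟨hl2, hl⟩, hmin⟩ : ∃ l : ℕ, (2 ≤ l ∧ 15 * T * E ≤ 2 ^ l - 1) ∧
      ∀ m < l, ¬ (2 ≤ m ∧ 15 * T * E ≤ 2 ^ m - 1) :=
    ⟨Nat.find hex, Nat.find_spec hex, fun m hm => Nat.find_min hex hm⟩
  set r : ℕ := 2 ^ l - 1 with hr
  have h2l : 4 ≤ 2 ^ l := by
    calc 4 = 2 ^ 2 := by norm_num
      _ ≤ 2 ^ l := Nat.pow_le_pow_right (by norm_num) hl2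
  have hTE : 1 ≤ T * E := Nat.one_le_iff_ne_zero.2 (Nat.mul_ne_zero (by omega) (by omega))
  have hr31 : r ≤ 31 * (T * E) := by
    rcases Nat.lt_or_ge 2 l with h | h
    · have h1 := hmin (l - 1) (by omega)
      have h2 : ¬ (15 * T * E ≤ 2 ^ (l - 1) - 1) := fun h3 => h1 ⟨by omega, h3⟩
      have h3 : 2 ^ l = 2 * 2 ^ (l - 1) := by
        rw [← pow_succ']
        congr 1
        omega
      have h4 : 15 * T * E = 15 * (T * E) := by ring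
      omega
    · have h1 : l = 2 := by omega
      rw [hr, h1]
      omega
  have hr3 : 3 ≤ r := by omega
  have hrr : ((2 : ℝ) ^ l - 1) = (r : ℝ) := by
    rw [hr, Nat.cast_sub (by omega)]
    push_cast
    rfl
  have h3r : ((3 * (2 ^ l - 1) : ℕ) : ℝ) = 3 * (r : ℝ) := by
    rw [hr]
    push_cast
    rfl
  have hr1 : (1 : ℝ) ≤ r := by exact_mod_cast (by omega : 1 ≤ r)
  have hr0 : (0 : ℝ) < r := by linarith
  rw [hTr] at hk1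
  refine ⟨k, l, ⌈81 * (r : ℝ) ^ 4 / ε⌉₊, ⌈72 * (r : ℝ) ^ 3 / ε⌉₊, hk2, hl2, ?_, hl, ?_, ?_, ?_⟩
  · exact Nat.one_le_ceil_iff.2 (by positivity)
  · rw [hrr, h3r]
    refine le_trans (le_of_eq ?_) (Nat.le_ceil _)
    field_simp
    ring
  · rw [hrr, h3r]
    have h1 : 72 * (r : ℝ) ^ 3 / ε ≤ (⌈72 * (r : ℝ) ^ 3 / ε⌉₊ : ℝ) := Nat.le_ceil _
    calc 4 / (r : ℝ) = ε / (3 * (3 * (r : ℝ))) / (2 * (r : ℝ) ^ 3) * (72 * (r : ℝ) ^ 3 / ε) := by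
          field_simp
          ring
      _ ≤ _ := mul_le_mul_of_nonneg_left h1 (by positivity)
  · set d : ℕ := ⌈81 * (r : ℝ) ^ 4 / ε⌉₊ with hd
    set C : ℕ := ⌈72 * (r : ℝ) ^ 3 / ε⌉₊ with hC
    have hdle : (d : ℝ) ≤ (81 / ε + 1) * (r : ℝ) ^ 4 := by
      have h1 : (d : ℝ) < 81 * (r : ℝ) ^ 4 / ε + 1 := Nat.ceil_lt_add_one (by positivity)
      have h2 : (1 : ℝ) ≤ (r : ℝ) ^ 4 := one_le_pow₀ hr1
      have h3 : (81 / ε + 1) * (r : ℝ) ^ 4 = 81 * (r : ℝ) ^ 4 / ε + (r : ℝ) ^ 4 := by ring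
      linarith
    have hCle : 6 * (C : ℝ) + 7 ≤ (432 / ε + 13) * (r : ℝ) ^ 3 := by
      have h1 : (C : ℝ) < 72 * (r : ℝ) ^ 3 / ε + 1 := Nat.ceil_lt_add_one (by positivity)
      have h2 : (1 : ℝ) ≤ (r : ℝ) ^ 3 := one_le_pow₀ hr1
      have h3 : (432 / ε + 13) * (r : ℝ) ^ 3 = 6 * (72 * (r : ℝ) ^ 3 / ε) + 13 * (r : ℝ) ^ 3 := by
        ring
      linarith
    have hr31r : (r : ℝ) ≤ 31 * E * T := by
      have : (r : ℝ) ≤ ((31 * (T * E) : ℕ) : ℝ) := by exact_mod_cast hr31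
      push_cast at this
      linarith
    have hprod : (((6 * C + 7) * d : ℕ) : ℝ) ≤ G * (T : ℝ) ^ 7 := by
      push_cast
      calc (6 * (C : ℝ) + 7) * d
          ≤ ((432 / ε + 13) * (r : ℝ) ^ 3) * ((81 / ε + 1) * (r : ℝ) ^ 4) := by
            refine mul_le_mul hCle hdle (by positivity) (by positivity)
        _ = (432 / ε + 13) * (81 / ε + 1) * (r : ℝ) ^ 7 := by ring
        _ ≤ (432 / ε + 13) * (81 / ε + 1) * (31 * E * T) ^ 7 := by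
            refine mul_le_mul_of_nonneg_left (pow_le_pow_left₀ hr0.le hr31r 7) (by positivity)
        _ = G * (T : ℝ) ^ 7 := by rw [hG]; ring
    rcases le_or_gt (α k) 0 with h | h
    · have h1 : α k * (((6 * C + 7) * d : ℕ) : ℝ) ≤ 0 :=
        mul_nonpos_of_nonpos_of_nonneg h (Nat.cast_nonneg _)
      linarith
    · have h1 : α k * (((6 * C + 7) * d : ℕ) : ℝ) ≤ α k * (G * (T : ℝ) ^ 7) :=
        mul_le_mul_of_nonneg_left hprod h.le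
      have h2 : α k * (T : ℝ) ^ 7 < 1 / (8 * G) * k := by
        rwa [div_lt_iff₀ (by linarith)] at hk1
      have h3 : α k * (G * (T : ℝ) ^ 7) < k / 8 := by
        calc α k * (G * (T : ℝ) ^ 7) = G * (α k * (T : ℝ) ^ 7) := by ring
          _ < G * (1 / (8 * G) * k) := mul_lt_mul_of_pos_left h2 hG0
          _ = k / 8 := by field_simp
      linarith

end Pool.Agent.MP2cea29
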