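import Pool.Agent.Lib.MP_2cea29_lc.Core

/-!
# Densest k-subgraph: the reduction
-/

namespace Pool.Agent.MP2cea29

open Pool.Agent.PolyTime

/-! ### Formulas -/

/-- Occurrences of variables. -/
def occ (φ : CNF) : List ℕ := φ.flatMap fun c => [c.1.1, c.2.1.1, c.2.2.1]

/-- Remove repetitions. -/
def nub (l : List ℕ) : List ℕ := l.foldl (fun acc x => if x ∈ acc then acc else x :: acc) []

/-- The variables of a formula. -/
def vars (φ : CNF) : List ℕ := nub (occ φ)

/-- The variable `x` occurs in the clause `c`. -/
def occIn (x : ℕ) (c : Clause) : Bool :=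
  decide (x = c.1.1) || decide (x = c.2.1.1) || decide (x = c.2.2.1)

/-- The number of clauses in which `x` occurs. -/
def deg (φ : CNF) (x : ℕ) : ℕ := (φ.filter fun c => occIn x c).length

/-- Variables of high degree. -/
def isHigh (B : ℕ) (φ : CNF) (x : ℕ) : Bool :=
  decide (B * φ.length < deg φ x * (vars φ).length)

/-- The list of variables of high degree. -/
def high (B : ℕ) (φ : CNF) : List ℕ := (vars φ).filter fun x => isHigh B φ x

/-- The list of the other variables. -/
def low (B : ℕ) (φ : CNF) : List ℕ := (vars φ).filter fun x => !isHigh B φ x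

/-! ### Samples -/

/-- The symbol coded by a block of `l` bits: `none` unless all bits except the first one
are `false`. -/
def symVal {l : ℕ} (s : Fin l → Bool) : Option Bool :=
  if ∀ t : Fin l, t.val ≠ 0 → s t = false then
    some (if h : 0 < l then s ⟨0, h⟩ else false) else none

/-- The `i`-th symbol of a word. -/
def sym (l : ℕ) (w : List Bool) (i : ℕ) : Option Bool :=
  if ((List.range l).all fun t => decide (t = 0) || !(w.getD (i * l + t) false)) then
    some (w.getD (i * l) false) else none

/-- The literals of the `a`-th sample. -/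
def litsLow (B l : ℕ) (φ : CNF) (w : List Bool) (a : ℕ) : List Lit :=
  (low B φ).zipIdx.flatMap fun p =>
    match sym l w (a * (low B φ).length + p.2) with
    | none => []
    | some b => [(p.1, b)]

/-- The literals of the `i`-th assignment to the variables of high degree. -/
def litsHigh (B : ℕ) (φ : CNF) (i : ℕ) : List Lit :=
  (high B φ).zipIdx.map fun p => (p.1, i.bits.getD p.2 false)

/-- The clause is falsified by the literals of `L`. -/
def falsified (L : List Lit) (c : Clause) : Bool :=
  decide ((c.1.1, !c.1.2) ∈ L) && (decide ((c.2.1.1, !c.2.1.2) ∈ L) &&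
    decide ((c.2.2.1, !c.2.2.2) ∈ L))

/-- The vertex `(i, a)` falsifies no clause. -/
def okV (B l : ℕ) (φ : CNF) (w : List Bool) (i a : ℕ) : Bool :=
  φ.all fun c => !falsified (litsHigh B φ i ++ litsLow B l φ w a) c

/-- No conflict between two lists of literals. -/
def consis (L L' : List Lit) : Bool := L.all fun p => !decide ((p.1, !p.2) ∈ L')

/-- The number of samples. -/
def nSamp (K l nL : ℕ) : ℕ := K * ((2 ^ l) ^ nL / (2 ^ l - 1) ^ nL + 1)

/-- The number of samples, truncated. -/
def nS (B l K : ℕ) (φ : CNF) (w : List Bool) : ℕ := min (nSamp K l (low B φ).length) w.length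

/-- The number of branches, truncated. -/
def nB (B : ℕ) (φ : CNF) (w : List Bool) : ℕ := min (2 ^ (high B φ).length) w.length

/-- Adjacency of vertices of the constructed graph. -/
def adjV (B l K : ℕ) (φ : CNF) (w : List Bool) (u v : ℕ) : Bool :=
  decide (u / nS B l K φ w = v / nS B l K φ w) &&
    (okV B l φ w (u / nS B l K φ w) (u % nS B l K φ w) &&
      (okV B l φ w (v / nS B l K φ w) (v % nS B l K φ w) &&
        consis (litsLow B l φ w (u % nS B l K φ w)) (litsLow B l φ w (v % nS B l K φ w))))

/-- The constructed graph. -/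
def redG (B l K : ℕ) (φ : CNF) (w : List Bool) : GraphIn :=
  (List.range (nB B φ w * nS B l K φ w)).map fun u =>
    (List.range (nB B φ w * nS B l K φ w)).filter fun v => adjV B l K φ w u v

/-! ### Semantics of vertices -/

/-- The partial assignment of the `a`-th sample. -/
def sampP (B l : ℕ) (φ : CNF) (w : List Bool) (a : ℕ) (j : Fin (low B φ).length) : Option Bool :=
  sym l w (a * (low B φ).length + j)

/-- The literal is falsified by the partial assignment `p` of the low variables together with the
`i`-th assignment of the high variables. -/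
def litF (B : ℕ) (φ : CNF) (i : ℕ) (p : Fin (low B φ).length → Option Bool) (x : Lit) : Prop :=
  (∃ j : Fin (low B φ).length, (low B φ)[j] = x.1 ∧ p j = some (!x.2)) ∨
    ∃ j : Fin (high B φ).length, (high B φ)[j] = x.1 ∧ i.bits.getD j false = !x.2

/-- No clause is falsified. -/
def okP (B : ℕ) (φ : CNF) (i : ℕ) (p : Fin (low B φ).length → Option Bool) : Prop :=
  ∀ c ∈ φ, ¬ (litF B φ i p c.1 ∧ litF B φ i p c.2.1 ∧ litF B φ i p c.2.2)

/-! ### The algorithm -/

/-- A tree as a list of trees. -/
def toListD : D → List D
  | D.nil => []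
  | D.cons a b => a :: toListD b

/-- The vertices whose codes are members of the list coded by `d`. -/
def outS (G : GraphIn) (d : D) : List ℕ :=
  (List.range G.length).filter fun u => decide (enc u ∈ toListD d)

/-- The number of edges in the set of members of `S`. -/
def edgesL (G : GraphIn) (S : List ℕ) : ℕ :=
  ((S.flatMap fun u => S.map fun v => (u, v)).filter fun p =>
    decide (p.1 < p.2) && (decide (p.2 ∈ G.getD p.1 []) || decide (p.1 ∈ G.getD p.2 []))).length

/-- Literals of the `i`-th assignment of all variables. -/
def litsAll (φ : CNF) (i : ℕ) : List Lit :=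
  (vars φ).zipIdx.map fun p => (p.1, i.bits.getD p.2 false)

/-- Brute force over the assignments with number less than `M`. -/
def brute (φ : CNF) (M : ℕ) : Bool :=
  (List.range M).any fun i => φ.all fun c => !falsified (litsAll φ i) c

/-- Parameters: `l` (in unary), `B`, `k`, `K`, `g` and a bound for brute force (in unary). -/
abbrev Par : Type := List Unit × ℕ × ℕ × ℕ × ℕ × List Unit

/-- The algorithm for the gap problem. `clk` is the clocked simulation of an algorithm for
Densest k-Subgraph. -/
def algo (clk : (GraphIn × ℕ) × List Bool → D) (q : Par × (CNF × List Bool)) : Bool :=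
  if 2 ^ (vars q.2.1).length ≤ q.1.2.2.2.2.2.length then
    brute q.2.1 q.1.2.2.2.2.2.length
  else
    decide (q.1.2.2.2.2.1 * q.1.2.2.1 <
      edgesL (redG q.1.2.1 q.1.1.length q.1.2.2.2.1 q.2.1 q.2.2)
        (outS (redG q.1.2.1 q.1.1.length q.1.2.2.2.1 q.2.1 q.2.2)
          (clk ((redG q.1.2.1 q.1.1.length q.1.2.2.2.1 q.2.1 q.2.2, q.1.2.2.1), q.2.2))))

end Pool.Agent.MP2cea29
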