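import Pool.Agent.Lib.MP_2cea29_lc.Red
import Pool.Agent.Lib.PolyTime.Arith

/-!
# Densest k-subgraph: choice of the parameters by the algorithm
-/

namespace Pool.Agent.MP2cea29

open Pool.Agent.PolyTime

/-- The number coded by a tree. -/
def natOfD (d : D) : ℕ := ofBits ((toListD d).map fun x => decide (x ≠ D.nil))

/-- The number `r`. -/
def rr (i : ℕ) : ℕ := 2 ^ (i + 2) - 1

/-- The number `d`. -/
def dd (e i : ℕ) : ℕ := 81 * rr i ^ 4 * e

/-- The number `C`. -/
def cc (e i : ℕ) : ℕ := 72 * rr i ^ 3 * e

/-- The number `g`. -/
def gg (e i : ℕ) : ℕ := (6 * cc e i + 7) * dd e i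

/-- The number `E`. -/
def ee (t i : ℕ) : ℕ := rr i / (15 * (t + 1))

/-- Number of variables from which on everything works. -/
def bigN (r K k d C F : ℕ) : ℕ :=
  r * (F + 3 * K + 2 * r + (K + 1) * (d + 1) + (K + k + 1) * (C + 1) + k + 20)

/-- The parameters `i`, `k` can be used for formulas with `n` variables. -/
def condN (e t n i k av fv : ℕ) : Bool :=
  decide (1 ≤ ee t i) && (decide (2 ≤ k) && (decide (2 * av * gg e i + 1 < k) &&
    decide (bigN (rr i) (k * (k + 3)) k (dd e i) (cc e i) fv ≤ n)))

/-- The test of a pair of parameters; `ga` and `gf` are clocked simulations of algorithms for the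
functions `a` and `f`. -/
def testP (ga gf : ℕ × List Bool → Option D) (e t : ℕ) (u : List Unit) (q : ℕ × ℕ) : Bool :=
  match ga (q.2, u.map fun _ => true) with
  | none => false
  | some x =>
    match gf (q.2, u.map fun _ => true) with
    | none => false
    | some y => condN e t u.length q.1 q.2 (natOfD x) (natOfD y)

/-- The first pair of parameters that passes the test, for decreasing `i`. -/
def cand (ga gf : ℕ × List Bool → Option D) (e t : ℕ) (u : List Unit) : Option (ℕ × ℕ) :=
  ((List.range u.length).reverse.flatMap fun i =>
    (List.range u.length).map fun k => (i, k)).find? fun q => testP ga gf e t u q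

/-- The logarithm of the number of random bits, in unary. -/
def sList (ga gf : ℕ × List Bool → Option D) (e t : ℕ) (u : List Unit) : List Unit :=
  match cand ga gf e t u with
  | none => []
  | some q => (List.range (min (u.length / ee t q.1) u.length)).map fun _ => ()

/-- The parameters. -/
def parOf (ga gf : ℕ × List Bool → Option D) (e t : ℕ) (pad : List Unit) (φ : CNF) : Par :=
  match cand ga gf e t ((vars φ).map fun _ => ()) with
  | none => ([], 0, 0, 0, 0, pad)
  | some q => ((List.range (min (q.1 + 2) ((vars φ).length + 2))).map (fun _ => ()),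
      3 * rr q.1, q.2, q.2 * (q.2 + 3), gg e q.1, [])

/-- The algorithm with parameters computed from the formula. -/
def algo2 (ga gf : ℕ × List Bool → Option D) (clk : (GraphIn × ℕ) × List Bool → D) (e t : ℕ)
    (pad : List Unit) (x : CNF × List Bool) : Bool :=
  algo clk (parOf ga gf e t pad x.1, x)

end Pool.Agent.MP2cea29
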