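import Pool.Agent.Lib.MP_2cea29_lc.Main
import Pool.Agent.Lib.MP_2cea29_lc.Comp
import Pool.Agent.Lib.MP_2cea29_lc.Clock2
import Pool.Agent.Lib.MP_2cea29_lc.Natd
import Pool.Agent.Lib.MP_2cea29_lc.Alg2
import Pool.Agent.Lib.MP_2cea29_lc.Cand
import Pool.Agent.Lib.MP_2cea29_lc.Asym1x
import Pool.Agent.Lib.MP_2cea29_lc.Asym2x

/-!
# Densest k-subgraph: the weak form of Gap-ETH excludes approximation with computable ratio
-/

namespace Pool.Agent.MP2cea29

open Pool.Agent.PolyTime Finset Classical

theorem ulist_eq (u : List Unit) : u = List.replicate u.length () :=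
  List.eq_replicate_iff.2 ⟨rfl, fun _ _ => rfl⟩

theorem ulist_ext {u v : List Unit} (h : u.length = v.length) : u = v := by
  rw [ulist_eq u, ulist_eq v, h]

theorem two_pow_sub_one_cast (l : ℕ) : ((2 ^ l - 1 : ℕ) : ℝ) = (2 : ℝ) ^ l - 1 := by
  rw [Nat.cast_sub Nat.one_le_two_pow]; push_cast; rfl

/-- real inequalities for the parameters -/
theorem par_ineq (ε : ℝ) (hε : 0 < ε) (e : ℕ) (he : 1 ≤ ε * e) (i : ℕ) :
    9 * ((2 : ℝ) ^ (i + 2) - 1) ^ 3 / (ε / (3 * ((3 * rr i : ℕ) : ℝ))) ≤ dd e i ∧
    0 < ε / (3 * ((3 * rr i : ℕ) : ℝ)) / (2 * ((2 : ℝ) ^ (i + 2) - 1) ^ 3) ∧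
    4 / ((2 : ℝ) ^ (i + 2) - 1) ≤
      ε / (3 * ((3 * rr i : ℕ) : ℝ)) / (2 * ((2 : ℝ) ^ (i + 2) - 1) ^ 3) * cc e i := by
  have hr : ((rr i : ℕ) : ℝ) = (2 : ℝ) ^ (i + 2) - 1 := two_pow_sub_one_cast _
  have h4 : (4 : ℝ) ≤ 2 ^ (i + 2) := by
    calc (4 : ℝ) = 2 ^ 2 := by norm_num
      _ ≤ 2 ^ (i + 2) := pow_le_pow_right₀ (by norm_num) (by omega)
  rw [← hr]
  have hr0 : (0 : ℝ) < rr i := by rw [hr]; linarith
  unfold dd cc
  push_cast
  generalize ((rr i : ℕ) : ℝ) = r at *
  refine ⟨?_, by positivity, ?_⟩
  · rw [div_le_iff₀ (by positivity)]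
    have : 81 * r ^ 4 * (e : ℝ) * (ε / (3 * (3 * r))) = 9 * r ^ 3 * (ε * e) := by
      field_simp
      ring
    rw [this]
    have : 0 < 9 * r ^ 3 := by positivity
    nlinarith
  · have : ε / (3 * (3 * r)) / (2 * r ^ 3) * (72 * r ^ 3 * e) = 4 / r * (ε * e) := by
      field_simp
      ring
    rw [this]
    have : 0 < 4 / r := by positivity
    nlinarith

theorem subexpGapSolver_of {α : ℕ → ℝ} {a f : ℕ → ℕ} {t : ℕ} (ha : Computable a)
    (hf : Computable f) (hαa : ∀ k, α k ≤ a k)
    (hlim : Filter.Tendsto (fun k => (a k : ℝ) / k) Filter.atTop (nhds 0))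
    (h : DkSApprox α f fun _ => t) (ε : ℝ) (hε : 0 < ε) : SubexpGapSolver ε := by
  obtain ⟨A, hAc, hA⟩ := h
  obtain ⟨clk, hclkP, hclk⟩ := clocked hAc
  obtain ⟨Ta, hTa⟩ := computesIn_of_computable a ha
  obtain ⟨Tf, hTf⟩ := computesIn_of_computable f hf
  obtain ⟨ga, hgaP, hga⟩ := clocked2 hTa
  obtain ⟨gf, hgfP, hgf⟩ := clocked2 hTf
  obtain ⟨e, he⟩ : ∃ e : ℕ, 1 ≤ ε * e := by
    obtain ⟨e, he⟩ := exists_nat_ge (1 / ε)
    refine ⟨e, ?_⟩
    rw [div_le_iff₀ hε] at he
    linarith
  -- good parameters exist
  have hex : ∀ i, 1 ≤ ee t i → ∃ n0, ∀ u : List Unit, n0 ≤ u.length →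
      ∃ q, cand ga gf e t u = some q ∧ i ≤ q.1 := by
    intro i hi
    obtain ⟨k, hk2, hk⟩ : ∃ k, 2 ≤ k ∧ 2 * a k * gg e i + 1 < k := by
      have h1 : 0 < 1 / (8 * ((gg e i : ℝ) + 1)) := by positivity
      have h2 := (hlim.eventually (gt_mem_nhds h1)).and (Filter.eventually_ge_atTop 4)
      obtain ⟨k, hk1, hk4⟩ := h2.exists
      refine ⟨k, by omega, ?_⟩
      have hk0 : (4 : ℝ) ≤ k := by exact_mod_cast hk4
      rw [div_lt_iff₀ (by linarith)] at hk1
      have h3 : (a k : ℝ) * (8 * (gg e i + 1)) < k := by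
        have h5 : (0 : ℝ) < 8 * ((gg e i : ℝ) + 1) := by positivity
        calc (a k : ℝ) * (8 * (gg e i + 1)) < (1 / (8 * ((gg e i : ℝ) + 1)) * k) *
            (8 * (gg e i + 1)) := mul_lt_mul_of_pos_right hk1 h5
          _ = k := by field_simp
      have h4 : (2 * a k * gg e i + 1 : ℝ) < k := by
        have : (0 : ℝ) ≤ a k := Nat.cast_nonneg _
        have : (0 : ℝ) ≤ (a k : ℝ) * gg e i := by positivity
        nlinarith
      exact_mod_cast h4
    refine ⟨(i + 1) + (k + 1) + Ta k + Tf k +
      bigN (rr i) (k * (k + 3)) k (dd e i) (cc e i) (f k), fun u hu => ?_⟩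
    refine cand_ge ga gf e t u i k (by omega) (by omega) ?_
    unfold testP
    have h1 := (hga k (Set.mem_univ _)).1 (u.map fun _ => true)
      (by rw [List.length_map]; omega)
    have h2 := (hgf k (Set.mem_univ _)).1 (u.map fun _ => true)
      (by rw [List.length_map]; omega)
    simp only [h1, h2, natOfD_enc]
    unfold condN
    simp only [Bool.and_eq_true, decide_eq_true_eq]
    exact ⟨hi, hk2, hk, by omega⟩
  obtain ⟨n1, hn1⟩ := hex (15 * (t + 1)) (by
    have := le_ee t (15 * (t + 1)) le_rfl
    rwa [Nat.div_self (by positivity)] at this)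
  set pad : List Unit := List.replicate (2 ^ n1) () with hpad
  obtain ⟨c, hc⟩ := hardcode (F := fun q : Unit × (CNF × List Bool) =>
    algo2 ga gf clk e t pad q.2) (by
      have h1 : PTime (fun q : Unit × (CNF × List Bool) =>
          (parOf ga gf e t pad q.2.1, q.2)) :=
        ((parOf_ptime ga gf hgaP hgfP e t pad).comp (PTime.fst.comp PTime.snd)).pair PTime.snd
      exact (algo_ptime clk hclkP).comp h1)
  obtain ⟨C1, hC1⟩ := hc ()
  set s : ℕ → ℕ := fun n => (sList ga gf e t (List.replicate n ())).length with hs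
  -- the value of s
  have hsval : ∀ n q, cand ga gf e t (List.replicate n ()) = some q → s n = n / ee t q.1 := by
    intro n q hq
    show (sList ga gf e t (List.replicate n ())).length = _
    unfold sList
    rw [hq]
    simp only [List.length_map, List.length_range, List.length_replicate]
    exact min_eq_left (Nat.div_le_self _ _)
  refine ⟨fun x => algo2 ga gf clk e t pad x, s, C1 * 8 ^ c + c + 1, ?_, ?_, ?_, ?_⟩
  · refine (sList_ptime ga gf hgaP hgfP e t |>.of_eq fun u => ?_).isPolyTime
    refine ulist_ext ?_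
    rw [List.length_replicate, hs]
    simp only
    rw [← ulist_eq]
  · rw [Metric.tendsto_atTop]
    intro δ hδ
    obtain ⟨m, hm⟩ := exists_nat_gt (1 / δ)
    have hm0 : 0 < m := by
      rcases Nat.eq_zero_or_pos m with rfl | h
      · have : 0 < 1 / δ := by positivity
        simp at hm; linarith
      · exact h
    set i := 15 * (t + 1) * m with hi
    have hei : m ≤ ee t i := by
      have := le_ee t i (by rw [hi]; exact Nat.le_mul_of_pos_right _ hm0)
      rwa [hi, Nat.mul_div_cancel_left _ (by positivity)] at this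
    obtain ⟨n0, hn0⟩ := hex i (le_trans hm0 hei)
    refine ⟨n0 + 1, fun n hn => ?_⟩
    obtain ⟨q, hq, hiq⟩ := hn0 (List.replicate n ()) (by rw [List.length_replicate]; omega)
    have h1 : m ≤ ee t q.1 := hei.trans (ee_mono t hiq)
    have hn' : (0 : ℝ) < n := by exact_mod_cast (by omega : 0 < n)
    have hm' : (0 : ℝ) < m := by exact_mod_cast hm0
    rw [Real.dist_eq, sub_zero, abs_of_nonneg (by positivity), hsval n q hq,
      div_lt_iff₀ hn']
    have h2 : ((n / ee t q.1 : ℕ) : ℝ) ≤ n / m := by
      refine Nat.cast_div_le.trans ?_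
      exact div_le_div_of_nonneg_left hn'.le hm' (by exact_mod_cast h1)
    refine h2.trans_lt ?_
    rw [div_lt_iff₀ hm']
    rw [div_lt_iff₀ hδ] at hm
    nlinarith
  · -- running time
    obtain ⟨M, hM⟩ := hC1
    refine ⟨M, fun x hx => ?_⟩
    obtain ⟨hM1⟩ := hM x (Set.mem_univ x)
    refine ⟨⟨hM1.toEvalsTo, hM1.steps_le_m.trans ?_⟩⟩
    obtain ⟨φ, w⟩ := x
    have hx' : w.length = 2 ^ s (nvar φ) := hx
    have h1 : len (φ, w) + 1 ≤ 8 * (len φ + 2 ^ s (nvar φ) + 1) := by
      have h2 := len_input_le φ w
      rw [hx'] at h2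
      omega
    calc C1 * (len (φ, w) + 1) ^ c ≤ C1 * (8 * (len φ + 2 ^ s (nvar φ) + 1)) ^ c :=
          Nat.mul_le_mul_left _ (Nat.pow_le_pow_left h1 c)
      _ = (C1 * 8 ^ c) * (len φ + 2 ^ s (nvar φ) + 1) ^ c := by
          rw [mul_pow]; ring
      _ ≤ (C1 * 8 ^ c + c + 1) * (len φ + 2 ^ s (nvar φ) + 1) ^ (C1 * 8 ^ c + c + 1) := by
          refine Nat.mul_le_mul (by omega) ?_
          exact Nat.pow_le_pow_right (Nat.succ_pos _) (by omega)
  · intro φ
    set n := nvar φ with hn
    have hu : (vars φ).map (fun _ => ()) = List.replicate n () := by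
      refine ulist_ext ?_
      rw [List.length_map, List.length_replicate, hn, nvar_eq]
    have hpar : parOf ga gf e t pad φ = match cand ga gf e t (List.replicate n ()) with
        | none => ([], 0, 0, 0, 0, pad)
        | some q => ((List.range (min (q.1 + 2) ((vars φ).length + 2))).map (fun _ => ()),
            3 * rr q.1, q.2, q.2 * (q.2 + 3), gg e q.1, []) := by
      unfold parOf
      rw [hu]
      cases cand ga gf e t (List.replicate n ()) <;> rfl
    cases hq : cand ga gf e t (List.replicate n ()) with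
    | none =>
      rw [hq] at hpar
      refine brute_case clk ε hε (parOf ga gf e t pad φ) φ _ ?_
      rw [hpar]
      show _ ≤ pad.length
      rw [hpad, List.length_replicate, ← nvar_eq, ← hn]
      refine Nat.pow_le_pow_right (by norm_num) ?_
      by_contra hlt
      obtain ⟨q, hq', _⟩ := hn1 (List.replicate n ()) (by rw [List.length_replicate]; omega)
      rw [hq] at hq'
      exact absurd hq' (by simp)
    | some q =>
      obtain ⟨i, k⟩ := q
      rw [hq] at hpar
      simp only at hpar
      obtain ⟨hin, htest⟩ := cand_some ga gf e t _ _ hq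
      rw [List.length_replicate] at hin
      -- the test
      unfold testP at htest
      cases hga' : ga (k, (List.replicate n ()).map fun _ => true) with
      | none =>
        simp only [hga'] at htest
        exact absurd htest (by decide)
      | some x =>
        cases hgf' : gf (k, (List.replicate n ()).map fun _ => true) with
        | none =>
          simp only [hga', hgf'] at htest
          exact absurd htest (by decide)
        | some y =>
          have hx := (hga k (Set.mem_univ _)).2 _ _ hga'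
          have hy := (hgf k (Set.mem_univ _)).2 _ _ hgf'
          simp only [hga', hgf', List.length_replicate] at htest
          rw [hx, hy, natOfD_enc, natOfD_enc] at htest
          unfold condN at htest
          simp only [Bool.and_eq_true, decide_eq_true_eq] at htest
          obtain ⟨hE1, hk2, hak, hbig⟩ := htest
          have hi' : min (i + 2) ((vars φ).length + 2) = i + 2 := by
            rw [← nvar_eq, ← hn]; omega
          rw [hi'] at hpar
          have hr3 : 3 ≤ 2 ^ (i + 2) - 1 := by
            have : 4 ≤ 2 ^ (i + 2) := by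
              calc 4 = 2 ^ 2 := by norm_num
                _ ≤ 2 ^ (i + 2) := Nat.pow_le_pow_right (by norm_num) (by omega)
            omega
          have hsplit := low_add_high (3 * rr i) φ
          have hhigh : (high (3 * rr i) φ).length * (2 ^ (i + 2) - 1) ≤ nvar φ := by
            have h1 := high_le (3 * rr i) φ
            have h3 : (high (3 * rr i) φ).length * (3 * rr i) =
              3 * ((high (3 * rr i) φ).length * (2 ^ (i + 2) - 1)) := by
              unfold rr; ring
            rw [h3] at h1
            omega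
          obtain ⟨hd, hc0, hC⟩ := par_ineq ε hε e he i
          have he1 : 1 ≤ e := by
            rcases Nat.eq_zero_or_pos e with rfl | h
            · norm_num at he
            · exact h
          have hd1 : 1 ≤ dd e i := by
            unfold dd rr
            have : 0 < 2 ^ (i + 2) - 1 := by omega
            exact Nat.mul_pos (Nat.mul_pos (by norm_num) (Nat.pow_pos this)) he1
          obtain ⟨ha1, ha2, ha3⟩ := asym1x (i + 2) (ee t i) (k * (k + 3)) k (dd e i) (cc e i)
            (f k) t n _ _ (by omega) hE1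
            (by
              have := Nat.div_mul_le_self (rr i) (15 * (t + 1))
              unfold rr at this
              show 15 * (t + 1) * ee t i ≤ _
              unfold ee rr
              linarith [Nat.mul_comm (15 * (t + 1)) ((2 ^ (i + 2) - 1) / (15 * (t + 1)))])
            hbig hsplit hhigh
          have hb := asym2x (i + 2) (k * (k + 3)) k (dd e i) (cc e i) (f k) n _ _ _ (by omega)
            hc0 hC hbig hsplit hhigh
          have hsn : s n = n / ee t i := hsval n (i, k) hq
          rw [hsn]
          refine main_case (T := fun x => f x.2 * (len x.1 + 1) ^ t) hclk hA ε hε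
            (parOf ga gf e t pad φ) φ (i + 2) (3 * rr i) k (dd e i) (cc e i) _
            (by rw [hpar]; simp) (by rw [hpar]) (by rw [hpar]) (by rw [hpar]) (by rw [hpar]; rfl)
            (by
              rw [hpar]
              show ¬ _ ≤ ([] : List Unit).length
              rw [List.length_nil, not_le]
              positivity) hk2 (by omega) (by unfold rr; omega) hd1 hd ?_ ha1 ha2 ?_ hb
          · have h1 : (2 * a k * gg e i + 1 : ℝ) < k := by exact_mod_cast hak
            have h2 : α k * (gg e i : ℝ) ≤ a k * gg e i :=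
              mul_le_mul_of_nonneg_right (hαa k) (Nat.cast_nonneg _)
            show α k * ((gg e i : ℕ) : ℝ) < _
            linarith
          · intro G hG hlG
            show f k * (len G + 1) ^ t ≤ _
            refine le_trans (Nat.mul_le_mul_left _ (Nat.pow_le_pow_left ?_ _)) ha3
            rw [hG] at hlG
            omega

/-- The weak form of Gap-ETH excludes approximation algorithms with computable ratio. -/
theorem main2 (h : SubexpGapETH) {α : ℕ → ℝ} {a f : ℕ → ℕ} {t : ℕ} (ha : Computable a)
    (hf : Computable f) (hαa : ∀ k, α k ≤ a k)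
    (hlim : Filter.Tendsto (fun k => (a k : ℝ) / k) Filter.atTop (nhds 0)) :
    ¬ DkSApprox α f fun _ => t := by
  intro hA
  obtain ⟨ε, hε, hn⟩ := h
  exact hn (subexpGapSolver_of ha hf hαa hlim hA ε hε)

end Pool.Agent.MP2cea29
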